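import Pool.Agent.H65.BU.HH
import Pool.Agent.H65.RA.End

/-!
# Project BU: the value of the alternating function

PROOF of `KK_AA`: only `q = (1, 1)` (there `pr = 0`, `FH 1 s = s`). PROOF of `pair_ev`: `z s z t Ps (s, t) (eP)` summed over
all `(s, t)`: the pairs `(s, t)`, `(t, s)`, `s ≠ t`: `Ps_swap`, `eP_add_swap` (`eP ν a b + eP ν b a = [Interlace ν a b]` for
disjoint `a`, `b`), `Ps_inter` (= 0): so the function is symmetric off the diagonal, `sum_sym` gives the diagonal:
`Ps_self`: `x s * ∑_A eP (sgn s (sA s A)) (sgn s (sB A))`; pair `A` with `s \ A`: interlacing only for `A = s`, `∅`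
(`inter_full`, `inter_only`), so the sum is 1 (see `QQ_diag` in RA/End).
-/

set_option autoImplicit false
set_option linter.unusedSectionVars false

open Finset

namespace Pool.Agent.H65.BU

open Pool.Agent.H65.RA Pool.Agent.H85.VK

variable {V W A : Type} [Fintype V] [DecidableEq V] [Group W] [Group A] {M : CoxeterMatrix V}
  {G : SimpleGraph V} {cs : CoxeterSystem M W} {p : V × Bool → A} {pr : W → V → ZMod 2}
  {g : (V → Bool) → W → A} {e : V → ℕ} {x : Finset V → ZMod 2} {k : ℕ}

theorem KK_AA (hg : Apts cs pr p g) (ν : V × Bool → ℕ) (s t : Finset V) :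
    KK G cs pr e x k (AA ν) s t = Ps G e x k (eP ν) s t := by
  classical
  unfold KK
  rw [finsum_eq_single _ ((1, 1) : W × W)]
  · beta_reduce
    rw [if_pos ⟨fun v _ => hg.pr_one v, fun v _ => hg.pr_one v⟩, FH_one, FH_one]
    unfold Ps
    refine sum_congr rfl fun S _ => sum_congr rfl fun A _ => ?_
    congr 1
    unfold AA
    exact if_pos ⟨rfl, rfl⟩
  · rintro ⟨w, w'⟩ hne
    have h1 : ¬ (w = 1 ∧ w' = 1) := fun h => hne (by rw [h.1, h.2])
    split_ifs with h2
    · unfold Ps
      refine sum_eq_zero fun S _ => sum_eq_zero fun A _ => ?_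
      have h3 : ∀ a b, AA ν ((w, w').1, s, a) ((w, w').2, t, b) = 0 := fun a b => if_neg h1
      beta_reduce
      rw [h3, mul_zero]
    · rfl

/-- the sum of `eP` over the antipodal signings -/
theorem sum_eP (he : Function.Injective e) {σ : Finset V} (hσ : σ.Nonempty) :
    ∑ A ∈ σ.powerset, eP (nu e) (sgn σ (sA σ A)) (sgn σ (sB A)) = 1 := by
  classical
  obtain ⟨v₀, hv₀⟩ := hσ
  obtain ⟨σ', hv', rfl⟩ : ∃ σ', v₀ ∉ σ' ∧ σ = insert v₀ σ' :=
    ⟨σ.erase v₀, notMem_erase v₀ σ, (insert_erase hv₀).symm⟩
  rw [sum_powerset_insert hv']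
  have h3 : ∑ A ∈ σ'.powerset, eP (nu e) (sgn (insert v₀ σ') (sA (insert v₀ σ') A))
      (sgn (insert v₀ σ') (sB A)) = ∑ A ∈ σ'.powerset, eP (nu e)
        (sgn (insert v₀ σ') (sB (insert v₀ A)))
        (sgn (insert v₀ σ') (sA (insert v₀ σ') (insert v₀ A))) := by
    refine sum_nbij' (fun A => σ' \ A) (fun A => σ' \ A) ?_ ?_ ?_ ?_ ?_
    · intro A _
      exact mem_powerset.2 sdiff_subset
    · intro A _
      exact mem_powerset.2 sdiff_subset
    · intro A hA
      exact Finset.sdiff_sdiff_eq_self (mem_powerset.1 hA)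
    · intro A hA
      exact Finset.sdiff_sdiff_eq_self (mem_powerset.1 hA)
    · intro A hA
      rw [mem_powerset] at hA
      have h4 : sgn (insert v₀ σ') (sA (insert v₀ σ') (insert v₀ (σ' \ A))) =
          sgn (insert v₀ σ') (sB A) := by
        refine sgn_congr fun u hu => ?_
        unfold sA sB
        rw [decide_eq_decide, mem_insert, mem_sdiff]
        have h5 := @hA u
        have h6 : v₀ ∉ A := fun h => hv' (hA h)
        rw [mem_insert] at hu
        by_cases huv : u = v₀
        · subst huv
          simp [h6]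
        · have hu' : u ∈ σ' := by tauto
          simp [huv, hu']
      have h5 : sgn (insert v₀ σ') (sB (insert v₀ (σ' \ A))) =
          sgn (insert v₀ σ') (sA (insert v₀ σ') A) := by
        refine sgn_congr fun u hu => ?_
        unfold sA sB
        rw [decide_eq_decide, mem_insert, mem_sdiff]
        have h6 : v₀ ∉ A := fun h => hv' (hA h)
        by_cases huv : u = v₀
        · subst huv
          simp [h6]
        · rw [mem_insert] at hu
          have hu' : u ∈ σ' := by tauto
          simp [huv, hu']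
      rw [h4, h5]
  rw [h3, ← sum_add_distrib]
  have h4 : ∀ A ∈ σ'.powerset, eP (nu e) (sgn (insert v₀ σ') (sB (insert v₀ A)))
        (sgn (insert v₀ σ') (sA (insert v₀ σ') (insert v₀ A))) + eP (nu e)
        (sgn (insert v₀ σ') (sA (insert v₀ σ') (insert v₀ A)))
        (sgn (insert v₀ σ') (sB (insert v₀ A))) = iv e
        (sgn (insert v₀ σ') (sA (insert v₀ σ') (insert v₀ A)))
        (sgn (insert v₀ σ') (sB (insert v₀ A))) := by
    intro A _
    rw [add_comm, eP_add_swap (nu_inj he) (sgn_disjoint (by rw [inter_self]))]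
    · unfold iv
      rfl
    · refine ⟨(v₀, sA (insert v₀ σ') (insert v₀ A) v₀), mem_union_left _ ?_⟩
      rw [mem_sgn]
      exact ⟨mem_insert_self v₀ σ', rfl⟩
  rw [sum_congr rfl h4, sum_eq_single σ']
  · unfold iv
    rw [if_pos (inter_full e _)]
  · intro A hA hne'
    rw [mem_powerset] at hA
    unfold iv
    rw [if_neg]
    intro hI
    have h5 := inter_only he (insert_subset_insert v₀ hA) (mem_insert_self v₀ A) hI
    apply hne'
    have h6 : v₀ ∉ A := fun h => hv' (hA h)
    rw [← erase_insert h6, h5, erase_insert hv']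
  · intro h
    exact absurd (mem_powerset_self σ') h

theorem pair_ev (he : Function.Injective e)
    (hx : ∀ D : Finset V, G.IsClique (D : Set V) → D.card = k + 2 → ∑ v ∈ D, x (D.erase v) = 0)
    (z : Finset V → ZMod 2) (hz : ∀ s, z s ≠ 0 → G.IsClique (s : Set V) ∧ s.card = k + 1) :
    ∑ s : Finset V, ∑ t : Finset V, z s * z t * Ps G e x k (eP (nu e)) s t = ∑ s, x s * z s := by
  classical
  rw [sum_sym univ (fun s t => z s * z t * Ps G e x k (eP (nu e)) s t)]
  · refine sum_congr rfl fun s _ => ?_
    by_cases h3 : z s = 0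
    · rw [h3]
      ring
    · obtain ⟨h4, h5⟩ := hz s h3
      rw [Ps_self h4 h5, sum_eP he (card_pos.1 (by omega)), mul_one]
      have h6 : ∀ a b : ZMod 2, b * b * a = a * b := by decide
      exact h6 _ _
  · intro s _ t _ hne
    by_cases h3 : z s = 0
    · rw [h3]
      ring
    · by_cases h4 : z t = 0
      · rw [h4]
        ring
      · obtain ⟨h5, h6⟩ := hz s h3
        obtain ⟨h7, h8⟩ := hz t h4
        have h9 : Ps G e x k (eP (nu e)) s t + Ps G e x k (eP (nu e)) t s = 0 := by
          rw [Ps_swap e x k he hx (eP (nu e)) t s, ← Ps_inter he x k h6 h8 hne]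
          unfold Ps
          rw [← sum_add_distrib]
          refine sum_congr rfl fun S hS => ?_
          rw [← sum_add_distrib]
          refine sum_congr rfl fun A _ => ?_
          rw [mem_bet] at hS
          rw [← mul_add, eP_add_swap (nu_inj he) (sgn_disjoint hS.2.1)]
          · unfold iv
            rfl
          · have h10 : s.Nonempty := card_pos.1 (by omega)
            obtain ⟨v, hv⟩ := h10
            refine ⟨(v, sA S A v), mem_union_left _ ?_⟩
            rw [mem_sgn]
            exact ⟨hv, rfl⟩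
        have h10 := zmod2_eq_of_add h9
        rw [h10]
        ring

end Pool.Agent.H65.BU
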