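import Pool.Agent.H65.BU.Faces

/-!
# Project BU: the homotopy

PROOF: as `step`, `homotopy` in `H65/RM/Sys.lean`. Induct on `m`. `m = 0`: `d = 0`, `d' = half D`, where
`half F c c' = if WellOrderingRel c c' then F c c' else 0`; for `s = t = ∅`: `D c c' + D c' c = dl D = 0`, and
`c = c'` only for `b0` (`ok_self`), where `D = 0`. Step: `F = D + dl d'_m`; `dl F = D + Dᵀ + 0` ... (`dl_dl` = 0 on Ok
pairs, `dl (φᵀ) = (dl φ)ᵀ`), so `F` is symmetric on the Ok pairs of total degree `m + 1`: `d_(m+1) = d'_m`,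
`d'_(m+1) = half F`. `FinSupp` is stable under `dl` (the corners of the faces are `w` and `w s_v`), `half`, `+`.
`dl_dl`: the iterated faces `fa (fa c u) v = fa (fa c v) u`, `fa (fb c u) v = fb (fa c v) u`, `fb (fb c u) v =
fb (fb c v) u` for `u ≠ v ∈ s` (adjacent, so `s_u s_v = s_v s_u`; the signs are `res (FH …) a` since `res X (res Y a) =
res (X ∩ Y) a` and the sets `FH` of the faces decrease: `FH_a`, `FH_b`).
-/

set_option autoImplicit false
set_option linter.unusedSectionVars false

open Finset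

namespace Pool.Agent.H65.BU

open Pool.Agent.H65.RA

variable {V W A : Type} [Fintype V] [DecidableEq V] [Group W] [Group A] {M : CoxeterMatrix V}
  {G : SimpleGraph V} {cs : CoxeterSystem M W} {p : V × Bool → A} {pr : W → V → ZMod 2}
  {g : (V → Bool) → W → A}

/-! ### The two faces as one function -/

/-- the faces `fa` and `fb` -/
private noncomputable def halfF (cs : CoxeterSystem M W) (c : Cub V W) (v : V) (b : Bool) : Cub V W :=
  if b then fb cs c v else fa cs c v

private theorem halfF_card (cs : CoxeterSystem M W) (c : Cub V W) (v : V) (b : Bool) :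
    (halfF cs c v b).2.1 = c.2.1.erase v := by
  cases b <;> rfl

private theorem half_dl (cs : CoxeterSystem M W) (φ : Cub V W → Cub V W → ZMod 2) (c c' : Cub V W) :
    dl cs φ c c' = ∑ v ∈ c.2.1, ∑ b : Bool, φ (halfF cs c v b) c' +
      ∑ v ∈ c'.2.1, ∑ b : Bool, φ c (halfF cs c' v b) := by
  unfold dl
  congr 1
  · refine sum_congr rfl fun v _ => ?_
    rw [Fintype.sum_bool, add_comm]
    rfl
  · refine sum_congr rfl fun v _ => ?_
    rw [Fintype.sum_bool, add_comm]
    rfl

private theorem half_add (cs : CoxeterSystem M W) (φ ψ : Cub V W → Cub V W → ZMod 2)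
    (c c' : Cub V W) : dl cs (fun x y => φ x y + ψ x y) c c' = dl cs φ c c' + dl cs ψ c c' := by
  simp only [half_dl, sum_add_distrib]
  ring

private theorem half_tr (cs : CoxeterSystem M W) (φ : Cub V W → Cub V W → ZMod 2)
    (c c' : Cub V W) : dl cs (fun x y => φ y x) c c' = dl cs φ c' c := by
  simp only [half_dl]
  rw [add_comm]

private theorem half_self (x : ZMod 2) : x + x = 0 := CharTwo.add_self_eq_zero x

private theorem half_eq {x y : ZMod 2} (h : x + y = 0) : x = y := by
  rw [← sub_eq_zero, sub_eq_add_neg, ZModModule.neg_eq_self]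
  exact h

/-- a symmetric sum over the pairs of different elements -/
private theorem half_sym (s : Finset V) (R : V → V → ZMod 2)
    (h : ∀ u ∈ s, ∀ v ∈ s, u ≠ v → R u v = R v u) : ∑ v ∈ s, ∑ u ∈ s.erase v, R v u = 0 := by
  rw [Finset.sum_sigma']
  refine Finset.sum_involution (fun p _ => ⟨p.2, p.1⟩) ?_ ?_ ?_ ?_
  · rintro ⟨v, u⟩ hp
    rw [mem_sigma, mem_erase] at hp
    simp only at hp ⊢
    rw [h v hp.1 u hp.2.2 hp.2.1.symm]
    exact half_self _
  · rintro ⟨v, u⟩ hp _ heq
    rw [mem_sigma, mem_erase] at hp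
    simp only [Sigma.mk.injEq] at heq
    exact hp.2.1 heq.1
  · rintro ⟨v, u⟩ hp
    rw [mem_sigma, mem_erase] at hp ⊢
    exact ⟨hp.2.2, hp.2.1.symm, hp.1⟩
  · rintro ⟨v, u⟩ hp
    rfl

/-! ### The iterated faces -/

private theorem res_res {X Y : Finset V} (h : X ⊆ Y) (a : Finset (V × Bool)) :
    res X (res Y a) = res X a := by
  unfold res
  rw [filter_filter]
  refine filter_congr fun q _ => ?_
  exact ⟨fun hq => hq.2, fun hq => ⟨h hq, hq⟩⟩

/-- the corner of a face -/
private noncomputable def halfW (cs : CoxeterSystem M W) (w : W) (v : V) (b : Bool) : W :=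
  if b then w * cs.simple v else w

private theorem halfF_eq (cs : CoxeterSystem M W) (c : Cub V W) (v : V) (b : Bool) :
    halfF cs c v b = (halfW cs c.1 v b, c.2.1.erase v,
      res (FH cs (halfW cs c.1 v b) (c.2.1.erase v)) c.2.2) := by
  cases b <;> rfl

private theorem half_valid (hF : Facts G cs) (hg : Apts cs pr p g) {c : Cub V W}
    (h : Valid G cs pr c) {v : V} (hv : v ∈ c.2.1) (b : Bool) : Valid G cs pr (halfF cs c v b) := by
  cases b
  · exact valid_fa h hv
  · exact valid_fb hF hg h hv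

private theorem half_ok (hF : Facts G cs) (hg : Apts cs pr p g) {c c' : Cub V W}
    (h : Ok G cs pr c c') {v : V} (hv : v ∈ c.2.1) (b : Bool) : Ok G cs pr (halfF cs c v b) c' := by
  cases b
  · exact ok_fa h hv
  · exact ok_fb hF hg h hv

/-- the first letters of a face -/
private theorem half_sub (hF : Facts G cs) (hg : Apts cs pr p g) {c : Cub V W}
    (h : Valid G cs pr c) {v : V} (hv : v ∈ c.2.1) (b : Bool) :
    FH cs (halfW cs c.1 v b) (c.2.1.erase v) ⊆ FH cs c.1 c.2.1 := by
  cases b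
  · rcases FH_a (cs := cs) c.1 hv with h1 | h1
    · exact h1.subset
    · exact h1.1.subset.trans (erase_subset _ _)
  · exact (FH_b hF hg h.1 h.2.1 hv).subset

private theorem half_iter (hF : Facts G cs) (hg : Apts cs pr p g) {c : Cub V W}
    (h : Valid G cs pr c) {v : V} (hv : v ∈ c.2.1) (b : Bool) {u : V} (hu : u ∈ c.2.1) (hne : u ≠ v)
    (b' : Bool) : halfF cs (halfF cs c v b) u b' =
      (halfW cs (halfW cs c.1 v b) u b', (c.2.1.erase v).erase u,
        res (FH cs (halfW cs (halfW cs c.1 v b) u b') ((c.2.1.erase v).erase u)) c.2.2) := by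
  have h1 := half_valid hF hg h hv b
  have hu' : u ∈ (halfF cs c v b).2.1 := by
    rw [halfF_card]
    exact mem_erase.2 ⟨hne, hu⟩
  have h2 := half_sub hF hg h1 hu' b'
  rw [halfF_eq cs (halfF cs c v b) u b']
  rw [halfF_eq cs c v b] at h2 ⊢
  rw [res_res h2]

private theorem half_swap (hF : Facts G cs) (hg : Apts cs pr p g) {c : Cub V W}
    (h : Valid G cs pr c) {v : V} (hv : v ∈ c.2.1) (b : Bool) {u : V} (hu : u ∈ c.2.1) (hne : u ≠ v)
    (b' : Bool) : halfF cs (halfF cs c v b) u b' = halfF cs (halfF cs c u b') v b := by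
  rw [half_iter hF hg h hv b hu hne b', half_iter hF hg h hu b' hv hne.symm b]
  have hadj : G.Adj v u := h.1 (mem_coe.2 hv) (mem_coe.2 hu) hne.symm
  have e1 : halfW cs (halfW cs c.1 v b) u b' = halfW cs (halfW cs c.1 u b') v b := by
    cases b <;> cases b'
    · rfl
    · rfl
    · rfl
    · show c.1 * cs.simple v * cs.simple u = c.1 * cs.simple u * cs.simple v
      rw [mul_assoc, mul_assoc, hF.comm v u hadj]
  have e2 : (c.2.1.erase v).erase u = (c.2.1.erase u).erase v := erase_right_comm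
  rw [e1, e2]

private theorem half_dldl (hF : Facts G cs) (hg : Apts cs pr p g)
    (φ : Cub V W → Cub V W → ZMod 2) {c c' : Cub V W} (h : Ok G cs pr c c') :
    dl cs (dl cs φ) c c' = 0 := by
  have hz : ∀ (x : Cub V W), Valid G cs pr x → ∀ ψ : Cub V W → ZMod 2,
      ∑ v ∈ x.2.1, ∑ b : Bool, ∑ u ∈ x.2.1.erase v, ∑ b' : Bool,
        ψ (halfF cs (halfF cs x v b) u b') = 0 := by
    intro x hx ψ
    have e : ∀ v ∈ x.2.1, ∑ b : Bool, ∑ u ∈ x.2.1.erase v, ∑ b' : Bool,
        ψ (halfF cs (halfF cs x v b) u b') = ∑ u ∈ x.2.1.erase v, ∑ b : Bool, ∑ b' : Bool,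
        ψ (halfF cs (halfF cs x v b) u b') := fun v _ => sum_comm
    rw [sum_congr rfl e]
    apply half_sym
    intro u hu v hv hne
    rw [sum_comm]
    refine sum_congr rfl fun b _ => sum_congr rfl fun b' _ => ?_
    rw [half_swap hF hg hx hu b' hv hne.symm b]
  rw [half_dl]
  have e1 : ∀ v ∈ c.2.1, ∑ b : Bool, dl cs φ (halfF cs c v b) c' =
      ∑ b : Bool, ∑ u ∈ c.2.1.erase v, ∑ b' : Bool, φ (halfF cs (halfF cs c v b) u b') c' +
        ∑ b : Bool, ∑ v' ∈ c'.2.1, ∑ b' : Bool, φ (halfF cs c v b) (halfF cs c' v' b') := by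
    intro v _
    rw [← sum_add_distrib]
    refine sum_congr rfl fun b _ => ?_
    rw [half_dl, halfF_card]
  have e2 : ∀ v' ∈ c'.2.1, ∑ b' : Bool, dl cs φ c (halfF cs c' v' b') =
      ∑ b' : Bool, ∑ v ∈ c.2.1, ∑ b : Bool, φ (halfF cs c v b) (halfF cs c' v' b') +
        ∑ b' : Bool, ∑ u ∈ c'.2.1.erase v', ∑ b : Bool, φ c (halfF cs (halfF cs c' v' b') u b) := by
    intro v _
    rw [← sum_add_distrib]
    refine sum_congr rfl fun b _ => ?_
    rw [half_dl, halfF_card]
  rw [sum_congr rfl e1, sum_congr rfl e2, sum_add_distrib, sum_add_distrib,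
    hz c h.1 (fun x => φ x c'), hz c' h.2.1 (fun x => φ c x)]
  have e3 : ∑ v' ∈ c'.2.1, ∑ b' : Bool, ∑ v ∈ c.2.1, ∑ b : Bool,
      φ (halfF cs c v b) (halfF cs c' v' b') = ∑ v ∈ c.2.1, ∑ b : Bool, ∑ v' ∈ c'.2.1, ∑ b' : Bool,
      φ (halfF cs c v b) (halfF cs c' v' b') := by
    have e4 : ∀ v' ∈ c'.2.1, ∑ b' : Bool, ∑ v ∈ c.2.1, ∑ b : Bool,
        φ (halfF cs c v b) (halfF cs c' v' b') = ∑ v ∈ c.2.1, ∑ b : Bool, ∑ b' : Bool,
        φ (halfF cs c v b) (halfF cs c' v' b') := by
      intro v' _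
      rw [sum_comm]
      exact sum_congr rfl fun v _ => sum_comm
    rw [sum_congr rfl e4, sum_comm]
    exact sum_congr rfl fun v _ => sum_comm
  rw [e3, zero_add, add_zero]
  exact half_self _

/-! ### Finite supports -/

private theorem half_fin_add {φ ψ : Cub V W → Cub V W → ZMod 2} (h1 : FinSupp φ) (h2 : FinSupp ψ) :
    FinSupp fun x y => φ x y + ψ x y := by
  refine (Set.Finite.union h1 h2).subset ?_
  rintro q ⟨s, a, t, b, h⟩
  by_cases h3 : φ (q.1, s, a) (q.2, t, b) = 0
  · right
    refine ⟨s, a, t, b, ?_⟩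
    change φ (q.1, s, a) (q.2, t, b) + ψ (q.1, s, a) (q.2, t, b) ≠ 0 at h
    rwa [h3, zero_add] at h
  · left
    exact ⟨s, a, t, b, h3⟩

private theorem half_fin_dl {φ : Cub V W → Cub V W → ZMod 2} (h : FinSupp φ) :
    FinSupp (dl cs φ) := by
  have h1 : ∀ v : V, {q : W × W | (q.1 * cs.simple v, q.2) ∈
      {q : W × W | ∃ s a t b, φ (q.1, s, a) (q.2, t, b) ≠ 0}}.Finite := by
    intro v
    refine h.preimage (f := fun q : W × W => (q.1 * cs.simple v, q.2)) ?_
    rintro ⟨a, b⟩ _ ⟨a', b'⟩ _ hab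
    simp only [Prod.mk.injEq, mul_left_inj] at hab
    rw [hab.1, hab.2]
  have h2 : ∀ v : V, {q : W × W | (q.1, q.2 * cs.simple v) ∈
      {q : W × W | ∃ s a t b, φ (q.1, s, a) (q.2, t, b) ≠ 0}}.Finite := by
    intro v
    refine h.preimage (f := fun q : W × W => (q.1, q.2 * cs.simple v)) ?_
    rintro ⟨a, b⟩ _ ⟨a', b'⟩ _ hab
    simp only [Prod.mk.injEq, mul_left_inj] at hab
    rw [hab.1, hab.2]
  refine ((Set.Finite.union h (Set.finite_iUnion h1)).union (Set.finite_iUnion h2)).subset ?_
  rintro q ⟨s, a, t, b, hne⟩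
  by_contra hcon
  apply hne
  simp only [Set.mem_union, Set.mem_iUnion, Set.mem_ofPred_eq, not_or, not_exists, not_not] at hcon
  obtain ⟨⟨g1, g2⟩, g3⟩ := hcon
  unfold dl fa fb
  simp only [g1, g2, g3, add_zero, sum_const_zero]

open Classical in
/-- half of a symmetric function -/
private noncomputable def half (F : Cub V W → Cub V W → ZMod 2) (c c' : Cub V W) : ZMod 2 :=
  if WellOrderingRel c c' then F c c' else 0

private theorem half_fin {F : Cub V W → Cub V W → ZMod 2} (h : FinSupp F) : FinSupp (half F) := by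
  refine h.subset ?_
  rintro q ⟨s, a, t, b, hne⟩
  refine ⟨s, a, t, b, fun h0 => hne ?_⟩
  unfold half
  split_ifs
  · exact h0
  · rfl

private theorem half_half {F : Cub V W → Cub V W → ZMod 2} {c c' : Cub V W} (hne : c ≠ c')
    (h : F c c' = F c' c) : half F c c' + half F c' c = F c c' := by
  classical
  unfold half
  rcases trichotomous_of (WellOrderingRel : Cub V W → Cub V W → Prop) c c' with h1 | h1 | h1
  · rw [if_pos h1, if_neg (asymm_of WellOrderingRel h1), add_zero]
  · exact absurd h1 hne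
  · rw [if_pos h1, if_neg (asymm_of WellOrderingRel h1), zero_add, h]

private theorem half_congr (hF : Facts G cs) (hg : Apts cs pr p g) {m : ℕ}
    {φ ψ : Cub V W → Cub V W → ZMod 2}
    (h : ∀ c c', Ok G cs pr c c' → c.2.1.card + c'.2.1.card = m → φ c c' = ψ c c') {c c' : Cub V W}
    (hok : Ok G cs pr c c') (hm : c.2.1.card + c'.2.1.card = m + 1) :
    dl cs φ c c' = dl cs ψ c c' := by
  rw [half_dl, half_dl]
  congr 1
  · refine sum_congr rfl fun v hv => sum_congr rfl fun b _ => ?_
    apply h _ _ (half_ok hF hg hok hv b)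
    rw [halfF_card, card_erase_of_mem hv]
    have := card_pos.2 ⟨v, hv⟩
    omega
  · refine sum_congr rfl fun v hv => sum_congr rfl fun b _ => ?_
    apply h _ _ (ok_symm (half_ok hF hg (ok_symm hok) hv b))
    rw [halfF_card, card_erase_of_mem hv]
    have := card_pos.2 ⟨v, hv⟩
    omega

theorem exists_half (hF : Facts G cs) (hg : Apts cs pr p g) (D : Cub V W → Cub V W → ZMod 2)
    (hD : ∀ c c', Ok G cs pr c c' → dl cs D c c' = D c c' + D c' c)
    (h0 : D (b0 V W) (b0 V W) = 0) (hfin : FinSupp D) (m : ℕ) :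
    ∃ d d' : Cub V W → Cub V W → ZMod 2, FinSupp d ∧ FinSupp d' ∧
      ∀ c c', Ok G cs pr c c' → c.2.1.card + c'.2.1.card = m →
        D c c' = dl cs d c c' + (d' c c' + d' c' c) := by
  induction m with
  | zero =>
    refine ⟨fun _ _ => 0, half D, ?_, half_fin hfin, ?_⟩
    · have : {q : W × W | ∃ (s : Finset V) (a : Finset (V × Bool)) (t : Finset V)
          (b : Finset (V × Bool)), (fun _ _ => 0 : Cub V W → Cub V W → ZMod 2) (q.1, s, a) (q.2, t, b) ≠ 0} = ∅ := by
        rw [Set.eq_empty_iff_forall_notMem]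
        rintro q ⟨s, a, t, b, h⟩
        exact h rfl
      unfold FinSupp
      rw [this]
      exact Set.finite_empty
    · intro c c' hok hm
      have h1 : c.2.1 = ∅ := card_eq_zero.1 (by omega)
      have h2 : c'.2.1 = ∅ := card_eq_zero.1 (by omega)
      have h3 : dl cs (fun _ _ => (0 : ZMod 2)) c c' = 0 := by
        unfold dl
        simp only [add_zero, sum_const_zero]
      rw [h3, zero_add]
      have h4 := hD c c' hok
      unfold dl at h4
      rw [h1, h2, sum_empty, sum_empty, add_zero] at h4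
      have h5 : D c c' = D c' c := half_eq h4.symm
      by_cases hne : c = c'
      · subst hne
        have h6 := ok_self hok
        rw [half_self, h6, h0]
      · exact (half_half hne h5).symm
  | succ m ih =>
    obtain ⟨d, d', hd, hd', hdd⟩ := ih
    refine ⟨d', half fun x y => D x y + dl cs d' x y, hd',
      half_fin (half_fin_add hfin (half_fin_dl hd')), ?_⟩
    intro c c' hok hm
    have hne : c ≠ c' := by
      rintro rfl
      have h6 := ok_self hok
      rw [h6] at hm
      simp [b0] at hm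
    have h1 := half_congr hF hg (φ := D) (ψ := fun c c' => dl cs d c c' + (d' c c' + d' c' c)) hdd hok hm
    rw [half_add, half_add (φ := fun c c' => d' c c') (ψ := fun c c' => d' c' c), half_tr cs d',
      half_dldl hF hg d hok, zero_add, hD c c' hok] at h1
    have h2 : D c c' + dl cs d' c c' = D c' c + dl cs d' c' c := by
      apply half_eq
      have h3 : D c c' + dl cs d' c c' + (D c' c + dl cs d' c' c) =
          (D c c' + D c' c) + (dl cs d' c c' + dl cs d' c' c) := by ring
      rw [h3, h1]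
      exact half_self _
    rw [half_half (F := fun x y => D x y + dl cs d' x y) hne h2]
    have h4 := half_self (dl cs d' c c')
    linear_combination -h4

end Pool.Agent.H65.BU
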