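import Pool.Agent.H65.BU.Apt

/-!
# Project BU: the first letters of the faces of a cube

`(w, s)` with `pr w v = 0` for `v ∈ s`, `s` a clique.

PROOF. `FH_clique`: `u ∈ F(w)`, `v ∈ s` with `s_v w = w s_v`: if `v ∈ F(w)` clear (but in fact impossible: `w = s_v w'`,
`pr w' v = 0` by `pr_indep`, `pr w v = 1`); if `v ∉ F(w)`: `u ∈ F(w s_v) = F(s_v w) ∋ v`: adjacent or equal; or
`u ∉ F(w s_v)`: `exch` for `w s_v`: `s_u (w s_v) = w`, `same`: `u = v`. `FH_a`: by the definition.
`FH_b` (always the SAME set): case `s_v w ≠ w s_v`: then `F(w s_v) = F(w)` (a letter which is in only one of them: `exch`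
gives `s_u w = w s_v` or `s_u w s_v = w`, so `u = v`), and `s_u`, `u ∈ s - v`, commutes with `w s_v` iff with `w`. Case
`s_v w = w s_v`: then `v ∉ F(w)` (else `w = s_v w'`, `pr w v = 1`), `F(w s_v) = F(s_v w) = F(w) ∪ {v}` (all of `F(w)`
is adjacent to `v`, see Persist (b)).
-/

set_option autoImplicit false
set_option linter.unusedSectionVars false
set_option linter.unusedVariables false

open Finset

namespace Pool.Agent.H65.BU

open Pool.Agent.H65.RA

variable {V W A : Type} [Fintype V] [DecidableEq V] [Group W] [Group A] {M : CoxeterMatrix V}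
  {G : SimpleGraph V} {cs : CoxeterSystem M W} {p : V × Bool → A} {pr : W → V → ZMod 2}
  {g : (V → Bool) → W → A}

theorem mem_fst {w : W} {v : V} : v ∈ fst cs w ↔ cs.IsLeftDescent w v := by
  classical
  unfold fst
  simp

theorem mem_FH {w : W} {s : Finset V} {v : V} :
    v ∈ FH cs w s ↔ v ∈ fst cs w ∨ (v ∈ s ∧ cs.simple v * w = w * cs.simple v) := by
  classical
  unfold FH
  simp

/-- the first letter is gone -/
theorem not_fst_mul {w : W} {v : V} (h : v ∈ fst cs w) : v ∉ fst cs (cs.simple v * w) := by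
  rw [mem_fst] at h ⊢
  intro h2
  unfold CoxeterSystem.IsLeftDescent at h h2
  rw [cs.simple_mul_simple_cancel_left] at h2
  exact absurd h (not_lt.2 h2.le)

theorem fst_mul {w : W} {v : V} (h : v ∉ fst cs w) : v ∈ fst cs (cs.simple v * w) := by
  rw [mem_fst] at h ⊢
  unfold CoxeterSystem.IsLeftDescent at h ⊢
  rw [cs.simple_mul_simple_cancel_left]
  rcases cs.length_simple_mul w v with h1 | h1
  · omega
  · omega

theorem not_fst_of_pr (hF : Facts G cs) (hg : Apts cs pr p g) {w : W} {v : V}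
    (hc : cs.simple v * w = w * cs.simple v) (hp : pr w v = 0) : v ∉ fst cs w := by
  intro hv
  have h1 : v ∉ fst cs (cs.simple v * w) := not_fst_mul hv
  have h2 : cs.simple v * (cs.simple v * w) = cs.simple v * w * cs.simple v := by
    rw [mul_assoc, ← hc]
  have h3 := pr_indep hF hg h2 h1
  rw [hc, hg.pr_mul, hp, if_pos rfl, zero_add] at h3
  exact one_ne_zero h3

/-- the first letters are adjacent to a commuting letter which is not first -/
theorem adj_of_fst (hF : Facts G cs) {w : W} {u v : V} (hc : cs.simple v * w = w * cs.simple v)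
    (hv : v ∉ fst cs w) (hu : u ∈ fst cs w) : G.Adj u v := by
  have huv : u ≠ v := fun h => hv (h ▸ hu)
  have h1 : v ∈ fst cs (w * cs.simple v) := by
    rw [← hc]
    exact fst_mul hv
  by_cases h2 : u ∈ fst cs (w * cs.simple v)
  · exact hF.clique _ h2 h1 huv
  · have h3 : u ∈ fst cs (w * cs.simple v * cs.simple v) := by
      rw [cs.simple_mul_simple_cancel_right]
      exact hu
    have h4 := hF.exch _ _ _ h2 h3
    exact absurd (hF.same _ _ _ h4).symm huv

theorem FH_clique (hF : Facts G cs) (hg : Apts cs pr p g) {w : W} {s : Finset V}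
    (hs : G.IsClique (s : Set V)) (hp : ∀ v ∈ s, pr w v = 0) : G.IsClique (FH cs w s : Set V) := by
  intro u hu v hv huv
  rw [mem_coe, mem_FH] at hu hv
  rcases hu with hu | ⟨hu1, hu2⟩
  · rcases hv with hv | ⟨hv1, hv2⟩
    · exact hF.clique _ hu hv huv
    · exact adj_of_fst hF hv2 (not_fst_of_pr hF hg hv2 (hp _ hv1)) hu
  · rcases hv with hv | ⟨hv1, hv2⟩
    · exact (adj_of_fst hF hu2 (not_fst_of_pr hF hg hu2 (hp _ hu1)) hv).symm
    · exact hs hu1 hv1 huv

theorem FH_a (w : W) {s : Finset V} {v : V} (hv : v ∈ s) :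
    FH cs w (s.erase v) = FH cs w s ∨ (FH cs w (s.erase v) = (FH cs w s).erase v ∧
      v ∈ FH cs w s ∧ v ∉ fst cs w ∧ cs.simple v * w = w * cs.simple v) := by
  by_cases h : v ∉ fst cs w ∧ cs.simple v * w = w * cs.simple v
  · right
    refine ⟨?_, mem_FH.2 (Or.inr ⟨hv, h.2⟩), h.1, h.2⟩
    ext u
    rw [mem_erase, mem_FH, mem_FH, mem_erase]
    constructor
    · rintro (h1 | ⟨⟨h1, h2⟩, h3⟩)
      · exact ⟨fun h2 => h.1 (h2 ▸ h1), Or.inl h1⟩
      · exact ⟨h1, Or.inr ⟨h2, h3⟩⟩
    · rintro ⟨h1, h2 | ⟨h2, h3⟩⟩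
      · exact Or.inl h2
      · exact Or.inr ⟨⟨h1, h2⟩, h3⟩
  · left
    ext u
    rw [mem_FH, mem_FH, mem_erase]
    constructor
    · rintro (h1 | ⟨⟨h1, h2⟩, h3⟩)
      · exact Or.inl h1
      · exact Or.inr ⟨h2, h3⟩
    · rintro (h2 | ⟨h2, h3⟩)
      · exact Or.inl h2
      · by_cases huv : u = v
        · left
          subst huv
          by_contra h4
          exact h ⟨h4, h3⟩
        · exact Or.inr ⟨⟨huv, h2⟩, h3⟩

theorem FH_b (hF : Facts G cs) (hg : Apts cs pr p g) {w : W} {s : Finset V}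
    (hs : G.IsClique (s : Set V)) (hp : ∀ v ∈ s, pr w v = 0) {v : V} (hv : v ∈ s) :
    FH cs (w * cs.simple v) (s.erase v) = FH cs w s := by
  have hcomm : ∀ u ∈ s, u ≠ v → (cs.simple u * (w * cs.simple v) = w * cs.simple v * cs.simple u ↔
      cs.simple u * w = w * cs.simple u) := by
    intro u hu huv
    have h1 := hF.comm u v (hs hu hv huv)
    constructor
    · intro h2
      rw [mul_assoc, ← h1, ← mul_assoc, ← mul_assoc] at h2
      exact mul_right_cancel h2
    · intro h2
      rw [mul_assoc, ← h1, ← mul_assoc, ← mul_assoc, h2]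
  have hsub : ∀ x, x ∈ fst cs (w * cs.simple v) → x ∉ fst cs w →
      x = v ∧ cs.simple v * w = w * cs.simple v := by
    intro x h1 h2
    have h3 := hF.exch _ _ _ h2 h1
    have h4 := hF.same _ _ _ h3
    subst h4
    exact ⟨rfl, h3⟩
  by_cases hc : cs.simple v * w = w * cs.simple v
  · have hvw : v ∉ fst cs w := not_fst_of_pr hF hg hc (hp v hv)
    ext u
    rw [mem_FH, mem_FH, mem_erase]
    constructor
    · rintro (h1 | ⟨⟨h1, h2⟩, h3⟩)
      · by_cases h2 : u ∈ fst cs w
        · exact Or.inl h2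
        · obtain ⟨rfl, _⟩ := hsub u h1 h2
          exact Or.inr ⟨hv, hc⟩
      · exact Or.inr ⟨h2, (hcomm u h2 h1).1 h3⟩
    · rintro (h2 | ⟨h2, h3⟩)
      · left
        rw [← hc]
        exact (hF.left w v u (adj_of_fst hF hc hvw h2).symm).2 h2
      · by_cases huv : u = v
        · left
          subst huv
          rw [← hc]
          exact fst_mul hvw
        · exact Or.inr ⟨⟨huv, h2⟩, (hcomm u h2 huv).2 h3⟩
  · ext u
    rw [mem_FH, mem_FH, mem_erase]
    constructor
    · rintro (h1 | ⟨⟨h1, h2⟩, h3⟩)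
      · by_cases h2 : u ∈ fst cs w
        · exact Or.inl h2
        · exact absurd (hsub u h1 h2).2 hc
      · exact Or.inr ⟨h2, (hcomm u h2 h1).1 h3⟩
    · rintro (h2 | ⟨h2, h3⟩)
      · left
        by_contra h4
        have h5 : u ∈ fst cs (w * cs.simple v * cs.simple v) := by
          rw [cs.simple_mul_simple_cancel_right]
          exact h2
        have h6 := hF.exch _ _ _ h4 h5
        have h7 := hF.same _ _ _ h6
        subst h7
        rw [cs.simple_mul_simple_cancel_right, ← mul_assoc] at h6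
        apply hc
        calc cs.simple v * w = cs.simple v * w * cs.simple v * cs.simple v := by
              rw [cs.simple_mul_simple_cancel_right]
          _ = w * cs.simple v := by rw [h6]
      · by_cases huv : u = v
        · subst huv
          exact absurd h3 hc
        · exact Or.inr ⟨⟨huv, h2⟩, (hcomm u h2 huv).2 h3⟩

theorem fst_one (cs : CoxeterSystem M W) : fst cs 1 = ∅ := by
  ext v
  rw [mem_fst]
  unfold CoxeterSystem.IsLeftDescent
  simp

theorem FH_one (cs : CoxeterSystem M W) (s : Finset V) : FH cs 1 s = s := by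
  ext v
  rw [mem_FH, fst_one]
  simp

theorem FH_empty {w : W} {s : Finset V} (h : FH cs w s = ∅) : w = 1 ∧ s = ∅ := by
  have hw : w = 1 := by
    by_contra hw
    obtain ⟨v, hv⟩ := cs.exists_leftDescent_of_ne_one hw
    have h1 : v ∈ FH cs w s := mem_FH.2 (Or.inl (mem_fst.2 hv))
    rw [h] at h1
    exact absurd h1 (notMem_empty v)
  subst hw
  rw [FH_one] at h
  exact ⟨rfl, h⟩

theorem fst_subset_FH (w : W) (s : Finset V) : fst cs w ⊆ FH cs w s :=
  fun _ h => mem_FH.2 (Or.inl h)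

theorem FH_erase_subset (w : W) (s : Finset V) (v : V) : FH cs w (s.erase v) ⊆ FH cs w s := by
  intro u hu
  rw [mem_FH, mem_erase] at hu
  rw [mem_FH]
  tauto

private theorem res_sgn_aux {X Y : Finset V} (h : X ⊆ Y) (α : V → Bool) : res X (sgn Y α) = sgn X α := by
  ext q
  unfold res
  rw [mem_filter, mem_sgn, mem_sgn]
  constructor
  · rintro ⟨⟨_, h2⟩, h3⟩
    exact ⟨h3, h2⟩
  · rintro ⟨h1, h2⟩
    exact ⟨⟨h h1, h2⟩, h1⟩

theorem valid_fa {c : Cub V W} (h : Valid G cs pr c) {v : V} (hv : v ∈ c.2.1) :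
    Valid G cs pr (fa cs c v) := by
  obtain ⟨h1, h2, α, h3⟩ := h
  refine ⟨?_, ?_, α, ?_⟩
  · exact h1.subset (fun x hx => mem_coe.2 (mem_of_mem_erase (mem_coe.1 hx)))
  · intro u hu
    exact h2 u (mem_of_mem_erase hu)
  · show res _ c.2.2 = _
    rw [h3]
    exact res_sgn_aux (FH_erase_subset _ _ _) α

/-- the signs of the opposite face -/
theorem res_fb (hF : Facts G cs) (hg : Apts cs pr p g) {c : Cub V W} (h : Valid G cs pr c) {v : V}
    (hv : v ∈ c.2.1) : (fb cs c v).2.2 = c.2.2 := by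
  obtain ⟨h1, h2, α, h3⟩ := h
  show res (FH cs (c.1 * cs.simple v) (c.2.1.erase v)) c.2.2 = _
  rw [FH_b hF hg h1 h2 hv, h3]
  exact res_sgn_aux (subset_refl _) α

theorem valid_fb (hF : Facts G cs) (hg : Apts cs pr p g) {c : Cub V W} (h : Valid G cs pr c) {v : V}
    (hv : v ∈ c.2.1) : Valid G cs pr (fb cs c v) := by
  have h0 := res_fb hF hg h hv
  obtain ⟨h1, h2, α, h3⟩ := h
  refine ⟨?_, ?_, α, ?_⟩
  · exact h1.subset (fun x hx => mem_coe.2 (mem_of_mem_erase (mem_coe.1 hx)))
  · intro u hu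
    have hu' : u ∈ c.2.1.erase v := hu
    rw [mem_erase] at hu'
    show pr (c.1 * cs.simple v) u = 0
    rw [hg.pr_mul, h2 u hu'.2, if_neg hu'.1, add_zero]
  · rw [h0, h3]
    show _ = sgn (FH cs (c.1 * cs.simple v) (c.2.1.erase v)) α
    rw [FH_b hF hg h1 h2 hv]

/-- a far corner is not 1 -/
theorem fb_ne (hg : Apts cs pr p g) {c : Cub V W} (h : Valid G cs pr c) {v : V}
    (hv : v ∈ c.2.1) : (fb cs c v).1 ≠ 1 := by
  intro h1
  have h1' : c.1 * cs.simple v = 1 := h1
  have h2 := h.2.1 v hv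
  have h3 := hg.pr_mul c.1 v v
  rw [h1', hg.pr_one, h2, if_pos rfl, zero_add] at h3
  exact one_ne_zero h3.symm

theorem res_subset (X : Finset V) (a : Finset (V × Bool)) : res X a ⊆ a :=
  filter_subset _ _

theorem ok_symm {c c' : Cub V W} (h : Ok G cs pr c c') : Ok G cs pr c' c :=
  ⟨h.2.1, h.1, h.2.2.symm⟩

theorem ok_fa {c c' : Cub V W} (h : Ok G cs pr c c') {v : V} (hv : v ∈ c.2.1) :
    Ok G cs pr (fa cs c v) c' :=
  ⟨valid_fa h.1 hv, h.2.1, h.2.2.mono_left (res_subset _ _)⟩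

theorem ok_fb (hF : Facts G cs) (hg : Apts cs pr p g) {c c' : Cub V W} (h : Ok G cs pr c c') {v : V}
    (hv : v ∈ c.2.1) : Ok G cs pr (fb cs c v) c' :=
  ⟨valid_fb hF hg h.1 hv, h.2.1, h.2.2.mono_left (res_subset _ _)⟩

/-- the only cube which is ok with itself -/
theorem ok_self {c : Cub V W} (h : Ok G cs pr c c) : c = b0 V W := by
  obtain ⟨⟨_, _, α, h3⟩, _, h4⟩ := h
  have h5 : c.2.2 = ∅ := disjoint_self.1 h4
  have h6 : FH cs c.1 c.2.1 = ∅ := by
    rw [h5] at h3
    rw [← card_eq_zero, ← card_sgn _ α, ← h3, card_empty]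
  obtain ⟨h7, h8⟩ := FH_empty h6
  exact Prod.ext h7 (Prod.ext h8 h5)

theorem ok_b0 (hg : Apts cs pr p g) : Ok G cs pr (b0 V W) (b0 V W) := by
  have h : Valid G cs pr (b0 V W) := by
    refine ⟨?_, ?_, fun _ => true, ?_⟩
    · intro a ha
      exact absurd ha (by simp [b0])
    · intro v hv
      exact absurd hv (by simp [b0])
    · show ∅ = sgn (FH cs 1 ∅) _
      rw [FH_one]
      simp [sgn]
  exact ⟨h, h, by simp [b0]⟩

end Pool.Agent.H65.BU
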