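import Pool.Agent.H65.BU.Coh
import Pool.Agent.H65.BU.Faces

/-!
# Project BU: the sum over all pairs of cubes

PROOF of `KK_dl`: `Ps_add`, `Ps_sum`; the term of `v ∈ s`: for `q` with `pr q.1 v = 0` (and the other conditions)
`Ps (fun a b => φ (fa (q.1, s, a) v) (q.2, t, b)) (FH q.1 s) (FH q.2 t) = Ps (fun a b => φ (q.1, s.erase v, a) (q.2, t, b))
(FH q.1 (s.erase v)) (FH q.2 t)` by `FH_a` (`Ps_forget` or `Ps_congr` with `res = id`), and the same with `q.1 s_v` for
`fb` (`FH_b`). The map `w ↦ w s_v` exchanges the elements with `pr w v = 0` and with `pr w v = 1` (it keeps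
`pr w u = 0` for `u ∈ s - v`), so the two sums over `{pr w v = 0}` add up to the sum over all `w`. All sums are finite
(`FinSupp`). Second variable: `KK_swap`.
-/

set_option autoImplicit false
set_option linter.unusedSectionVars false

open Finset

namespace Pool.Agent.H65.BU

open Pool.Agent.H65.RA

variable {V W A : Type} [Fintype V] [DecidableEq V] [Group W] [Group A] {M : CoxeterMatrix V}
  {G : SimpleGraph V} {cs : CoxeterSystem M W} {p : V × Bool → A} {pr : W → V → ZMod 2}
  {g : (V → Bool) → W → A} {e : V → ℕ} {x : Finset V → ZMod 2} {k : ℕ}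

/-- a sum over the union of `C` and its image under an involution -/
private theorem sum_fold_finsum {α : Type} (σ : α → α) (hσ : Function.Involutive σ) {T : α → ZMod 2}
    (hT : (Function.support T).Finite) (C C' : α → Prop) [DecidablePred C] [DecidablePred C']
    (h1 : ∀ q, C' q ↔ C q ∨ C (σ q)) (h2 : ∀ q, C q → ¬ C (σ q)) :
    ∑ᶠ q, (if C q then T q + T (σ q) else 0) = ∑ᶠ q, if C' q then T q else 0 := by
  have hF1 : (Function.support fun q => if C q then T q else 0).Finite := by
    refine hT.subset fun q hq => ?_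
    rw [Function.mem_support] at hq ⊢
    intro h
    apply hq
    simp only [h, ite_self]
  have hF2 : (Function.support fun q => if C q then T (σ q) else 0).Finite := by
    refine (hT.preimage hσ.injective.injOn).subset fun q hq => ?_
    rw [Function.mem_support] at hq
    rw [Set.mem_preimage, Function.mem_support]
    intro h
    apply hq
    simp only [h, ite_self]
  have hF3 : (Function.support fun q => if C (σ q) then T q else 0).Finite := by
    refine hT.subset fun q hq => ?_
    rw [Function.mem_support] at hq ⊢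
    intro h
    apply hq
    simp only [h, ite_self]
  have e1 : ∑ᶠ q, (if C q then T q + T (σ q) else 0) =
      ∑ᶠ q, ((if C q then T q else 0) + (if C q then T (σ q) else 0)) := by
    refine finsum_congr fun q => ?_
    by_cases h : C q
    · rw [if_pos h, if_pos h, if_pos h]
    · rw [if_neg h, if_neg h, if_neg h, add_zero]
  have e2 : ∑ᶠ q, (if C q then T (σ q) else 0) = ∑ᶠ q, (if C (σ q) then T q else 0) := by
    rw [← finsum_comp σ hσ.bijective (g := fun q => if C (σ q) then T q else 0)]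
    refine finsum_congr fun q => ?_
    simp only [hσ q]
  rw [e1, finsum_add_distrib hF1 hF2, e2, ← finsum_add_distrib hF1 hF3]
  refine finsum_congr fun q => ?_
  by_cases h : C q
  · rw [if_pos h, if_neg (h2 q h), if_pos ((h1 q).2 (Or.inl h)), add_zero]
  · by_cases h' : C (σ q)
    · rw [if_neg h, if_pos h', if_pos ((h1 q).2 (Or.inr h')), zero_add]
    · rw [if_neg h, if_neg h', if_neg (fun hc => ((h1 q).1 hc).elim h h'), add_zero]

/-- the term of the pair `q` -/
private noncomputable def trm (G : SimpleGraph V) (cs : CoxeterSystem M W) (e : V → ℕ)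
    (x : Finset V → ZMod 2) (k : ℕ) (φ : Cub V W → Cub V W → ZMod 2) (s t : Finset V)
    (q : W × W) : ZMod 2 :=
  Ps G e x k (fun a b => φ (q.1, s, a) (q.2, t, b)) (FH cs q.1 s) (FH cs q.2 t)

private theorem trm_support {φ : Cub V W → Cub V W → ZMod 2} (h : FinSupp φ) (s t : Finset V) :
    (Function.support (trm G cs e x k φ s t)).Finite := by
  refine Set.Finite.subset h fun q hq => ?_
  by_contra hn
  apply hq
  have h0 : (fun a b => φ (q.1, s, a) (q.2, t, b)) = fun _ _ => (0 : ZMod 2) := by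
    funext a b
    by_contra h1
    exact hn ⟨s, a, t, b, h1⟩
  unfold trm
  rw [h0, Ps_zero]

private theorem ite_support {α : Type} {T : α → ZMod 2} (h : (Function.support T).Finite)
    (C : α → Prop) [DecidablePred C] : (Function.support fun q => if C q then T q else 0).Finite := by
  refine h.subset fun q hq => ?_
  rw [Function.mem_support] at hq ⊢
  intro h0
  apply hq
  simp only [h0, ite_self]

theorem KK_congr {φ φ' : Cub V W → Cub V W → ZMod 2} {s t : Finset V}
    (hs : G.IsClique (s : Set V)) (ht : G.IsClique (t : Set V))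
    (h : ∀ w w' a b, Ok G cs pr (w, s, a) (w', t, b) → φ (w, s, a) (w', t, b) = φ' (w, s, a) (w', t, b)) :
    KK G cs pr e x k φ s t = KK G cs pr e x k φ' s t := by
  unfold KK
  refine finsum_congr fun q => ?_
  by_cases hq : (∀ v ∈ s, pr q.1 v = 0) ∧ (∀ v ∈ t, pr q.2 v = 0)
  · rw [if_pos hq, if_pos hq]
    refine Ps_congr e x k fun α β hd => h q.1 q.2 _ _ ?_
    exact ⟨⟨hs, hq.1, α, rfl⟩, ⟨ht, hq.2, β, rfl⟩, hd⟩
  · rw [if_neg hq, if_neg hq]

theorem KK_add {φ φ' : Cub V W → Cub V W → ZMod 2} (h : FinSupp φ) (h' : FinSupp φ') (s t : Finset V) :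
    KK G cs pr e x k (fun c c' => φ c c' + φ' c c') s t =
      KK G cs pr e x k φ s t + KK G cs pr e x k φ' s t := by
  have hf := trm_support (G := G) (cs := cs) (e := e) (x := x) (k := k) h s t
  have hf' := trm_support (G := G) (cs := cs) (e := e) (x := x) (k := k) h' s t
  unfold KK
  unfold trm at hf hf'
  rw [← finsum_add_distrib (ite_support hf _) (ite_support hf' _)]
  refine finsum_congr fun q => ?_
  by_cases hq : (∀ v ∈ s, pr q.1 v = 0) ∧ (∀ v ∈ t, pr q.2 v = 0)
  · rw [if_pos hq, if_pos hq, if_pos hq, Ps_add]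
  · rw [if_neg hq, if_neg hq, if_neg hq, add_zero]

theorem KK_swap (he : Function.Injective e)
    (hx : ∀ D : Finset V, G.IsClique (D : Set V) → D.card = k + 2 → ∑ v ∈ D, x (D.erase v) = 0)
    (φ : Cub V W → Cub V W → ZMod 2) (s t : Finset V) :
    KK G cs pr e x k (fun c c' => φ c' c) s t = KK G cs pr e x k φ t s := by
  unfold KK
  refine Eq.trans ?_ (finsum_comp_equiv (Equiv.prodComm W W)
    (f := fun q : W × W => if (∀ v ∈ t, pr q.1 v = 0) ∧ (∀ v ∈ s, pr q.2 v = 0) then
      Ps G e x k (fun a b => φ (q.1, t, a) (q.2, s, b)) (FH cs q.1 t) (FH cs q.2 s) else 0))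
  refine finsum_congr fun q => ?_
  simp only [Equiv.prodComm_apply, Prod.fst_swap, Prod.snd_swap]
  by_cases hq : (∀ v ∈ s, pr q.1 v = 0) ∧ (∀ v ∈ t, pr q.2 v = 0)
  · rw [if_pos hq, if_pos hq.symm]
    exact Ps_swap e x k he hx (fun a b => φ (q.2, t, b) (q.1, s, a)) (FH cs q.1 s) (FH cs q.2 t)
  · rw [if_neg hq, if_neg (fun h => hq h.symm)]

/-- the part of the coboundary in the first variable -/
private noncomputable def dlA (cs : CoxeterSystem M W) (φ : Cub V W → Cub V W → ZMod 2)
    (c c' : Cub V W) : ZMod 2 :=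
  ∑ v ∈ c.2.1, (φ (fa cs c v) c' + φ (fb cs c v) c')

private theorem dl_eq (cs : CoxeterSystem M W) (φ : Cub V W → Cub V W → ZMod 2) :
    dl cs φ = fun c c' => dlA cs φ c c' + dlA cs (fun a b => φ b a) c' c := rfl

private theorem finSupp_swap {φ : Cub V W → Cub V W → ZMod 2} (h : FinSupp φ) :
    FinSupp (fun c c' => φ c' c) := by
  have h1 : {q : W × W | ∃ s a t b, φ (q.1, s, a) (q.2, t, b) ≠ 0}.Finite := h
  refine (h1.preimage (Prod.swap_injective.injOn (s := _))).subset ?_
  rintro q ⟨s, a, t, b, hq⟩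
  exact ⟨t, b, s, a, hq⟩

private theorem finSupp_add {φ φ' : Cub V W → Cub V W → ZMod 2} (h : FinSupp φ)
    (h' : FinSupp φ') : FinSupp (fun c c' => φ c c' + φ' c c') := by
  refine (Set.Finite.union h h').subset ?_
  rintro q ⟨s, a, t, b, hq⟩
  by_cases h0 : φ (q.1, s, a) (q.2, t, b) = 0
  · right
    refine ⟨s, a, t, b, fun h1 => hq ?_⟩
    simp only [h0, h1, add_zero]
  · exact Or.inl ⟨s, a, t, b, h0⟩

private theorem finSupp_dlA {φ : Cub V W → Cub V W → ZMod 2} (h : FinSupp φ) :
    FinSupp (dlA cs φ) := by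
  have h1 : {q : W × W | ∃ s a t b, φ (q.1, s, a) (q.2, t, b) ≠ 0}.Finite := h
  have h2 : ∀ v : V, ((fun q : W × W => (q.1 * cs.simple v, q.2)) ⁻¹'
      {q : W × W | ∃ s a t b, φ (q.1, s, a) (q.2, t, b) ≠ 0}).Finite := by
    intro v
    refine h1.preimage (Function.Injective.injOn ?_)
    rintro ⟨a, b⟩ ⟨a', b'⟩ hab
    rw [Prod.mk.injEq] at hab ⊢
    exact ⟨mul_right_cancel hab.1, hab.2⟩
  refine (h1.union (Set.finite_iUnion h2)).subset ?_
  rintro q ⟨s, a, t, b, hq⟩
  obtain ⟨v, _, hv⟩ := Finset.exists_ne_zero_of_sum_ne_zero hq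
  by_cases h0 : φ (fa cs (q.1, s, a) v) (q.2, t, b) = 0
  · right
    rw [Set.mem_iUnion]
    refine ⟨v, ?_⟩
    rw [h0, zero_add] at hv
    exact ⟨_, _, t, b, hv⟩
  · left
    exact ⟨_, _, t, b, h0⟩

theorem finSupp_dl {φ : Cub V W → Cub V W → ZMod 2} (h : FinSupp φ) : FinSupp (dl cs φ) := by
  rw [dl_eq]
  exact finSupp_add (finSupp_dlA h) (finSupp_swap (finSupp_dlA (finSupp_swap h)))

/-- the term of a face -/
private theorem Ps_fa (hF : Facts G cs) (hg : Apts cs pr p g) {s t : Finset V}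
    (hs : G.IsClique (s : Set V)) (ht : G.IsClique (t : Set V)) (φ : Cub V W → Cub V W → ZMod 2)
    {q : W × W} (hq1 : ∀ v ∈ s, pr q.1 v = 0) (hq2 : ∀ v ∈ t, pr q.2 v = 0) {v : V} (hv : v ∈ s) :
    Ps G e x k (fun a b => φ (fa cs (q.1, s, a) v) (q.2, t, b)) (FH cs q.1 s) (FH cs q.2 t) =
      trm G cs e x k φ (s.erase v) t q := by
  unfold trm
  have hX := FH_clique hF hg hs hq1
  have hY := FH_clique hF hg ht hq2
  rcases FH_a (cs := cs) q.1 hv with h | ⟨h, hvX, _, _⟩
  · rw [h]
    refine Ps_congr e x k fun α β _ => ?_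
    have h1 : fa cs (q.1, s, sgn (FH cs q.1 s) α) v =
        (q.1, s.erase v, sgn (FH cs q.1 s) α) := by
      unfold fa
      simp only
      rw [h, res_sgn (Finset.Subset.refl _)]
    rw [h1]
  · have h2 := Ps_forget (G := G) e x k hX hY hvX
      (fun a b => φ (q.1, s.erase v, a) (q.2, t, b))
    rw [← h] at h2
    exact h2

/-- the term of an opposite face -/
private theorem Ps_fb (hF : Facts G cs) (hg : Apts cs pr p g) {s t : Finset V}
    (hs : G.IsClique (s : Set V)) (φ : Cub V W → Cub V W → ZMod 2)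
    {q : W × W} (hq1 : ∀ v ∈ s, pr q.1 v = 0) {v : V} (hv : v ∈ s) :
    Ps G e x k (fun a b => φ (fb cs (q.1, s, a) v) (q.2, t, b)) (FH cs q.1 s) (FH cs q.2 t) =
      trm G cs e x k φ (s.erase v) t (q.1 * cs.simple v, q.2) := by
  unfold trm
  have h := FH_b hF hg hs hq1 hv
  simp only
  rw [h]
  refine Ps_congr e x k fun α β _ => ?_
  have h1 : fb cs (q.1, s, sgn (FH cs q.1 s) α) v =
      (q.1 * cs.simple v, s.erase v, sgn (FH cs q.1 s) α) := by
    unfold fb
    simp only
    rw [h, res_sgn (Finset.Subset.refl _)]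
  rw [h1]

private theorem KK_dlA (hF : Facts G cs) (hg : Apts cs pr p g)
    {φ : Cub V W → Cub V W → ZMod 2} (hφ : FinSupp φ) {s t : Finset V}
    (hs : G.IsClique (s : Set V)) (ht : G.IsClique (t : Set V)) :
    KK G cs pr e x k (dlA cs φ) s t = ∑ v ∈ s, KK G cs pr e x k φ (s.erase v) t := by
  classical
  have hfin : ∀ v, (Function.support (trm G cs e x k φ (s.erase v) t)).Finite :=
    fun v => trm_support hφ (s.erase v) t
  have hinv : ∀ v, Function.Involutive fun q : W × W => (q.1 * cs.simple v, q.2) := by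
    rintro v ⟨a, b⟩
    simp only [cs.simple_mul_simple_cancel_right]
  -- the sum of the terms
  have e1 : KK G cs pr e x k (dlA cs φ) s t =
      ∑ᶠ q : W × W, ∑ v ∈ s, (if (∀ u ∈ s, pr q.1 u = 0) ∧ (∀ u ∈ t, pr q.2 u = 0) then
        trm G cs e x k φ (s.erase v) t q +
          trm G cs e x k φ (s.erase v) t (q.1 * cs.simple v, q.2) else 0) := by
    unfold KK
    refine finsum_congr fun q => ?_
    by_cases hq : (∀ u ∈ s, pr q.1 u = 0) ∧ (∀ u ∈ t, pr q.2 u = 0)
    · rw [if_pos hq]
      have e2 : ∀ v ∈ s, (if (∀ u ∈ s, pr q.1 u = 0) ∧ (∀ u ∈ t, pr q.2 u = 0) then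
          trm G cs e x k φ (s.erase v) t q +
          trm G cs e x k φ (s.erase v) t (q.1 * cs.simple v, q.2) else 0) =
          Ps G e x k (fun a b => φ (fa cs (q.1, s, a) v) (q.2, t, b) +
            φ (fb cs (q.1, s, a) v) (q.2, t, b)) (FH cs q.1 s) (FH cs q.2 t) := by
        intro v hv
        rw [if_pos hq, Ps_add, Ps_fa hF hg hs ht φ hq.1 hq.2 hv, Ps_fb hF hg hs φ hq.1 hv]
      rw [sum_congr rfl e2, ← Ps_sum]
      rfl
    · rw [if_neg hq]
      symm
      exact sum_eq_zero fun v _ => if_neg hq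
  have hfin2 : ∀ v ∈ s, (Function.support fun q : W × W =>
      (if (∀ u ∈ s, pr q.1 u = 0) ∧ (∀ u ∈ t, pr q.2 u = 0) then
        trm G cs e x k φ (s.erase v) t q +
          trm G cs e x k φ (s.erase v) t (q.1 * cs.simple v, q.2) else 0)).Finite := by
    intro v _
    have h1 := (hfin v).union ((hfin v).preimage ((hinv v).injective.injOn (s := _)))
    refine ite_support (h1.subset fun q hq => ?_) _
    by_cases h0 : trm G cs e x k φ (s.erase v) t q = 0
    · right
      rw [Function.mem_support, h0, zero_add] at hq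
      exact hq
    · exact Or.inl h0
  rw [e1, finsum_sum_comm s _ hfin2]
  refine sum_congr rfl fun v hv => ?_
  unfold KK
  refine sum_fold_finsum (fun q : W × W => (q.1 * cs.simple v, q.2)) (hinv v)
    (T := trm G cs e x k φ (s.erase v) t) (hfin v)
    (fun q => (∀ u ∈ s, pr q.1 u = 0) ∧ (∀ u ∈ t, pr q.2 u = 0))
    (fun q => (∀ u ∈ s.erase v, pr q.1 u = 0) ∧ (∀ u ∈ t, pr q.2 u = 0)) ?_ ?_
  · intro q
    have hC : ∀ w : W, (∀ u ∈ s, pr w u = 0) ↔ pr w v = 0 ∧ ∀ u ∈ s.erase v, pr w u = 0 := by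
      intro w
      constructor
      · intro h
        exact ⟨h v hv, fun u hu => h u (mem_of_mem_erase hu)⟩
      · rintro ⟨h1, h2⟩ u hu
        by_cases huv : u = v
        · rw [huv, h1]
        · exact h2 u (mem_erase.2 ⟨huv, hu⟩)
    have hE : (∀ u ∈ s.erase v, pr (q.1 * cs.simple v) u = 0) ↔ ∀ u ∈ s.erase v, pr q.1 u = 0 := by
      refine forall₂_congr fun u hu => ?_
      rw [hg.pr_mul, if_neg (ne_of_mem_erase hu), add_zero]
    have hv1 : pr (q.1 * cs.simple v) v = pr q.1 v + 1 := by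
      rw [hg.pr_mul, if_pos rfl]
    have hz : ∀ c : ZMod 2, c = 0 ∨ c + 1 = 0 := by decide
    simp only [hC, hE, hv1]
    have := hz (pr q.1 v)
    tauto
  · rintro q ⟨h1, _⟩ ⟨h2, _⟩
    have h3 := h2 v hv
    simp only at h3
    rw [hg.pr_mul, if_pos rfl, h1 v hv] at h3
    exact absurd h3 (by decide)

/-- **The boundary of the sum over all pairs of cubes.** -/
theorem KK_dl (hF : Facts G cs) (hg : Apts cs pr p g) (he : Function.Injective e)
    (hx : ∀ D : Finset V, G.IsClique (D : Set V) → D.card = k + 2 → ∑ v ∈ D, x (D.erase v) = 0)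
    {φ : Cub V W → Cub V W → ZMod 2} (hφ : FinSupp φ) {s t : Finset V}
    (hs : G.IsClique (s : Set V)) (ht : G.IsClique (t : Set V)) :
    KK G cs pr e x k (dl cs φ) s t =
      ∑ v ∈ s, KK G cs pr e x k φ (s.erase v) t + ∑ v ∈ t, KK G cs pr e x k φ s (t.erase v) := by
  have hφ' := finSupp_swap hφ
  rw [dl_eq, KK_add (finSupp_dlA hφ) (finSupp_swap (finSupp_dlA hφ')), KK_dlA hF hg hφ hs ht,
    KK_swap he hx (dlA cs fun a b => φ b a) s t, KK_dlA hF hg hφ' ht hs]
  congr 1
  refine sum_congr rfl fun v _ => ?_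
  exact KK_swap he hx φ (t.erase v) s

end Pool.Agent.H65.BU
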