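import Pool.Agent.H65.BU.Cox
import Pool.Agent.H65.BU.Half
import Pool.Agent.H65.BU.Sum
import Pool.Agent.H65.BU.Eval
import Pool.Agent.H65.RM.Int
import Pool.Agent.H75.Oct.Pair

/-!
# Project BU: the main theorem, abstract form

PROOF: `hz_of_pairing G (k + 1)`; `exists_inter (oct G) p`; `exists_apts`; `exists_hh`; `D = hh + AA (nu e)`;
`exists_half` for `m = 2 k + 2`: there `hh = 0`, so `AA = dl d + (d' + d'ᵀ)` on the Ok pairs of total degree
`2 k + 2`. Sum `z s z t KK(…) s t`: `KK_congr`, `KK_add`, `KK_dl`, `KK_swap`; the cycle condition kills the first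
part, symmetry the second, `KK_AA`, `pair_ev`.
-/

set_option autoImplicit false

open Finset

namespace Pool.Agent.H65.BU

open Pool.Agent.H65.RA Pool.Agent.H65.RM Pool.Agent.H37.TM Pool.Agent.H85.VK

/-- the sum against a cycle of a sum over faces vanishes -/
theorem sum_cycle {V : Type} [Fintype V] [DecidableEq V] (z : Finset V → ZMod 2)
    (hdz : ∀ s, ∑ v ∈ sᶜ, z (insert v s) = 0) (f : Finset V → ZMod 2) :
    ∑ s : Finset V, z s * ∑ v ∈ s, f (s.erase v) = 0 := by
  have h2 : ∑ s : Finset V, z s * ∑ v ∈ s, f (s.erase v) =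
      ∑ ρ : Finset V, (∑ v ∈ ρᶜ, z (insert v ρ)) * f ρ := by
    simp only [mul_sum, sum_mul]
    rw [sum_sigma', sum_sigma']
    refine sum_bij' (fun p _ => ⟨p.1.erase p.2, p.2⟩) (fun p _ => ⟨insert p.2 p.1, p.2⟩)
      ?_ ?_ ?_ ?_ ?_
    · rintro ⟨σ, v⟩ _
      simp
    · rintro ⟨ρ, v⟩ _
      simp
    · rintro ⟨σ, v⟩ h
      simp only [mem_sigma, mem_univ, true_and] at h
      simp only [insert_erase h]
    · rintro ⟨ρ, v⟩ h
      simp only [mem_sigma, mem_univ, true_and, mem_compl] at h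
      simp only [erase_insert h]
    · rintro ⟨σ, v⟩ h
      simp only [mem_sigma, mem_univ, true_and] at h
      simp only [insert_erase h]
  rw [h2]
  exact sum_eq_zero fun ρ _ => by rw [hdz, zero_mul]

/-- the double sum of a boundary and of a symmetric function against a cycle vanishes -/
theorem double_sum {V : Type} [Fintype V] [DecidableEq V] (z : Finset V → ZMod 2)
    (hdz : ∀ s, ∑ v ∈ sᶜ, z (insert v s) = 0) (a b : Finset V → Finset V → ZMod 2) :
    ∑ s : Finset V, ∑ t : Finset V, z s * z t *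
      ((∑ v ∈ s, a (s.erase v) t + ∑ v ∈ t, a s (t.erase v)) + (b s t + b t s)) = 0 := by
  have h1 : ∑ s : Finset V, ∑ t : Finset V, z s * z t * ∑ v ∈ s, a (s.erase v) t = 0 := by
    rw [sum_comm]
    refine sum_eq_zero fun t _ => ?_
    have h2 := congrArg (fun c => z t * c) (sum_cycle z hdz fun s => a s t)
    simp only [mul_zero] at h2
    rw [mul_sum] at h2
    rw [← h2]
    exact sum_congr rfl fun s _ => by ring
  have h3 : ∑ s : Finset V, ∑ t : Finset V, z s * z t * ∑ v ∈ t, a s (t.erase v) = 0 := by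
    refine sum_eq_zero fun s _ => ?_
    have h2 := congrArg (fun c => z s * c) (sum_cycle z hdz fun t => a s t)
    simp only [mul_zero] at h2
    rw [mul_sum] at h2
    rw [← h2]
    exact sum_congr rfl fun t _ => by ring
  have h4 : ∑ s : Finset V, ∑ t : Finset V, z s * z t * b t s =
      ∑ s : Finset V, ∑ t : Finset V, z s * z t * b s t := by
    rw [sum_comm]
    exact sum_congr rfl fun s _ => sum_congr rfl fun t _ => by ring
  have h5 : ∑ s : Finset V, ∑ t : Finset V, z s * z t *
      ((∑ v ∈ s, a (s.erase v) t + ∑ v ∈ t, a s (t.erase v)) + (b s t + b t s)) =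
      ((∑ s : Finset V, ∑ t : Finset V, z s * z t * ∑ v ∈ s, a (s.erase v) t) +
        ∑ s : Finset V, ∑ t : Finset V, z s * z t * ∑ v ∈ t, a s (t.erase v)) +
      ((∑ s : Finset V, ∑ t : Finset V, z s * z t * b s t) +
        ∑ s : Finset V, ∑ t : Finset V, z s * z t * b t s) := by
    simp only [← sum_add_distrib]
    exact sum_congr rfl fun s _ => sum_congr rfl fun t _ => by ring
  rw [h5, h1, h3, h4, add_zero, zero_add]
  exact ZModModule.add_self _

/-- **The main theorem, from intersection numbers.** -/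
theorem hz_of_inter {V W A : Type} [Fintype V] [DecidableEq V] [Group W] [Group A]
    {M : CoxeterMatrix V} {G : SimpleGraph V} (hM : RA G M) (cs : CoxeterSystem M W)
    (p : V × Bool → A) (hp : ∀ x y, (oct G).Adj x y → p x * p y = p y * p x)
    (hsep : ∀ (pr : W → V → ZMod 2) (g : (V → Bool) → W → A), Apts cs pr p g → Sep cs g)
    {n k : ℕ} {H : A → Finset (V × Bool) → A → Finset (V × Bool) → ZMod 2}
    (hH : Inter (oct G) p n H) (hn : n ≤ 2 * k + 1) : HZ G (k + 1) := by
  have hF := facts_of_ra hM cs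
  obtain ⟨pr, g, hg⟩ := exists_apts hM cs p hp
  obtain ⟨φ, hφ1, hφ2, hφ3, hφ4⟩ := exists_hh hF hg (hsep pr g hg) hH
  refine Pool.Agent.H75.Oct.hz_of_pairing G (k + 1) fun x z hx hz hdz => ?_
  let e : V → ℕ := fun v => (Fintype.equivFin V v : ℕ)
  have he : Function.Injective e := fun a b hab =>
    (Fintype.equivFin V).injective (Fin.ext hab)
  have hν := nu_inj he
  have hD1 : ∀ c c', Ok G cs pr c c' → dl cs (fun c c' => φ c c' + AA (nu e) c c') c c' =
      (φ c c' + AA (nu e) c c') + (φ c' c + AA (nu e) c' c) := by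
    intro c c' h
    have h1 : dl cs (fun c c' => φ c c' + AA (nu e) c c') c c' =
        dl cs φ c c' + dl cs (AA (nu e)) c c' := by
      unfold dl
      simp only [sum_add_distrib]
      ring
    rw [h1, hφ1 c c' h, AA_rel hF hg hν c c' h]
    ring
  have hD2 : φ (b0 V W) (b0 V W) + AA (nu e) (b0 V W) (b0 V W) = 0 := by
    rw [hφ2, AA_b0]
    decide
  have hD3 : FinSupp (fun c c' : Cub V W => φ c c' + AA (nu e) c c') := by
    refine (hφ4.union (AA_fin (nu e))).subset ?_
    rintro q ⟨s, a, t, b, h⟩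
    by_cases h1 : φ (q.1, s, a) (q.2, t, b) = 0
    · refine Or.inr ⟨s, a, t, b, fun h2 => h ?_⟩
      beta_reduce
      rw [h1, h2, add_zero]
    · exact Or.inl ⟨s, a, t, b, h1⟩
  obtain ⟨d, d', hd, hd', hdd⟩ := exists_half hF hg _ hD1 hD2 hD3 (2 * k + 2)
  have key : ∀ s t : Finset V, z s ≠ 0 → z t ≠ 0 → Ps G e x k (eP (nu e)) s t =
      (∑ v ∈ s, KK G cs pr e x k d (s.erase v) t + ∑ v ∈ t, KK G cs pr e x k d s (t.erase v)) +
      (KK G cs pr e x k d' s t + KK G cs pr e x k d' t s) := by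
    intro s t hs ht
    obtain ⟨h1, h2⟩ := hz s hs
    obtain ⟨h3, h4⟩ := hz t ht
    have hd'' : FinSupp (fun c c' : Cub V W => d' c' c) := by
      refine (hd'.image Prod.swap).subset ?_
      rintro q ⟨s, a, t, b, h⟩
      exact ⟨q.swap, ⟨t, b, s, a, h⟩, Prod.swap_swap q⟩
    have hds : FinSupp (fun c c' : Cub V W => d' c c' + d' c' c) := by
      refine (hd'.union hd'').subset ?_
      rintro q ⟨s, a, t, b, h⟩
      by_cases h1 : d' (q.1, s, a) (q.2, t, b) = 0
      · refine Or.inr ⟨s, a, t, b, fun h2 => h ?_⟩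
        beta_reduce at h2 ⊢
        rw [h1, h2, add_zero]
      · exact Or.inl ⟨s, a, t, b, h1⟩
    rw [← KK_AA hg (nu e) s t, ← KK_dl hF hg he hx hd h1 h3, ← KK_swap he hx d' s t,
      ← KK_add hd' hd'' s t, ← KK_add (finSupp_dl hd) hds s t]
    refine KK_congr h1 h3 fun w w' a b hok => ?_
    have h5 := hdd _ _ hok (by
      show s.card + t.card = 2 * k + 2
      omega)
    have h6 : φ (w, s, a) (w', t, b) = 0 := hφ3 _ _ (by
      show n < s.card + t.card
      omega)
    beta_reduce at h5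
    rw [h6, zero_add] at h5
    exact h5
  have h7 := pair_ev he hx z hz
  have h8 : ∑ s : Finset V, ∑ t : Finset V, z s * z t * Ps G e x k (eP (nu e)) s t =
      ∑ s : Finset V, ∑ t : Finset V, z s * z t *
      ((∑ v ∈ s, KK G cs pr e x k d (s.erase v) t + ∑ v ∈ t, KK G cs pr e x k d s (t.erase v)) +
      (KK G cs pr e x k d' s t + KK G cs pr e x k d' t s)) := by
    refine sum_congr rfl fun s _ => sum_congr rfl fun t _ => ?_
    by_cases hs : z s = 0
    · rw [hs, zero_mul, zero_mul, zero_mul]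
    · by_cases ht : z t = 0
      · rw [ht, mul_zero, zero_mul, zero_mul]
      · rw [key s t hs ht]
  rw [← h7, h8]
  exact double_sum z hdz (fun s t => KK G cs pr e x k d s t) fun s t => KK G cs pr e x k d' s t

theorem hz_of_sep {V W A U : Type} [Fintype V] [DecidableEq V] [Group W] [Group A] [DecidableEq U]
    [MulAction A U] {M : CoxeterMatrix V} {G : SimpleGraph V} (hM : RA G M) (cs : CoxeterSystem M W)
    (p : V × Bool → A) (hp : ∀ x y, (oct G).Adj x y → p x * p y = p y * p x)
    (hsep : ∀ (pr : W → V → ZMod 2) (g : (V → Bool) → W → A), Apts cs pr p g → Sep cs g)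
    {K B : Set (Finset U)} {n k : ℕ} (hMf : Mfd K B n) (hK : Acyc K) (hA : PAct A K B)
    (hn : n ≤ 2 * k + 1) : HZ G (k + 1) := by
  obtain ⟨H, hH⟩ := exists_inter (oct G) p hp hMf hK hA
  exact hz_of_inter hM cs p hp hsep hH hn

end Pool.Agent.H65.BU
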