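import Pool.Agent.H65.BU.Defs

/-!
# Project BU: coherence of the polynomials `Ps`

PROOF of `Ps_forget`: `res (σ.erase v) (sgn σ b) = sgn (σ.erase v) b`; then this is `step_in` / `step_out` of
`H65/RA/Psi.lean` (private there: copy the two lemmas).
-/

set_option autoImplicit false
set_option linter.unusedSectionVars false

open Finset

namespace Pool.Agent.H65.BU

open Pool.Agent.H65.RA

variable {V : Type} [DecidableEq V]

theorem res_sgn {X σ : Finset V} (h : X ⊆ σ) (b : V → Bool) : res X (sgn σ b) = sgn X b := by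
  ext q
  unfold res
  rw [mem_filter, mem_sgn, mem_sgn]
  constructor
  · rintro ⟨⟨-, h2⟩, h3⟩
    exact ⟨h3, h2⟩
  · rintro ⟨h1, h2⟩
    exact ⟨⟨h h1, h2⟩, h1⟩

variable {G : SimpleGraph V} (e : V → ℕ) (x : Finset V → ZMod 2) (k : ℕ)

private theorem step_out {σ τ : Finset V} {v : V} (hvτ : v ∉ τ)
    (g : Finset (V × Bool) → Finset (V × Bool) → ZMod 2) :
    ∑ S ∈ bet G σ τ, ∑ A ∈ S.powerset,
      FS e x k S (ep σ τ A) * g (sgn (σ.erase v) (sA S A)) (sgn τ (sB A)) =
    Ps G e x k g (σ.erase v) τ := by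
  unfold Ps
  have hsub : bet G (σ.erase v) τ ⊆ bet G σ τ := by
    intro S hS
    rw [mem_bet] at hS ⊢
    refine ⟨hS.1.trans (union_subset_union (erase_subset v σ) (Subset.refl τ)), ?_, hS.2.2⟩
    intro u hu
    rw [mem_inter] at hu
    refine hS.2.1 (mem_inter.2 ⟨mem_erase.2 ⟨fun h => hvτ (h ▸ hu.2), hu.1⟩, hu.2⟩)
  rw [← sum_subset hsub]
  · refine sum_congr rfl fun S hS => sum_congr rfl fun A _ => ?_
    congr 1
    refine FS_congr e x k fun u hu => ?_
    have huv : u ≠ v := by
      intro h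
      rw [mem_bet] at hS
      have h1 := hS.1 hu
      rw [mem_union, mem_erase] at h1
      rcases h1 with h1 | h1
      · exact h1.1 h
      · exact hvτ (h ▸ h1)
    unfold ep
    simp only [mem_union, mem_inter, mem_sdiff, mem_erase]
    tauto
  · intro S hS hS'
    have hvS : v ∈ S := by
      by_contra h
      apply hS'
      rw [mem_bet] at hS ⊢
      refine ⟨fun u hu => ?_, fun u hu => ?_, hS.2.2⟩
      · have huv : u ≠ v := fun h' => h (h' ▸ hu)
        have h1 := hS.1 hu
        rw [mem_union] at h1 ⊢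
        rw [mem_erase]
        tauto
      · rw [mem_inter] at hu
        exact hS.2.1 (mem_inter.2 ⟨mem_of_mem_erase hu.1, hu.2⟩)
    obtain ⟨S', hvS', rfl⟩ : ∃ S', v ∉ S' ∧ S = insert v S' :=
      ⟨S.erase v, notMem_erase v S, (insert_erase hvS).symm⟩
    rw [sum_powerset_insert hvS', ← sum_add_distrib]
    refine sum_eq_zero fun A hA => ?_
    rw [mem_powerset] at hA
    have hvA : v ∉ A := fun h => hvS' (hA h)
    have h1 : FS e x k (insert v S') (ep σ τ (insert v A)) =
        FS e x k (insert v S') (ep σ τ A) := by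
      refine FS_congr e x k fun u _ => ?_
      unfold ep
      simp only [mem_union, mem_inter, mem_sdiff, mem_insert]
      constructor
      · rintro (⟨h2 | h2, h3, h4⟩ | h2)
        · exact absurd (h2 ▸ h4) hvτ
        · exact Or.inl ⟨h2, h3, h4⟩
        · exact Or.inr h2
      · rintro (⟨h2, h3, h4⟩ | h2)
        · exact Or.inl ⟨Or.inr h2, h3, h4⟩
        · exact Or.inr h2
    have h2 : sgn (σ.erase v) (sA (insert v S') (insert v A)) =
        sgn (σ.erase v) (sA (insert v S') A) := by
      refine sgn_congr fun u hu => ?_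
      unfold sA
      rw [decide_eq_decide, mem_insert]
      have := ne_of_mem_erase hu
      tauto
    have h3 : sgn τ (sB (insert v A)) = sgn τ (sB A) := by
      refine sgn_congr fun u hu => ?_
      unfold sB
      rw [decide_eq_decide, mem_insert]
      have : u ≠ v := fun h => hvτ (h ▸ hu)
      tauto
    rw [h1, h2, h3]
    exact z2_add_self _

private theorem step_in {σ τ : Finset V} (hσ : G.IsClique (σ : Set V))
    (hτ : G.IsClique (τ : Set V)) {v : V} (hvσ : v ∈ σ) (hvτ : v ∈ τ)
    (g : Finset (V × Bool) → Finset (V × Bool) → ZMod 2) :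
    ∑ S ∈ bet G σ τ, ∑ A ∈ S.powerset,
      FS e x k S (ep σ τ A) * g (sgn (σ.erase v) (sA S A)) (sgn τ (sB A)) =
    Ps G e x k g (σ.erase v) τ := by
  classical
  have hU : σ.erase v ∪ τ = σ ∪ τ := by
    ext u
    simp only [mem_union, mem_erase]
    constructor
    · rintro (⟨_, h⟩ | h)
      · exact Or.inl h
      · exact Or.inr h
    · rintro (h | h)
      · by_cases huv : u = v
        · exact Or.inr (huv ▸ hvτ)
        · exact Or.inl ⟨huv, h⟩
      · exact Or.inr h
  have hmem1 : ∀ S, S ∈ bet G σ τ ↔ S ∈ (bet G (σ.erase v) τ).filter (v ∈ ·) := by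
    intro S
    rw [mem_filter, mem_bet, mem_bet, hU]
    constructor
    · rintro ⟨h1, h2, h3⟩
      refine ⟨⟨h1, fun u hu => h2 ?_, h3⟩, h2 (mem_inter.2 ⟨hvσ, hvτ⟩)⟩
      rw [mem_inter] at hu ⊢
      exact ⟨mem_of_mem_erase hu.1, hu.2⟩
    · rintro ⟨⟨h1, h2, h3⟩, h4⟩
      refine ⟨h1, fun u hu => ?_, h3⟩
      by_cases huv : u = v
      · rwa [huv]
      · rw [mem_inter] at hu
        exact h2 (mem_inter.2 ⟨mem_erase.2 ⟨huv, hu.1⟩, hu.2⟩)
  have hmem : bet G σ τ = (bet G (σ.erase v) τ).filter (v ∈ ·) := by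
    ext S
    exact hmem1 S
  unfold Ps
  rw [← sum_filter_add_sum_filter_not (bet G (σ.erase v) τ) (v ∈ ·), ← hmem]
  have h2 : ∑ S ∈ (bet G (σ.erase v) τ).filter (fun S => ¬ v ∈ S), ∑ A ∈ S.powerset,
      FS e x k S (ep (σ.erase v) τ A) * g (sgn (σ.erase v) (sA S A)) (sgn τ (sB A)) =
      ∑ S ∈ bet G σ τ, ∑ A ∈ (S.erase v).powerset,
      FS e x k (S.erase v) (ep (σ.erase v) τ A) *
        g (sgn (σ.erase v) (sA (S.erase v) A)) (sgn τ (sB A)) := by
    refine sum_nbij' (fun S => insert v S) (fun S => S.erase v) ?_ ?_ ?_ ?_ ?_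
    · intro S hS
      rw [mem_filter, mem_bet, hU] at hS
      obtain ⟨⟨h1, h2, h3⟩, h4⟩ := hS
      rw [mem_bet]
      refine ⟨insert_subset (mem_union_left _ hvσ) h1, fun u hu => ?_,
        clique_insert hσ hτ hvσ hvτ h1 h3⟩
      by_cases huv : u = v
      · rw [huv]
        exact mem_insert_self v S
      · rw [mem_inter] at hu
        exact mem_insert_of_mem (h2 (mem_inter.2 ⟨mem_erase.2 ⟨huv, hu.1⟩, hu.2⟩))
    · intro S hS
      rw [mem_bet] at hS
      obtain ⟨h1, h2, h3⟩ := hS
      rw [mem_filter, mem_bet, hU]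
      refine ⟨⟨(erase_subset v S).trans h1, fun u hu => ?_, fun a ha b hb hab =>
        h3 (mem_of_mem_erase ha) (mem_of_mem_erase hb) hab⟩, notMem_erase v S⟩
      rw [mem_inter, mem_erase] at hu
      exact mem_erase.2 ⟨hu.1.1, h2 (mem_inter.2 ⟨hu.1.2, hu.2⟩)⟩
    · intro S hS
      rw [mem_filter] at hS
      exact erase_insert hS.2
    · intro S hS
      rw [hmem, mem_filter] at hS
      exact insert_erase hS.2
    · intro S hS
      rw [mem_filter] at hS
      rw [erase_insert hS.2]
  rw [h2, ← sum_add_distrib]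
  refine sum_congr rfl fun S hS => ?_
  have hvS : v ∈ S := by
    rw [hmem, mem_filter] at hS
    exact hS.2
  obtain ⟨S', hvS', rfl⟩ : ∃ S', v ∉ S' ∧ S = insert v S' :=
    ⟨S.erase v, notMem_erase v S, (insert_erase hvS).symm⟩
  rw [erase_insert hvS', sum_powerset_insert hvS', sum_powerset_insert hvS',
    ← sum_add_distrib, ← sum_add_distrib, ← sum_add_distrib]
  refine sum_congr rfl fun A hA => ?_
  rw [mem_powerset] at hA
  have hvA : v ∉ A := fun h => hvS' (hA h)
  have h3 : FS e x k (insert v S') (ep σ τ (insert v A)) =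
      FS e x k (insert v S') (ep (σ.erase v) τ (insert v A)) := by
    refine FS_congr e x k fun u _ => ?_
    unfold ep
    simp only [mem_union, mem_inter, mem_sdiff, mem_insert, mem_erase]
    by_cases huv : u = v
    · subst huv
      tauto
    · tauto
  have h4 : FS e x k (insert v S') (ep (σ.erase v) τ A) =
      FS e x k (insert v S') (insert v (ep σ τ A)) := by
    refine FS_congr e x k fun u _ => ?_
    unfold ep
    simp only [mem_union, mem_inter, mem_sdiff, mem_insert, mem_erase]
    by_cases huv : u = v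
    · subst huv
      tauto
    · tauto
  have hvep : v ∉ ep σ τ A := by
    unfold ep
    simp only [mem_union, mem_inter, mem_sdiff]
    tauto
  have h5 : FS e x k S' (ep (σ.erase v) τ A) = FS e x k S' (ep σ τ A) := by
    refine FS_congr e x k fun u hu => ?_
    have huv : u ≠ v := fun h => hvS' (h ▸ hu)
    unfold ep
    simp only [mem_union, mem_inter, mem_sdiff, mem_erase]
    tauto
  have h6 := FS_toggle e x k (S := insert v S') (mem_insert_self v S') hvep
  rw [erase_insert hvS'] at h6
  have h7 : sgn (σ.erase v) (sA S' A) = sgn (σ.erase v) (sA (insert v S') A) := by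
    refine sgn_congr fun u hu => ?_
    unfold sA
    rw [decide_eq_decide, mem_insert]
    have := ne_of_mem_erase hu
    tauto
  rw [h3, h4, h5, h7, ← h6]
  have h8 := z2_add_self (FS e x k (insert v S') (insert v (ep σ τ A)) *
    g (sgn (σ.erase v) (sA (insert v S') A)) (sgn τ (sB A)))
  linear_combination -h8

/-- forget a sign in the first variable -/
theorem Ps_forget {σ τ : Finset V} (hσ : G.IsClique (σ : Set V)) (hτ : G.IsClique (τ : Set V))
    {v : V} (hv : v ∈ σ) (f : Finset (V × Bool) → Finset (V × Bool) → ZMod 2) :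
    Ps G e x k (fun a b => f (res (σ.erase v) a) b) σ τ = Ps G e x k f (σ.erase v) τ := by
  have h1 : Ps G e x k (fun a b => f (res (σ.erase v) a) b) σ τ = ∑ S ∈ bet G σ τ,
      ∑ A ∈ S.powerset, FS e x k S (ep σ τ A) * f (sgn (σ.erase v) (sA S A)) (sgn τ (sB A)) := by
    unfold Ps
    refine sum_congr rfl fun S _ => sum_congr rfl fun A _ => ?_
    beta_reduce
    rw [res_sgn (erase_subset v σ)]
  rw [h1]
  by_cases hvτ : v ∈ τ
  · exact step_in e x k hσ hτ hv hvτ f
  · exact step_out e x k hvτ f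

/-- `Ps` uses only pairs of disjoint signed simplices -/
theorem Ps_congr {f f' : Finset (V × Bool) → Finset (V × Bool) → ZMod 2} {σ τ : Finset V}
    (h : ∀ α β : V → Bool, Disjoint (sgn σ α) (sgn τ β) →
      f (sgn σ α) (sgn τ β) = f' (sgn σ α) (sgn τ β)) : Ps G e x k f σ τ = Ps G e x k f' σ τ := by
  unfold Ps
  refine sum_congr rfl fun S hS => sum_congr rfl fun A _ => ?_
  rw [h (sA S A) (sB A)]
  rw [mem_bet] at hS
  rw [Finset.disjoint_left]
  intro w hw hw'
  rw [mem_sgn] at hw hw'
  have h1 : w.1 ∈ S := hS.2.1 (mem_inter.2 ⟨hw.1, hw'.1⟩)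
  have h2 := hw.2.symm.trans hw'.2
  unfold sA sB at h2
  rw [decide_eq_decide] at h2
  tauto

theorem Ps_add (f f' : Finset (V × Bool) → Finset (V × Bool) → ZMod 2) (σ τ : Finset V) :
    Ps G e x k (fun a b => f a b + f' a b) σ τ = Ps G e x k f σ τ + Ps G e x k f' σ τ := by
  unfold Ps
  rw [← sum_add_distrib]
  refine sum_congr rfl fun S _ => ?_
  rw [← sum_add_distrib]
  exact sum_congr rfl fun A _ => mul_add _ _ _

theorem Ps_sum {ι : Type} (s : Finset ι) (f : ι → Finset (V × Bool) → Finset (V × Bool) → ZMod 2)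
    (σ τ : Finset V) : Ps G e x k (fun a b => ∑ i ∈ s, f i a b) σ τ =
      ∑ i ∈ s, Ps G e x k (f i) σ τ := by
  classical
  induction s using Finset.induction_on with
  | empty =>
    unfold Ps
    refine sum_eq_zero fun S _ => sum_eq_zero fun A _ => ?_
    beta_reduce
    rw [sum_empty, mul_zero]
  | insert a s ha ih =>
    rw [sum_insert ha, ← ih, ← Ps_add]
    refine Ps_congr e x k fun α β _ => ?_
    rw [sum_insert ha]

theorem Ps_zero (σ τ : Finset V) : Ps G e x k (fun _ _ => 0) σ τ = 0 := by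
  unfold Ps
  exact sum_eq_zero fun S _ => sum_eq_zero fun A _ => mul_zero _

end Pool.Agent.H65.BU
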