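import Pool.Agent.H65.BU.Faces
import Pool.Agent.H65.RM.Defs

/-!
# Project BU: the two functions on pairs of cubes

PROOF of `exists_hh`: `sg a v := decide ((v, false) ∉ a)`; `φ c c' := if Ok c c' then
H (g (sg a) w) (sgn s (sg a)) (g (sg b) w') (sgn t (sg b)) else 0` for `c = (w, s, a)`, `c' = (w', t, b)`.
If `a = sgn (FH w s) α` then `sg a = α` on `FH w s` and `true` elsewhere. Faces: `sgn (s.erase v) (sg a) =
(sgn s (sg a)).erase (v, sg a v)` (`erase_sgn`), `g (sg a) (w s_v) = g (sg a) w * p (v, sg a v)` (`pr w v = 0`).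
For `fa` either the signs are the same or `v` is forgotten and `g (sg a') w = g (sg a) w` by `apt_indep` (`FH_a`); for
`fb` the signs are the same (`res_fb`). Then `Inter.rel` for the cliques `sgn s (sg a)` (`clique_sgn`), `sum_sgn`.
`φ b0 b0 = H 1 ∅ 1 ∅ = 1`. `FinSupp`: `Inter.fin` and `Sep` (`fst ⊆ FH`, the signs at common letters differ since `a`, `b`
are disjoint).
PROOF of the facts on `AA`: `c.1 = c'.1 = 1`: `FH 1 s = s`, `res (s.erase v) a = a.erase (v, α v)`, the far faces have corner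
`≠ 1` (`fb_ne`), so `dl AA = dP (eP ν) a b` (`dP_eP`); otherwise all terms vanish.
-/

set_option autoImplicit false

open Finset

namespace Pool.Agent.H65.BU

open Pool.Agent.H65.RA Pool.Agent.H65.RM Pool.Agent.H85.VK

variable {V W A : Type} [Fintype V] [DecidableEq V] [Group W] [Group A] {M : CoxeterMatrix V}
  {G : SimpleGraph V} {cs : CoxeterSystem M W} {p : V × Bool → A} {pr : W → V → ZMod 2}
  {g : (V → Bool) → W → A}

/-- the signs of a set of signed letters -/
private noncomputable def sg (a : Finset (V × Bool)) (v : V) : Bool := decide ((v, false) ∉ a)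

private theorem sg_sgn {X : Finset V} {α : V → Bool} {v : V} (hv : v ∈ X) :
    sg (sgn X α) v = α v := by
  unfold sg
  by_cases h : α v = false
  · rw [h, decide_eq_false_iff_not, not_not, mem_sgn]
    exact ⟨hv, h.symm⟩
  · rw [Bool.not_eq_false] at h
    rw [h, decide_eq_true_eq, mem_sgn]
    rintro ⟨-, h'⟩
    simp only at h'
    rw [h] at h'
    exact absurd h' (by simp)

private theorem valid_sg {c : Cub V W} (h : Valid G cs pr c) :
    c.2.2 = sgn (FH cs c.1 c.2.1) (sg c.2.2) := by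
  obtain ⟨-, -, α, hα⟩ := h
  conv_lhs => rw [hα]
  apply sgn_congr
  intro v hv
  rw [hα, sg_sgn hv]

private theorem fst_mem {c : Cub V W} (h : Valid G cs pr c) {q : V × Bool} (hq : q ∈ c.2.2) :
    q.1 ∈ FH cs c.1 c.2.1 := by
  rw [valid_sg h, mem_sgn] at hq
  exact hq.1

private theorem fa_eq (hF : Facts G cs) (hg : Apts cs pr p g) {c : Cub V W}
    (h : Valid G cs pr c) {v : V} (hv : v ∈ c.2.1) :
    g (sg (fa cs c v).2.2) (fa cs c v).1 = g (sg c.2.2) c.1 ∧
      sgn (fa cs c v).2.1 (sg (fa cs c v).2.2) = (sgn c.2.1 (sg c.2.2)).erase (v, sg c.2.2 v) := by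
  rw [erase_sgn]
  rcases FH_a (cs := cs) c.1 hv with h1 | ⟨h1, -, h2, h3⟩
  · have h4 : (fa cs c v).2.2 = c.2.2 := by
      show res (FH cs c.1 (c.2.1.erase v)) c.2.2 = c.2.2
      rw [h1]
      unfold res
      exact filter_true_of_mem fun q hq => fst_mem h hq
    rw [h4]
    exact ⟨rfl, rfl⟩
  · have h4 : ∀ u, u ≠ v → sg (fa cs c v).2.2 u = sg c.2.2 u := by
      intro u hu
      unfold sg
      congr 1
      rw [eq_iff_iff, not_iff_not]
      show (u, false) ∈ res (FH cs c.1 (c.2.1.erase v)) c.2.2 ↔ _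
      rw [h1]
      unfold res
      rw [mem_filter]
      constructor
      · exact fun h' => h'.1
      · exact fun h' => ⟨h', mem_erase.2 ⟨hu, fst_mem h h'⟩⟩
    refine ⟨apt_indep hF hg h4 h3 h2, ?_⟩
    exact sgn_congr fun u hu => h4 u (mem_erase.1 hu).1

private theorem fb_eq (hF : Facts G cs) (hg : Apts cs pr p g) {c : Cub V W}
    (h : Valid G cs pr c) {v : V} (hv : v ∈ c.2.1) :
    g (sg (fb cs c v).2.2) (fb cs c v).1 = g (sg c.2.2) c.1 * p (v, sg c.2.2 v) ∧
      sgn (fb cs c v).2.1 (sg (fb cs c v).2.2) = (sgn c.2.1 (sg c.2.2)).erase (v, sg c.2.2 v) := by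
  rw [erase_sgn, res_fb hF hg h hv]
  refine ⟨?_, rfl⟩
  show g (sg c.2.2) (c.1 * cs.simple v) = _
  rw [hg.mul, if_pos (h.2.1 v hv)]

open Classical in
/-- the intersection numbers on cubes -/
private noncomputable def hh (G : SimpleGraph V) (cs : CoxeterSystem M W) (pr : W → V → ZMod 2)
    (g : (V → Bool) → W → A) (H : A → Finset (V × Bool) → A → Finset (V × Bool) → ZMod 2)
    (c c' : Cub V W) : ZMod 2 :=
  if Ok G cs pr c c' then H (g (sg c.2.2) c.1) (sgn c.2.1 (sg c.2.2)) (g (sg c'.2.2) c'.1)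
    (sgn c'.2.1 (sg c'.2.2)) else 0

/-- the intersection numbers of the cubes of the apartments -/
theorem exists_hh (hF : Facts G cs) (hg : Apts cs pr p g) (hsep : Sep cs g) {n : ℕ}
    {H : A → Finset (V × Bool) → A → Finset (V × Bool) → ZMod 2} (hH : Inter (oct G) p n H) :
    ∃ φ : Cub V W → Cub V W → ZMod 2,
      (∀ c c', Ok G cs pr c c' → dl cs φ c c' = φ c c' + φ c' c) ∧ φ (b0 V W) (b0 V W) = 1 ∧
      (∀ c c', n < c.2.1.card + c'.2.1.card → φ c c' = 0) ∧ FinSupp φ := by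
  refine ⟨hh G cs pr g H, fun c c' h => ?_, ?_, fun c c' h => ?_, ?_⟩
  · have hs := clique_sgn (sg c.2.2) h.1.1
    have ht := clique_sgn (sg c'.2.2) h.2.1.1
    have hrel := hH.rel (g (sg c.2.2) c.1) (sgn c.2.1 (sg c.2.2)) (g (sg c'.2.2) c'.1)
      (sgn c'.2.1 (sg c'.2.2)) hs ht
    have e0 : hh G cs pr g H c c' + hh G cs pr g H c' c = _ :=
      congrArg₂ (· + ·) (if_pos h) (if_pos (ok_symm h))
    rw [e0, ← hrel, sum_sgn, sum_sgn]
    unfold dl
    congr 1
    · refine sum_congr rfl fun v hv => ?_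
      congr 1
      · have h1 := fa_eq hF hg h.1 hv
        unfold hh
        rw [if_pos (ok_fa h hv), h1.1, h1.2]
      · have h1 := fb_eq hF hg h.1 hv
        unfold hh
        rw [if_pos (ok_fb hF hg h hv), h1.1, h1.2]
    · refine sum_congr rfl fun v hv => ?_
      congr 1
      · have h1 := fa_eq hF hg h.2.1 hv
        unfold hh
        rw [if_pos (ok_symm (ok_fa (ok_symm h) hv)), h1.1, h1.2]
      · have h1 := fb_eq hF hg h.2.1 hv
        unfold hh
        rw [if_pos (ok_symm (ok_fb hF hg (ok_symm h) hv)), h1.1, h1.2]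
  · unfold hh
    rw [if_pos (ok_b0 hg)]
    show H (g _ 1) (sgn ∅ _) (g _ 1) (sgn ∅ _) = 1
    rw [hg.one]
    exact hH.one
  · unfold hh
    by_cases hok : Ok G cs pr c c'
    · rw [if_pos hok]
      refine hH.top _ _ _ _ (clique_sgn _ hok.1.1) (clique_sgn _ hok.2.1.1) ?_
      rw [card_sgn, card_sgn]
      exact h
    · rw [if_neg hok]
  · obtain ⟨E, hE⟩ := hH.fin
    refine (hsep E).subset ?_
    rintro ⟨w, w'⟩ ⟨s, a, t, b, hne⟩
    have hok : Ok G cs pr (w, s, a) (w', t, b) := by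
      by_contra hc
      exact hne (if_neg hc)
    unfold hh at hne
    rw [if_pos hok] at hne
    refine ⟨sg a, sg b, fun v hv hv' heq => ?_, ?_⟩
    · have h1 : (v, sg a v) ∈ a := by
        have := valid_sg hok.1
        simp only at this
        rw [this, mem_sgn]
        refine ⟨fst_subset_FH w s hv, ?_⟩
        rw [← this]
      have h2 : (v, sg b v) ∈ b := by
        have := valid_sg hok.2.1
        simp only at this
        rw [this, mem_sgn]
        refine ⟨fst_subset_FH w' t hv', ?_⟩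
        rw [← this]
      rw [heq] at h1
      exact disjoint_left.1 hok.2.2 h1 h2
    · exact hE _ _ _ _ (clique_sgn _ hok.1.1) (clique_sgn _ hok.2.1.1) hne

open Classical in
/-- the alternating function at the corner 1 -/
noncomputable def AA (ν : V × Bool → ℕ) (c c' : Cub V W) : ZMod 2 :=
  if c.1 = 1 ∧ c'.1 = 1 then eP ν c.2.2 c'.2.2 else 0

private theorem res_one {c : Cub V W} (h : Valid G cs pr c) (h1 : c.1 = 1) {v : V}
    (hv : v ∈ c.2.1) : (fa cs c v).2.2 = c.2.2.erase (v, sg c.2.2 v) := by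
  have h2 := valid_sg h
  rw [h1, FH_one] at h2
  show res (FH cs c.1 (c.2.1.erase v)) c.2.2 = _
  rw [h1, FH_one]
  ext q
  unfold res
  rw [mem_filter, mem_erase, mem_erase]
  constructor
  · rintro ⟨h3, h4, h5⟩
    exact ⟨fun h6 => h4 (congrArg Prod.fst h6), h3⟩
  · rintro ⟨h3, h4⟩
    have h5 := h4
    rw [h2, mem_sgn] at h5
    refine ⟨h4, fun h6 => h3 (Prod.ext h6 ?_), h5.1⟩
    show q.2 = sg c.2.2 v
    rw [h5.2, h6]

theorem AA_rel (hF : Facts G cs) (hg : Apts cs pr p g) {ν : V × Bool → ℕ}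
    (hν : Function.Injective ν) (c c' : Cub V W) (h : Ok G cs pr c c') :
    dl cs (AA ν) c c' = AA ν c c' + AA ν c' c := by
  have hb1 : ∀ v ∈ c.2.1, AA ν (fb cs c v) c' = 0 := fun v hv =>
    if_neg fun h' => fb_ne hg h.1 hv h'.1
  have hb2 : ∀ v ∈ c'.2.1, AA ν c (fb cs c' v) = 0 := fun v hv =>
    if_neg fun h' => fb_ne hg h.2.1 hv h'.2
  by_cases h1 : c.1 = 1 ∧ c'.1 = 1
  · have e1 : AA ν c c' = eP ν c.2.2 c'.2.2 := if_pos h1
    have e2 : AA ν c' c = eP ν c'.2.2 c.2.2 := if_pos ⟨h1.2, h1.1⟩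
    rw [e1, e2, ← dP_eP hν h.2.2]
    unfold dl dP
    have f1 : ∑ v ∈ c.2.1, (AA ν (fa cs c v) c' + AA ν (fb cs c v) c')
        = ∑ q ∈ c.2.2, eP ν (c.2.2.erase q) c'.2.2 := by
      have h2 := valid_sg h.1
      rw [h1.1, FH_one] at h2
      have h3 : ∑ q ∈ c.2.2, eP ν (c.2.2.erase q) c'.2.2
          = ∑ q ∈ sgn c.2.1 (sg c.2.2), eP ν (c.2.2.erase q) c'.2.2 := by
        rw [← h2]
      rw [h3, sum_sgn]
      refine sum_congr rfl fun v hv => ?_
      rw [hb1 v hv, add_zero]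
      have h4 : AA ν (fa cs c v) c' = eP ν (fa cs c v).2.2 c'.2.2 := if_pos h1
      rw [h4, res_one h.1 h1.1 hv]
    have f2 : ∑ v ∈ c'.2.1, (AA ν c (fa cs c' v) + AA ν c (fb cs c' v))
        = ∑ q ∈ c'.2.2, eP ν c.2.2 (c'.2.2.erase q) := by
      have h2 := valid_sg h.2.1
      rw [h1.2, FH_one] at h2
      have h3 : ∑ q ∈ c'.2.2, eP ν c.2.2 (c'.2.2.erase q)
          = ∑ q ∈ sgn c'.2.1 (sg c'.2.2), eP ν c.2.2 (c'.2.2.erase q) := by
        rw [← h2]
      rw [h3, sum_sgn]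
      refine sum_congr rfl fun v hv => ?_
      rw [hb2 v hv, add_zero]
      have h4 : AA ν c (fa cs c' v) = eP ν c.2.2 (fa cs c' v).2.2 := if_pos h1
      rw [h4, res_one h.2.1 h1.2 hv]
    rw [f1, f2]
  · have e1 : AA ν c c' = 0 := if_neg h1
    have e2 : AA ν c' c = 0 := if_neg fun h' => h1 ⟨h'.2, h'.1⟩
    rw [e1, e2, add_zero]
    unfold dl
    rw [sum_eq_zero, sum_eq_zero, add_zero]
    · intro v hv
      rw [hb2 v hv, add_zero]
      exact if_neg h1
    · intro v hv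
      rw [hb1 v hv, add_zero]
      exact if_neg h1

theorem AA_b0 (ν : V × Bool → ℕ) : AA ν (b0 V W) (b0 V W) = 1 := by
  have h1 : AA ν (b0 V W) (b0 V W) = eP ν ∅ ∅ := if_pos ⟨rfl, rfl⟩
  rw [h1]
  unfold eP altF
  rw [if_pos]
  refine ⟨fun x hx => ?_, fun x hx => ?_⟩
  · simp at hx
  · simp at hx

theorem AA_fin (ν : V × Bool → ℕ) : FinSupp (AA ν : Cub V W → Cub V W → ZMod 2) := by
  refine (Set.finite_singleton ((1 : W), (1 : W))).subset ?_
  rintro ⟨w, w'⟩ ⟨s, a, t, b, hne⟩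
  by_contra hc
  apply hne
  exact if_neg fun h' => hc (Prod.ext h'.1 h'.2)

end Pool.Agent.H65.BU
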