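import Mathlib

/-!
# Project BU: graph products of groups
-/

set_option autoImplicit false

open Finset

namespace Pool.Agent.H65.BU

/-- the normal subgroup of the free product generated by the commutators of the elements of adjacent vertex
groups -/
def rl {V : Type} (G : SimpleGraph V) (Γ : V → Type) [∀ v, Group (Γ v)] : Subgroup (Monoid.CoprodI Γ) :=
  Subgroup.normalClosure {r : Monoid.CoprodI Γ | ∃ (u v : V) (a : Γ u) (b : Γ v),
    G.Adj u v ∧ r = Monoid.CoprodI.of a * Monoid.CoprodI.of b * (Monoid.CoprodI.of a)⁻¹ *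
      (Monoid.CoprodI.of b)⁻¹}

instance rl_normal {V : Type} (G : SimpleGraph V) (Γ : V → Type) [∀ v, Group (Γ v)] :
    (rl G Γ).Normal :=
  Subgroup.normalClosure_normal

/-- The graph product of the groups `Γ v`, `v` a vertex of the graph `G`: the free product of the groups `Γ v`
modulo the relations that the elements of `Γ u` and of `Γ v` commute if `u` and `v` are adjacent. -/
def GP {V : Type} (G : SimpleGraph V) (Γ : V → Type) [∀ v, Group (Γ v)] : Type :=
  Monoid.CoprodI Γ ⧸ rl G Γ

/-- the group structure of the quotient -/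
instance groupGP {V : Type} (G : SimpleGraph V) (Γ : V → Type) [∀ v, Group (Γ v)] : Group (GP G Γ) :=
  QuotientGroup.Quotient.group (rl G Γ)

variable {V : Type} {G : SimpleGraph V} {Γ : V → Type} [∀ v, Group (Γ v)]

/-- the vertex groups -/
def io (G : SimpleGraph V) {Γ : V → Type} [∀ v, Group (Γ v)] {v : V} : Γ v →* GP G Γ :=
  (QuotientGroup.mk' (rl G Γ)).comp Monoid.CoprodI.of

theorem io_comm {u v : V} (h : G.Adj u v) (a : Γ u) (b : Γ v) : io G a * io G b = io G b * io G a := by
  have h1 : (QuotientGroup.mk' (rl G Γ)) (Monoid.CoprodI.of a * Monoid.CoprodI.of b *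
      (Monoid.CoprodI.of a)⁻¹ * (Monoid.CoprodI.of b)⁻¹) = 1 :=
    (QuotientGroup.eq_one_iff _).2 (Subgroup.subset_normalClosure ⟨u, v, a, b, h, rfl⟩)
  have h2 : io G a * io G b * (io G a)⁻¹ * (io G b)⁻¹ = 1 := h1
  rwa [mul_inv_eq_one, mul_inv_eq_iff_eq_mul] at h2

/-- the universal property -/
def liftGP {H : Type} [Group H] (f : ∀ v, Γ v →* H)
    (hf : ∀ u v, G.Adj u v → ∀ (a : Γ u) (b : Γ v), f u a * f v b = f v b * f u a) : GP G Γ →* H :=
  QuotientGroup.lift (rl G Γ) (Monoid.CoprodI.lift f) (by
    have h1 : rl G Γ ≤ (Monoid.CoprodI.lift f).ker := by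
      refine Subgroup.normalClosure_le_normal ?_
      rintro r ⟨u, v, a, b, h, rfl⟩
      show Monoid.CoprodI.lift f _ = 1
      rw [map_mul, map_mul, map_mul, map_inv, map_inv, Monoid.CoprodI.lift_of,
        Monoid.CoprodI.lift_of, hf u v h a b, mul_inv_cancel_right, mul_inv_cancel]
    exact fun x hx => h1 hx)

theorem liftGP_io {H : Type} [Group H] (f : ∀ v, Γ v →* H)
    (hf : ∀ u v, G.Adj u v → ∀ (a : Γ u) (b : Γ v), f u a * f v b = f v b * f u a) {v : V} (a : Γ v) :
    liftGP f hf (io G a) = f v a := by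
  show Monoid.CoprodI.lift f (Monoid.CoprodI.of a) = f v a
  rw [Monoid.CoprodI.lift_of]

/-- induction by multiplication on the right -/
theorem GP.ind {C : GP G Γ → Prop} (h1 : C 1) (hm : ∀ g v (a : Γ v), C g → C (g * io G a))
    (g : GP G Γ) : C g := by
  let π : Monoid.CoprodI Γ →* GP G Γ := QuotientGroup.mk' (rl G Γ)
  have h2 : ∀ x : Monoid.CoprodI Γ, ∀ g, C g → C (g * π x) := by
    intro x
    refine Monoid.CoprodI.induction_on x ?_ ?_ ?_
    · intro g hg
      rw [map_one, mul_one]
      exact hg
    · intro v a g hg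
      exact hm g v a hg
    · intro x y hx hy g hg
      rw [map_mul, ← mul_assoc]
      exact hy _ (hx _ hg)
  obtain ⟨x, hx⟩ : ∃ x, π x = g := QuotientGroup.mk'_surjective (rl G Γ) g
  have h3 := h2 x 1 h1
  rwa [one_mul, hx] at h3

/-- homomorphisms are determined by the vertex groups -/
theorem GP.hom_ext {H : Type} [Group H] {f g : GP G Γ →* H}
    (h : ∀ v (a : Γ v), f (io G a) = g (io G a)) : f = g := by
  refine MonoidHom.ext fun x => ?_
  refine GP.ind (C := fun x => f x = g x) (by rw [map_one, map_one]) (fun x v a hx => ?_) x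
  rw [map_mul, map_mul, hx, h]

open Classical in
/-- the projection to the vertex group `Γ v` -/
noncomputable def pj (G : SimpleGraph V) {Γ : V → Type} [∀ v, Group (Γ v)] (v : V) : GP G Γ →* Γ v :=
  liftGP (fun u => if h : u = v then h ▸ MonoidHom.id (Γ u) else 1) (by
    intro u w h a b
    by_cases h1 : u = v
    · have h2 : w ≠ v := fun h2 => G.loopless.irrefl u (by rw [h2, ← h1] at h; exact h)
      rw [dif_neg h2, MonoidHom.one_apply, mul_one, one_mul]
    · rw [dif_neg h1, MonoidHom.one_apply, mul_one, one_mul])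

theorem pj_same {v : V} (a : Γ v) : pj G v (io G a) = a := by
  unfold pj
  rw [liftGP_io, dif_pos rfl]
  rfl

theorem pj_ne {u v : V} (h : u ≠ v) (a : Γ u) : pj G v (io G a) = 1 := by
  unfold pj
  rw [liftGP_io, dif_neg h, MonoidHom.one_apply]

/-- the inclusion of the graph product of a full subgraph -/
noncomputable def sub (G : SimpleGraph V) (Γ : V → Type) [∀ v, Group (Γ v)] (p : V → Prop) :
    GP (G.comap (Subtype.val : {v // p v} → V)) (fun v => Γ v.1) →* GP G Γ :=
  liftGP (fun v => io G (v := v.1)) (fun u v h a b => io_comm (G := G) (u := u.1) (v := v.1) h a b)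

theorem sub_injective (p : V → Prop) : Function.Injective (sub G Γ p) := by
  classical
  let r : GP G Γ →* GP (G.comap (Subtype.val : {v // p v} → V)) (fun v => Γ v.1) :=
    liftGP (fun v => if h : p v then
      io (G.comap (Subtype.val : {v // p v} → V)) (Γ := fun v => Γ v.1) (v := ⟨v, h⟩) else 1) (by
      intro u v h a b
      by_cases hu : p u
      · by_cases hv : p v
        · rw [dif_pos hu, dif_pos hv]
          exact io_comm (G := G.comap (Subtype.val : {v // p v} → V)) (Γ := fun v => Γ v.1)
            (u := ⟨u, hu⟩) (v := ⟨v, hv⟩) h a b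
        · rw [dif_neg hv, MonoidHom.one_apply, mul_one, one_mul]
      · rw [dif_neg hu, MonoidHom.one_apply, mul_one, one_mul])
  have h1 : r.comp (sub G Γ p) = MonoidHom.id _ := by
    refine GP.hom_ext fun v a => ?_
    show r (sub G Γ p (io (Γ := fun v => Γ v.1) (v := v) _ a)) = io (Γ := fun v => Γ v.1) (v := v) _ a
    unfold sub
    rw [liftGP_io]
    show liftGP _ _ (io G (v := v.1) a) = _
    rw [liftGP_io, dif_pos v.2]
  intro x y hxy
  have h2 := congrArg r hxy
  have h3 : ∀ x, r (sub G Γ p x) = x := fun x => by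
    have := congrArg (fun f => f x) h1
    exact this
  rwa [h3, h3] at h2

end Pool.Agent.H65.BU
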