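import Pool.Agent.H65.BU.Defs

/-!
# Project BU: persistent first letters

PROOF (helper93, note 4004 (2)): for `w ≠ 1` write `w = π w₁`, `π` = product of the (commuting) letters of `F(w)`;
`u ∉ F(w)` for `u ∈ F(w₁)` and `ℓ(w) = |F(w)| + ℓ(w₁)` (by `left` the others stay descents). If
`u ∈ F(w₁ y)` for all `ℓ(y) ≤ N`, then `u ∉ F(w)`, so some `v ∈ F(w)` has `v ≠ u`, `v` not adjacent to `u` (else
`left` gives `u ∈ F(w)`), and `v ∈ F(w y)` for all `ℓ(y) ≤ N + 1`:
(a) `ℓ(y) ≤ N`: `z = w₁ y` has `u ∈ F(z)`; `v ∈ F(π' z)`, `π' = s_v π`, would give `v ∈ F(z)` by `left`,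
so `v` adjacent to `u` (`clique`), absurd; so `v ∈ F(s_v π' z) = F(w y)`.
(b) `y = y' s_r`, `ℓ(y') = N`: if `v ∈ F(x)`, `v ∉ F(x s_r)`, `x = w y'`, `exch` gives `s_v x = x s_r`, `r = v`
(`same`), so `s_v` commutes with `x` and with `z = w₁ y'`, `u ∈ F(z)`, `v ∉ F(z)`: then `u` is adjacent to `v`
(`u ∈ F(z s_v) = F(s_v z) ∋ v`: clique; `u ∉ F(z s_v)`: exch, same give `u = v`). Absurd.
So the exceptional sets satisfy `X_0 = {1}`, `X_(N+1) ⊆ {w : w₁ ∈ X_N}`: finite.
-/

set_option autoImplicit false

open Finset

namespace Pool.Agent.H65.BU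

set_option linter.unusedSectionVars false

variable {V W : Type} [Fintype V] [DecidableEq V] [Group W] {M : CoxeterMatrix V}

private theorem mem_fst {cs : CoxeterSystem M W} {w : W} {v : V} :
    v ∈ fst cs w ↔ cs.IsLeftDescent w v := by
  unfold fst
  simp

/-- the product of the letters of a list -/
private def pl (cs : CoxeterSystem M W) (l : List V) : W := (l.map cs.simple).prod

private theorem pl_left {G : SimpleGraph V} {cs : CoxeterSystem M W} (hF : Facts G cs) {u : V}
    (z : W) : ∀ l : List V, (∀ v ∈ l, G.Adj v u) → (u ∈ fst cs (pl cs l * z) ↔ u ∈ fst cs z) := by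
  intro l
  induction l with
  | nil => intro _; simp [pl]
  | cons a l ih =>
    intro h
    have h1 : pl cs (a :: l) * z = cs.simple a * (pl cs l * z) := by
      simp [pl, mul_assoc]
    rw [h1, hF.left _ a u (h a (by simp)), ih fun v hv => h v (by simp [hv])]

private theorem pl_comm {G : SimpleGraph V} {cs : CoxeterSystem M W} (hF : Facts G cs) {u : V} :
    ∀ l : List V, (∀ v ∈ l, G.Adj v u) → cs.simple u * pl cs l = pl cs l * cs.simple u := by
  intro l
  induction l with
  | nil => intro _; simp [pl]
  | cons a l ih =>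
    intro h
    have h1 : pl cs (a :: l) = cs.simple a * pl cs l := by simp [pl]
    rw [h1, ← mul_assoc, ← hF.comm a u (h a (by simp)), mul_assoc,
      ih fun v hv => h v (by simp [hv]), mul_assoc]

/-- splitting off a first letter -/
private theorem pl_split {G : SimpleGraph V} {cs : CoxeterSystem M W} (hF : Facts G cs) (w : W)
    {v : V} (hv : v ∈ fst cs w) : ∃ l : List V, (∀ a ∈ l, G.Adj a v) ∧
      pl cs (fst cs w).toList = cs.simple v * pl cs l := by
  refine ⟨(fst cs w).toList.erase v, fun a ha => ?_, ?_⟩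
  · have h1 : a ∈ (fst cs w).toList := List.mem_of_mem_erase ha
    have h2 : a ≠ v := by
      rintro rfl
      exact ((fst cs w).nodup_toList.not_mem_erase) ha
    exact hF.clique w (by simpa using h1) (by simpa using hv) h2
  · have h1 : (fst cs w).toList.Perm (v :: (fst cs w).toList.erase v) :=
      List.perm_cons_erase (by simpa using hv)
    have h2 : ((fst cs w).toList.map cs.simple).Pairwise Commute := by
      rw [List.pairwise_map]
      refine (fst cs w).nodup_toList.pairwise_of_forall_ne fun a ha b hb hab => ?_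
      exact hF.comm a b (hF.clique w (by simpa using ha) (by simpa using hb) hab)
    have h3 := List.Perm.prod_eq' (h1.map cs.simple) h2
    unfold pl
    rw [h3, List.map_cons, List.prod_cons]

private theorem fst_flip {cs : CoxeterSystem M W} {v : V} {x : W} (h : v ∉ fst cs x) :
    v ∈ fst cs (cs.simple v * x) := by
  rw [mem_fst] at h ⊢
  rw [cs.isLeftDescent_iff_not_isLeftDescent_mul, cs.simple_mul_simple_cancel_left]
  exact h

private theorem fst_flip' {cs : CoxeterSystem M W} {v : V} {x : W} (h : v ∈ fst cs x) :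
    v ∉ fst cs (cs.simple v * x) := by
  rw [mem_fst] at h ⊢
  rwa [cs.isLeftDescent_iff_not_isLeftDescent_mul] at h

/-- the step -/
private theorem persist_step {G : SimpleGraph V} {cs : CoxeterSystem M W} (hF : Facts G cs) (N : ℕ)
    {w w₁ : W} (hw : w = pl cs (fst cs w).toList * w₁) {u : V} (hu : u ∈ fst cs w₁)
    (hN : ∀ y, cs.length y ≤ N → u ∈ fst cs (w₁ * y)) :
    ∃ v ∈ fst cs w, ∀ y, cs.length y ≤ N + 1 → v ∈ fst cs (w * y) := by
  have h1 : u ∉ fst cs w := by
    intro h
    obtain ⟨l, hl1, hl2⟩ := pl_split hF w h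
    have h2 : cs.simple u * w = pl cs l * w₁ := by
      conv_lhs => rw [hw, hl2]
      rw [mul_assoc, cs.simple_mul_simple_cancel_left]
    have h3 := fst_flip' h
    rw [h2, pl_left hF w₁ l hl1] at h3
    exact h3 hu
  have h2 : ∃ v ∈ fst cs w, ¬ G.Adj v u := by
    by_contra hcon
    push Not at hcon
    refine h1 ?_
    rw [hw, pl_left hF w₁ _ fun v hv => hcon v (by simpa using hv)]
    exact hu
  obtain ⟨v, hv, hvu⟩ := h2
  have hne : v ≠ u := by
    rintro rfl
    exact h1 hv
  obtain ⟨l, hl1, hl2⟩ := pl_split hF w hv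
  have hnot : ∀ z, u ∈ fst cs z → v ∉ fst cs z := fun z h3 h4 => hvu (hF.clique z h4 h3 hne)
  have ha : ∀ y, cs.length y ≤ N → v ∈ fst cs (w * y) := by
    intro y hy
    have h3 : w * y = cs.simple v * (pl cs l * (w₁ * y)) := by
      conv_lhs => rw [hw, hl2]
      simp only [mul_assoc]
    rw [h3]
    refine fst_flip ?_
    rw [pl_left hF _ l hl1]
    exact hnot _ (hN y hy)
  refine ⟨v, hv, fun y hy => ?_⟩
  rcases Nat.lt_or_ge (cs.length y) (N + 1) with h3 | h3
  · exact ha y (by omega)
  · have hy1 : y ≠ 1 := by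
      rintro rfl
      rw [cs.length_one] at h3
      omega
    obtain ⟨r, hr⟩ := cs.exists_rightDescent_of_ne_one hy1
    obtain ⟨y', hyy, hy2⟩ : ∃ y', y = y' * cs.simple r ∧ cs.length y' ≤ N := by
      refine ⟨y * cs.simple r, (cs.simple_mul_simple_cancel_right r).symm, ?_⟩
      have h4 : cs.length (y * cs.simple r) < cs.length y := hr
      omega
    by_contra hcon
    have h5 : w * y = w * y' * cs.simple r := by rw [hyy, mul_assoc]
    have h6 : v ∈ fst cs (w * y * cs.simple r) := by
      rw [h5, cs.simple_mul_simple_cancel_right]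
      exact ha y' hy2
    have h7 := hF.exch _ _ _ hcon h6
    have h8 : cs.simple v * (w * y') = w * y' * cs.simple r := by
      rw [h5] at h7
      rw [cs.simple_mul_simple_cancel_right] at h7
      rw [← mul_assoc] at h7
      calc cs.simple v * (w * y') = cs.simple v * (w * y') * cs.simple r * cs.simple r := by
            rw [cs.simple_mul_simple_cancel_right]
        _ = w * y' * cs.simple r := by rw [h7]
    have h9 := hF.same _ _ _ h8
    subst h9
    have hcomm : cs.simple r * (w₁ * y') = w₁ * y' * cs.simple r := by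
      have h10 : w * y' = cs.simple r * (pl cs l * (w₁ * y')) := by
        conv_lhs => rw [hw, hl2]
        simp only [mul_assoc]
      rw [h10] at h8
      have h11 := pl_comm hF l hl1
      have h12 : cs.simple r * pl cs l * (cs.simple r * (w₁ * y')) =
          cs.simple r * pl cs l * (w₁ * y' * cs.simple r) := by
        calc cs.simple r * pl cs l * (cs.simple r * (w₁ * y'))
            = cs.simple r * (pl cs l * cs.simple r) * (w₁ * y') := by simp only [mul_assoc]
          _ = cs.simple r * (cs.simple r * pl cs l) * (w₁ * y') := by rw [h11]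
          _ = cs.simple r * (cs.simple r * (pl cs l * (w₁ * y'))) := by simp only [mul_assoc]
          _ = cs.simple r * (pl cs l * (w₁ * y')) * cs.simple r := h8
          _ = cs.simple r * pl cs l * (w₁ * y' * cs.simple r) := by simp only [mul_assoc]
      exact mul_left_cancel h12
    have huz := hN y' hy2
    have hrz := hnot _ huz
    have h13 : r ∈ fst cs (w₁ * y' * cs.simple r) := by
      rw [← hcomm]
      exact fst_flip hrz
    by_cases h14 : u ∈ fst cs (w₁ * y' * cs.simple r)
    · exact hnot _ h14 h13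
    · have h15 : u ∈ fst cs (w₁ * y' * cs.simple r * cs.simple r) := by
        rw [cs.simple_mul_simple_cancel_right]
        exact huz
      have h16 := hF.exch _ _ _ h14 h15
      have h17 : cs.simple u * (w₁ * y') = w₁ * y' * cs.simple r := by
        rw [cs.simple_mul_simple_cancel_right, ← mul_assoc] at h16
        calc cs.simple u * (w₁ * y')
            = cs.simple u * (w₁ * y') * cs.simple r * cs.simple r := by
              rw [cs.simple_mul_simple_cancel_right]
          _ = w₁ * y' * cs.simple r := by rw [h16]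
      exact hne (hF.same _ _ _ h17)

/-- all but finitely many elements have a first letter which stays a first letter in the ball of radius `N` -/
theorem persist {G : SimpleGraph V} {cs : CoxeterSystem M W} (hF : Facts G cs) (N : ℕ) :
    {w : W | ¬ ∃ v ∈ fst cs w, ∀ y, cs.length y ≤ N → v ∈ fst cs (w * y)}.Finite := by
  induction N with
  | zero =>
    refine (Set.finite_singleton (1 : W)).subset fun w hw => ?_
    by_contra hne
    have hne : w ≠ 1 := hne
    obtain ⟨v, hv⟩ := cs.exists_leftDescent_of_ne_one hne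
    refine hw ⟨v, mem_fst.mpr hv, fun y hy => ?_⟩
    have h1 : y = 1 := cs.length_eq_zero_iff.mp (Nat.le_zero.mp hy)
    rw [h1, mul_one]
    exact mem_fst.mpr hv
  | succ N ih =>
    have h1 : ((Set.univ : Set (Finset V)) ×ˢ
        {w : W | ¬ ∃ v ∈ fst cs w, ∀ y, cs.length y ≤ N → v ∈ fst cs (w * y)}).Finite :=
      Set.finite_univ.prod ih
    refine (h1.image fun q => pl cs q.1.toList * q.2).subset fun w hw => ?_
    refine ⟨(fst cs w, (pl cs (fst cs w).toList)⁻¹ * w), ⟨Set.mem_univ _, ?_⟩, ?_⟩
    · rintro ⟨u, hu, hN⟩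
      exact hw (persist_step hF N (mul_inv_cancel_left _ _).symm hu hN)
    · exact mul_inv_cancel_left _ _

end Pool.Agent.H65.BU
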