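import Pool.Agent.H65.BU.Kill
import Pool.Agent.H65.BU.Persist

/-!
# Project BU: separation

PROOF. `N` = maximum over `x ∈ E` and over `o` of the constants of `hlip`; `κ (g b q.2) = κ (g a q.1 * x)`. So
`ℓ(w⁻¹ w') ≤ N` for `w = q.1`, `w' = q.2` (`o = none`). If `w` has a `v` which is persistent for `2 N`, then `v ∈ F(w)`,
`v ∈ F(w')`, so `a v ≠ b v`. Case `a v = false`, `b v = true`: `κ_v (g a w) = r w`, `κ_v (g b w') = w'`, so
`ℓ((r w)⁻¹ w') ≤ N`, `r w = w y` with `ℓ(y) ≤ 2 N`, so `v ∈ F(r w)`, absurd (`exists_kill`). Case `a v = true`,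
`b v = false`: `κ_v (g a w) = w`, `κ_v (g b w') = r w'`, `ℓ(w⁻¹ r w') ≤ N`, `v ∈ F(r w')`, absurd. So `w` is in
the finite exceptional set, and `w' ∈ w · ball N`.
-/

set_option autoImplicit false

open Finset

namespace Pool.Agent.H65.BU

variable {V W A : Type} [Fintype V] [DecidableEq V] [Group W] [Group A] {M : CoxeterMatrix V}

theorem sep_of_kappa {G : SimpleGraph V} {cs : CoxeterSystem M W} (hM : RA G M) (hF : Facts G cs)
    {g : (V → Bool) → W → A} (κ : Option V → A → W)
    (hlip : ∀ o x, ∃ N : ℕ, ∀ y, cs.length ((κ o y)⁻¹ * κ o (y * x)) ≤ N)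
    (h0 : ∀ a w, κ none (g a w) = w)
    (h1 : ∀ v a w, a v = true → κ (some v) (g a w) = w)
    (h2 : ∀ v (r : W →* W), (∀ u, r (cs.simple u) = if u = v then 1 else cs.simple u) →
      ∀ a w, a v = false → κ (some v) (g a w) = r w) : Sep cs g := by
  classical
  intro E
  choose N hN using hlip
  obtain ⟨N0, hN0⟩ : ∃ N0, ∀ x ∈ E, ∀ o : Option V, N o x ≤ N0 :=
    ⟨E.sup fun x => univ.sup fun o => N o x, fun x hx o =>
      (Finset.le_sup (f := fun o => N o x) (mem_univ o)).trans
        (Finset.le_sup (f := fun x => univ.sup fun o => N o x) hx)⟩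
  have hX := persist hF (2 * N0)
  have hB := ball_finite cs N0
  refine ((hX.prod hB).image fun q : W × W => (q.1, q.1 * q.2)).subset ?_
  rintro ⟨w, w'⟩ ⟨a, b, hab, hx⟩
  simp only at hab hx
  obtain ⟨x, hxE, hgx⟩ : ∃ x ∈ E, g b w' = g a w * x :=
    ⟨_, hx, (mul_inv_cancel_left _ _).symm⟩
  have hk : ∀ o, cs.length ((κ o (g a w))⁻¹ * κ o (g b w')) ≤ N0 := by
    intro o
    rw [hgx]
    exact (hN o x _).trans (hN0 x hxE o)
  have hd : cs.length (w⁻¹ * w') ≤ N0 := by
    have h := hk none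
    rwa [h0, h0] at h
  refine ⟨(w, w⁻¹ * w'), ⟨?_, hd⟩, ?_⟩
  · rintro ⟨v, hv, hp⟩
    have hv' : v ∈ fst cs w' := by
      have h := hp (w⁻¹ * w') (by omega)
      rwa [mul_inv_cancel_left] at h
    have hne := hab v hv hv'
    obtain ⟨r, hr, hrv⟩ := exists_kill hM cs v
    have hk' := hk (some v)
    cases ha : a v
    · have hb : b v = true := by
        cases hb : b v
        · rw [ha, hb] at hne
          exact absurd rfl hne
        · rfl
      rw [h2 v r hr a w ha, h1 v b w' hb] at hk'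
      refine hrv w ?_
      have h := hp (w⁻¹ * r w) ?_
      · rwa [mul_inv_cancel_left] at h
      · have e : w⁻¹ * r w = (w⁻¹ * w') * ((r w)⁻¹ * w')⁻¹ := by group
        rw [e]
        refine (cs.length_mul_le _ _).trans ?_
        rw [cs.length_inv]
        omega
    · have hb : b v = false := by
        cases hb : b v
        · rfl
        · rw [ha, hb] at hne
          exact absurd rfl hne
      rw [h1 v a w ha, h2 v r hr b w' hb] at hk'
      refine hrv w' ?_
      have h := hp (w⁻¹ * r w') (by omega)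
      rwa [mul_inv_cancel_left] at h
  · simp only [mul_inv_cancel_left]

end Pool.Agent.H65.BU
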