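import Pool.Agent.H65.BU.Cox
import Pool.Agent.H65.BU.Sep
import Pool.Agent.H65.BU.GP

/-!
# Project BU: graph products map to the Coxeter group

PROOF of `exists_kappa`: `GP` acts from the right on `W × ∀ v, Γ v`:
`(x, c) · h = (x s_v^[θ_v(c_v h) ≠ θ_v(c_v)], c with c_v h)` for `h ∈ Γ v` (a right action of `Γ v`: the exponents
telescope, `s_v² = 1`; the actions of `Γ u`, `Γ v` commute for adjacent `u, v`). Formally `liftGP` into the units of
the maps of `W × ∀ v, Γ v` with the left action of `h` = the right action of `h⁻¹`, `κ g` = first component of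
`(1, 1) · g = ρ(g⁻¹) (1, 1)`, the second component is `pj v g`.
-/

set_option autoImplicit false
set_option linter.unusedSectionVars false

open Finset

namespace Pool.Agent.H65.BU

open Pool.Agent.H65.RA

variable {V W : Type} [Fintype V] [DecidableEq V] [Group W] {M : CoxeterMatrix V}
  {G : SimpleGraph V} {Γ : V → Type} [∀ v, Group (Γ v)]

/-- the factor of the step from `p` to `r` -/
def stp (cs : CoxeterSystem M W) (θ : ∀ v, Γ v → Bool) (v : V) (p r : Γ v) : W :=
  if θ v r = θ v p then 1 else cs.simple v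

/-- the right action of the vertex groups -/
def ract (cs : CoxeterSystem M W) (θ : ∀ v, Γ v → Bool) (v : V) (h : Γ v) (x : W × ∀ v, Γ v) :
    W × ∀ v, Γ v :=
  (x.1 * stp cs θ v (x.2 v) (x.2 v * h), Function.update x.2 v (x.2 v * h))

theorem stp_mul (cs : CoxeterSystem M W) (θ : ∀ v, Γ v → Bool) (v : V) (p q r : Γ v) :
    stp cs θ v p q * stp cs θ v q r = stp cs θ v p r := by
  unfold stp
  by_cases h1 : θ v q = θ v p
  · rw [if_pos h1, one_mul, h1]
  · rw [if_neg h1]
    by_cases h2 : θ v r = θ v q
    · rw [if_pos h2, mul_one, h2, if_neg h1]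
    · have h3 : θ v r = θ v p := by
        revert h1 h2
        cases θ v r <;> cases θ v q <;> cases θ v p <;> simp
      rw [if_neg h2, if_pos h3, cs.simple_mul_simple_self]

theorem ract_one (cs : CoxeterSystem M W) (θ : ∀ v, Γ v → Bool) (v : V) (x : W × ∀ v, Γ v) :
    ract cs θ v 1 x = x := by
  unfold ract stp
  rw [mul_one, if_pos rfl, mul_one, Function.update_eq_self]

theorem ract_mul (cs : CoxeterSystem M W) (θ : ∀ v, Γ v → Bool) (v : V) (a b : Γ v)
    (x : W × ∀ v, Γ v) : ract cs θ v (a * b) x = ract cs θ v b (ract cs θ v a x) := by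
  unfold ract
  refine Prod.ext ?_ ?_
  · show x.1 * stp cs θ v (x.2 v) (x.2 v * (a * b)) =
      x.1 * stp cs θ v (x.2 v) (x.2 v * a) *
        stp cs θ v (Function.update x.2 v (x.2 v * a) v) (Function.update x.2 v (x.2 v * a) v * b)
    rw [Function.update_self, mul_assoc x.1, stp_mul, mul_assoc (x.2 v)]
  · show Function.update x.2 v (x.2 v * (a * b)) =
      Function.update (Function.update x.2 v (x.2 v * a)) v
        (Function.update x.2 v (x.2 v * a) v * b)
    rw [Function.update_self, Function.update_idem, mul_assoc]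

theorem ract_comm (cs : CoxeterSystem M W) (θ : ∀ v, Γ v → Bool) {u v : V} (huv : u ≠ v)
    (hc : cs.simple u * cs.simple v = cs.simple v * cs.simple u) (a : Γ u) (b : Γ v)
    (x : W × ∀ v, Γ v) : ract cs θ u a (ract cs θ v b x) = ract cs θ v b (ract cs θ u a x) := by
  have h1 : ∀ p r p' r', stp cs θ u p r * stp cs θ v p' r' = stp cs θ v p' r' * stp cs θ u p r := by
    intro p r p' r'
    unfold stp
    by_cases h1 : θ u r = θ u p
    · rw [if_pos h1, one_mul, mul_one]
    · by_cases h2 : θ v r' = θ v p'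
      · rw [if_pos h2, one_mul, mul_one]
      · rw [if_neg h1, if_neg h2, hc]
  unfold ract
  refine Prod.ext ?_ ?_
  · show x.1 * stp cs θ v (x.2 v) (x.2 v * b) *
        stp cs θ u (Function.update x.2 v (x.2 v * b) u) (Function.update x.2 v (x.2 v * b) u * a) =
      x.1 * stp cs θ u (x.2 u) (x.2 u * a) *
        stp cs θ v (Function.update x.2 u (x.2 u * a) v) (Function.update x.2 u (x.2 u * a) v * b)
    rw [Function.update_of_ne huv, Function.update_of_ne huv.symm, mul_assoc, mul_assoc, h1]
  · show Function.update (Function.update x.2 v (x.2 v * b)) u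
        (Function.update x.2 v (x.2 v * b) u * a) =
      Function.update (Function.update x.2 u (x.2 u * a)) v
        (Function.update x.2 u (x.2 u * a) v * b)
    rw [Function.update_of_ne huv, Function.update_of_ne huv.symm, Function.update_comm huv]

/-- the left action of a vertex group -/
def lact (cs : CoxeterSystem M W) (θ : ∀ v, Γ v → Bool) (v : V) :
    Γ v →* Function.End (W × ∀ v, Γ v) where
  toFun h := fun x => ract cs θ v h⁻¹ x
  map_one' := by
    funext x
    show ract cs θ v (1 : Γ v)⁻¹ x = x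
    rw [inv_one, ract_one]
  map_mul' a b := by
    funext x
    show ract cs θ v (a * b)⁻¹ x = ract cs θ v a⁻¹ (ract cs θ v b⁻¹ x)
    rw [mul_inv_rev, ract_mul]

theorem exists_kappa (hM : RA G M) (cs : CoxeterSystem M W) (θ : ∀ v, Γ v → Bool) :
    ∃ κ : GP G Γ → W, κ 1 = 1 ∧ ∀ g v (h : Γ v), κ (g * io G h) =
      κ g * if θ v (pj G v g * h) = θ v (pj G v g) then 1 else cs.simple v := by
  have hF := facts_of_ra hM cs
  let ρ : GP G Γ →* (Function.End (W × ∀ v, Γ v))ˣ :=
    liftGP (fun v => (lact cs θ v).toHomUnits) (by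
      intro u v huv a b
      refine Units.ext ?_
      funext x
      exact ract_comm cs θ (G.ne_of_adj huv) (hF.comm u v huv) a⁻¹ b⁻¹ x)
  let st : GP G Γ → W × ∀ v, Γ v := fun g => (ρ g⁻¹).val (1, fun _ => 1)
  have h1 : st 1 = (1, fun _ => 1) := by
    show (ρ (1 : GP G Γ)⁻¹).val (1, fun _ => 1) = _
    rw [inv_one, map_one]
    rfl
  have h2 : ∀ g v (h : Γ v), st (g * io G h) = ract cs θ v h (st g) := by
    intro g v h
    show (ρ (g * io G h)⁻¹).val (1, fun _ => 1) = _
    rw [mul_inv_rev, map_mul, ← map_inv (io G) h]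
    have h3 : ρ (io G h⁻¹) = (lact cs θ v).toHomUnits h⁻¹ := liftGP_io _ _ _
    rw [h3]
    show ract cs θ v (h⁻¹)⁻¹ (st g) = _
    rw [inv_inv]
  have h3 : ∀ g v, (st g).2 v = pj G v g := by
    intro g
    refine GP.ind (C := fun g => ∀ v, (st g).2 v = pj G v g) ?_ ?_ g
    · intro v
      rw [h1, map_one]
    · intro g u a hg v
      rw [h2, map_mul]
      show Function.update (st g).2 u ((st g).2 u * a) v = _
      by_cases huv : v = u
      · subst huv
        rw [Function.update_self, pj_same, hg]
      · rw [Function.update_of_ne huv, pj_ne (Ne.symm huv), mul_one, hg]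
  refine ⟨fun g => (st g).1, ?_, ?_⟩
  · show (st 1).1 = 1
    rw [h1]
  · intro g v h
    show (st (g * io G h)).1 = (st g).1 * _
    rw [h2, ← h3 g v]
    rfl

theorem kappa_lip (cs : CoxeterSystem M W) {θ : ∀ v, Γ v → Bool} {κ : GP G Γ → W}
    (hκ : ∀ g v (h : Γ v), κ (g * io G h) =
      κ g * if θ v (pj G v g * h) = θ v (pj G v g) then 1 else cs.simple v) (x : GP G Γ) :
    ∃ N : ℕ, ∀ y, cs.length ((κ y)⁻¹ * κ (y * x)) ≤ N := by
  refine GP.ind (C := fun x => ∃ N : ℕ, ∀ y, cs.length ((κ y)⁻¹ * κ (y * x)) ≤ N) ?_ ?_ x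
  · refine ⟨0, fun y => ?_⟩
    rw [mul_one, inv_mul_cancel, cs.length_one]
  · rintro x v a ⟨N, hN⟩
    refine ⟨N + 1, fun y => ?_⟩
    rw [← mul_assoc, hκ, ← mul_assoc]
    refine (cs.length_mul_le _ _).trans (Nat.add_le_add (hN y) ?_)
    split_ifs
    · rw [cs.length_one]
      exact Nat.zero_le _
    · rw [cs.length_simple]

theorem kappa_apt (cs : CoxeterSystem M W) {θ : ∀ v, Γ v → Bool} {κ : GP G Γ → W} (hκ1 : κ 1 = 1)
    (hκ : ∀ g v (h : Γ v), κ (g * io G h) =
      κ g * if θ v (pj G v g * h) = θ v (pj G v g) then 1 else cs.simple v)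
    {q : ∀ v, Bool → Γ v} {pr : W → V → ZMod 2} {g : (V → Bool) → W → GP G Γ}
    (hg : Apts cs pr (fun x => io G (q x.1 x.2)) g) (a : V → Bool) (R : W →* W)
    (hR : ∀ u, R (cs.simple u) = if θ u (q u (a u)) = θ u 1 then 1 else cs.simple u) (w : W) :
    κ (g a w) = R w := by
  have h0 : ∀ c : ZMod 2, c ≠ 0 → c + 1 = 0 := by decide
  have h01 : (0 : ZMod 2) + 1 ≠ 0 := by decide
  have h1 : (∀ v, pj G v (g a w) = if pr w v = 0 then 1 else q v (a v)) ∧ κ (g a w) = R w := by
    refine cs.simple_induction_right (p := fun w => (∀ v, pj G v (g a w) =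
      if pr w v = 0 then 1 else q v (a v)) ∧ κ (g a w) = R w) w ?_ ?_
    · refine ⟨fun v => ?_, ?_⟩
      · rw [hg.one, map_one, hg.pr_one, if_pos rfl]
      · rw [hg.one, hκ1, map_one]
    · rintro w u ⟨hp, hk⟩
      by_cases hu : pr w u = 0
      · have h2 : g a (w * cs.simple u) = g a w * io G (q u (a u)) := by
          rw [hg.mul, if_pos hu]
        have h3 : pj G u (g a w) = 1 := by rw [hp, if_pos hu]
        refine ⟨fun v => ?_, ?_⟩
        · rw [h2, map_mul, hg.pr_mul]
          by_cases huv : v = u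
          · subst huv
            rw [pj_same, h3, one_mul, hu, if_pos rfl, if_neg h01]
          · rw [pj_ne (Ne.symm huv), mul_one, if_neg huv, add_zero, hp]
        · rw [h2, hκ, h3, one_mul, map_mul, hR, hk]
      · have h2 : g a (w * cs.simple u) = g a w * io G (q u (a u))⁻¹ := by
          rw [hg.mul, if_neg hu, map_inv]
        have h3 : pj G u (g a w) = q u (a u) := by rw [hp, if_neg hu]
        refine ⟨fun v => ?_, ?_⟩
        · rw [h2, map_mul, hg.pr_mul]
          by_cases huv : v = u
          · subst huv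
            rw [pj_same, h3, mul_inv_cancel, if_pos rfl, if_pos (h0 _ hu)]
          · rw [pj_ne (Ne.symm huv), mul_one, if_neg huv, add_zero, hp]
        · rw [h2, hκ, h3, mul_inv_cancel, map_mul, hR, hk]
          by_cases h4 : θ u 1 = θ u (q u (a u))
          · rw [if_pos h4, if_pos h4.symm]
          · rw [if_neg h4, if_neg (Ne.symm h4)]
  exact h1.2

/-- **Separation in graph products.** -/
theorem sep_gp (hM : RA G M) (cs : CoxeterSystem M W) (q : ∀ v, Bool → Γ v)
    (h1 : ∀ v b, q v b ≠ 1) (h2 : ∀ v, q v true ≠ q v false) {pr : W → V → ZMod 2}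
    {g : (V → Bool) → W → GP G Γ} (hg : Apts cs pr (fun x => io G (q x.1 x.2)) g) : Sep cs g := by
  classical
  let θ : Option V → ∀ v, Γ v → Bool := fun o v x =>
    if o = some v then decide (x = q v true) else decide (x ≠ 1)
  have hex : ∀ o, ∃ κ : GP G Γ → W, κ 1 = 1 ∧ ∀ g v (h : Γ v), κ (g * io G h) =
      κ g * if θ o v (pj G v g * h) = θ o v (pj G v g) then 1 else cs.simple v :=
    fun o => exists_kappa hM cs (θ o)
  choose κ hκ1 hκ using hex
  have hne : ∀ o v b, o ≠ some v → θ o v (q v b) ≠ θ o v 1 := by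
    intro o v b ho
    show (if o = some v then decide (q v b = q v true) else decide (q v b ≠ 1)) ≠
      (if o = some v then decide ((1 : Γ v) = q v true) else decide ((1 : Γ v) ≠ 1))
    rw [if_neg ho, if_neg ho, decide_eq_true (h1 v b), decide_eq_false (fun h => h rfl)]
    exact Bool.noConfusion
  have hid : ∀ u, MonoidHom.id W (cs.simple u) = cs.simple u := fun u => rfl
  refine sep_of_kappa hM (facts_of_ra hM cs) κ (fun o x => kappa_lip cs (hκ o) x) ?_ ?_ ?_
  · intro a w
    refine kappa_apt cs (hκ1 none) (hκ none) hg a (MonoidHom.id W) (fun u => ?_) w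
    rw [hid, if_neg (hne none u (a u) (by simp))]
  · intro v a w hav
    refine kappa_apt cs (hκ1 (some v)) (hκ (some v)) hg a (MonoidHom.id W) (fun u => ?_) w
    rw [hid]
    by_cases huv : v = u
    · subst huv
      have h3 : θ (some v) v (q v (a v)) ≠ θ (some v) v 1 := by
        show (if some v = some v then decide (q v (a v) = q v true) else decide (q v (a v) ≠ 1)) ≠
          (if some v = some v then decide ((1 : Γ v) = q v true) else decide ((1 : Γ v) ≠ 1))
        rw [if_pos rfl, if_pos rfl, hav, decide_eq_true rfl, decide_eq_false (Ne.symm (h1 v true))]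
        exact Bool.noConfusion
      rw [if_neg h3]
    · rw [if_neg (hne (some v) u (a u) (fun h => huv (Option.some.inj h)))]
  · intro v r hr a w hav
    refine kappa_apt cs (hκ1 (some v)) (hκ (some v)) hg a r (fun u => ?_) w
    rw [hr]
    by_cases huv : v = u
    · subst huv
      have h3 : θ (some v) v (q v (a v)) = θ (some v) v 1 := by
        show (if some v = some v then decide (q v (a v) = q v true) else decide (q v (a v) ≠ 1)) =
          (if some v = some v then decide ((1 : Γ v) = q v true) else decide ((1 : Γ v) ≠ 1))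
        rw [if_pos rfl, if_pos rfl, hav, decide_eq_false (Ne.symm (h2 v)),
          decide_eq_false (Ne.symm (h1 v true))]
      rw [if_pos rfl, if_pos h3]
    · rw [if_neg (Ne.symm huv), if_neg (hne (some v) u (a u) (fun h => huv (Option.some.inj h)))]

end Pool.Agent.H65.BU
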