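import Pool.Agent.H65.RA.Psi
import Pool.Agent.H85.VK.Order

/-!
# Project BU: definitions

Graph products with at least three elements in every vertex group. `W` is the right-angled Coxeter group of the
graph `G`, an apartment is a map `W → A`; cubes of an apartment with signs for the first letters.
-/

set_option autoImplicit false

open Finset

namespace Pool.Agent.H65.BU

open Pool.Agent.H65.RA

variable {V W A : Type} [Fintype V] [DecidableEq V] [Group W] [Group A] {M : CoxeterMatrix V}

/-- `M` is the right-angled Coxeter matrix of the graph `G` -/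
def RA (G : SimpleGraph V) (M : CoxeterMatrix V) : Prop :=
  ∀ u v, u ≠ v → (G.Adj u v → M u v = 2) ∧ (¬ G.Adj u v → M u v = 0)

open Classical in
/-- the first letters of `w` (left descents) -/
noncomputable def fst (cs : CoxeterSystem M W) (w : W) : Finset V :=
  univ.filter fun v => cs.IsLeftDescent w v

open Classical in
/-- the first letters of the elements of the cube `(w, s)` (the coset of `w` of the subgroup of `s`) -/
noncomputable def FH (cs : CoxeterSystem M W) (w : W) (s : Finset V) : Finset V :=
  fst cs w ∪ s.filter fun v => cs.simple v * w = w * cs.simple v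

/-- The facts on the right-angled Coxeter group. -/
structure Facts (G : SimpleGraph V) (cs : CoxeterSystem M W) : Prop where
  comm : ∀ u v, G.Adj u v → cs.simple u * cs.simple v = cs.simple v * cs.simple u
  clique : ∀ w, G.IsClique (fst cs w : Set V)
  exch : ∀ w u v, v ∉ fst cs w → v ∈ fst cs (w * cs.simple u) →
    cs.simple v * w = w * cs.simple u
  same : ∀ w u v, cs.simple v * w = w * cs.simple u → u = v
  left : ∀ w u v, G.Adj u v → (v ∈ fst cs (cs.simple u * w) ↔ v ∈ fst cs w)
  inj : ∀ u v, cs.simple u = cs.simple v → u = v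
  step : ∀ w v, cs.simple v * w = w * cs.simple v → v ∉ fst cs w → w ≠ 1 →
    ∃ w' u, w = w' * cs.simple u ∧ cs.length w = cs.length w' + 1 ∧ G.Adj u v ∧
      cs.simple v * w' = w' * cs.simple v ∧ v ∉ fst cs w'

/-- Parities and apartments: `pr w v` is the parity of the number of letters `v` of `w`, `g a` is the apartment
for the signs `a`. -/
structure Apts (cs : CoxeterSystem M W) (pr : W → V → ZMod 2) (p : V × Bool → A)
    (g : (V → Bool) → W → A) : Prop where
  pr_one : ∀ v, pr 1 v = 0
  pr_mul : ∀ w v u, pr (w * cs.simple v) u = pr w u + if u = v then 1 else 0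
  one : ∀ a, g a 1 = 1
  mul : ∀ a w v, g a (w * cs.simple v) =
    if pr w v = 0 then g a w * p (v, a v) else g a w * (p (v, a v))⁻¹

/-- Separation: pairs of elements of two apartments with different signs at the common first letters are far
from each other, with finitely many exceptions. -/
def Sep (cs : CoxeterSystem M W) (g : (V → Bool) → W → A) : Prop :=
  ∀ E : Finset A, {q : W × W | ∃ a b : V → Bool, (∀ v ∈ fst cs q.1, v ∈ fst cs q.2 → a v ≠ b v) ∧
    (g a q.1)⁻¹ * g b q.2 ∈ E}.Finite

/-- cubes with signs: the corner `w` (with even parities in the directions `s`), the directions `s`, the signed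
first letters -/
abbrev Cub (V W : Type) := W × Finset V × Finset (V × Bool)

/-- the signs over `X` -/
def res (X : Finset V) (a : Finset (V × Bool)) : Finset (V × Bool) := a.filter fun q => q.1 ∈ X

/-- the faces of a cube -/
noncomputable def fa (cs : CoxeterSystem M W) (c : Cub V W) (v : V) : Cub V W :=
  (c.1, c.2.1.erase v, res (FH cs c.1 (c.2.1.erase v)) c.2.2)

/-- the opposite faces of a cube -/
noncomputable def fb (cs : CoxeterSystem M W) (c : Cub V W) (v : V) : Cub V W :=
  (c.1 * cs.simple v, c.2.1.erase v, res (FH cs (c.1 * cs.simple v) (c.2.1.erase v)) c.2.2)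

/-- the coboundary of a function on pairs of cubes -/
noncomputable def dl (cs : CoxeterSystem M W) (φ : Cub V W → Cub V W → ZMod 2)
    (c c' : Cub V W) : ZMod 2 :=
  ∑ v ∈ c.2.1, (φ (fa cs c v) c' + φ (fb cs c v) c') +
    ∑ v ∈ c'.2.1, (φ c (fa cs c' v) + φ c (fb cs c' v))

/-- the cubes which occur -/
def Valid (G : SimpleGraph V) (cs : CoxeterSystem M W) (pr : W → V → ZMod 2) (c : Cub V W) : Prop :=
  G.IsClique (c.2.1 : Set V) ∧ (∀ v ∈ c.2.1, pr c.1 v = 0) ∧
    ∃ α : V → Bool, c.2.2 = sgn (FH cs c.1 c.2.1) α

/-- the pairs of cubes which occur -/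
def Ok (G : SimpleGraph V) (cs : CoxeterSystem M W) (pr : W → V → ZMod 2) (c c' : Cub V W) : Prop :=
  Valid G cs pr c ∧ Valid G cs pr c' ∧ Disjoint c.2.2 c'.2.2

/-- the base point -/
def b0 (V W : Type) [Group W] : Cub V W := (1, ∅, ∅)

/-- finitely many pairs of corners -/
def FinSupp (φ : Cub V W → Cub V W → ZMod 2) : Prop :=
  {q : W × W | ∃ s a t b, φ (q.1, s, a) (q.2, t, b) ≠ 0}.Finite

open Classical in
/-- the sum over the pairs of cubes of the types `s`, `t` -/
noncomputable def KK (G : SimpleGraph V) (cs : CoxeterSystem M W) (pr : W → V → ZMod 2)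
    (e : V → ℕ) (x : Finset V → ZMod 2) (k : ℕ) (φ : Cub V W → Cub V W → ZMod 2)
    (s t : Finset V) : ZMod 2 :=
  ∑ᶠ q : W × W, if (∀ v ∈ s, pr q.1 v = 0) ∧ (∀ v ∈ t, pr q.2 v = 0) then
    Ps G e x k (fun a b => φ (q.1, s, a) (q.2, t, b)) (FH cs q.1 s) (FH cs q.2 t) else 0

end Pool.Agent.H65.BU
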