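import Pool.Agent.H65.BU.Defs
import Pool.Agent.H73.HVN.Two

/-!
# Project BU: the right-angled Coxeter group

PROOF. `exists_ra`: the matrix 1 on the diagonal, 2 for adjacent, 0 otherwise. `facts_of_ra`:
`comm`: `M u v = 2`. `inj`: `H73.HVN.simple_injective`. `clique`: two left descents have a finite label
(`two_left_descents`). `exch`: `deodhar_left`. `same`: count the letters `v` modulo 2. `left`: lengths of
`w, s_u w, s_v w, s_u s_v w`. `step`: `w = w' s_u` with `u` a right descent; `u` and `v` are right descents of
`s_v w = w s_v`, so they are adjacent.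
-/

set_option autoImplicit false
set_option linter.unusedSectionVars false

open Finset

namespace Pool.Agent.H65.BU

open Pool.Agent.H73.HVN

open Classical in
/-- every graph has a right-angled Coxeter matrix -/
theorem exists_ra {V : Type} (G : SimpleGraph V) : ∃ M : CoxeterMatrix V, RA G M := by
  refine ⟨⟨Matrix.of fun u v => if u = v then 1 else if G.Adj u v then 2 else 0, ?_, ?_, ?_⟩, ?_⟩
  · ext u v
    simp only [Matrix.transpose_apply, Matrix.of_apply, eq_comm (a := v) (b := u), G.adj_comm v u]
  · intro u
    simp
  · intro u v h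
    simp only [Matrix.of_apply, if_neg h]
    split_ifs <;> decide
  · intro u v h
    refine ⟨fun h1 => ?_, fun h1 => ?_⟩
    · show (if u = v then 1 else if G.Adj u v then 2 else 0 : ℕ) = 2
      rw [if_neg h, if_pos h1]
    · show (if u = v then 1 else if G.Adj u v then 2 else 0 : ℕ) = 0
      rw [if_neg h, if_neg h1]

variable {V W : Type} [Fintype V] [DecidableEq V] [Group W] {M : CoxeterMatrix V}

private theorem mem_fst {cs : CoxeterSystem M W} {w : W} {v : V} : v ∈ fst cs w ↔ cs.IsLeftDescent w v := by
  classical
  unfold fst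
  rw [mem_filter]
  exact ⟨fun h => h.2, fun h => ⟨mem_univ v, h⟩⟩

/-- the parity of the number of letters `v` -/
private theorem exists_par {G : SimpleGraph V} (hM : RA G M) (cs : CoxeterSystem M W) (v : V) :
    ∃ f : W →* Multiplicative (ZMod 2), ∀ u, f (cs.simple u) =
      Multiplicative.ofAdd (if u = v then 1 else 0 : ZMod 2) := by
  have h2 : ∀ x : Multiplicative (ZMod 2), x * x = 1 := by decide
  have hl : M.IsLiftable (fun u => Multiplicative.ofAdd (if u = v then 1 else 0 : ZMod 2)) := by
    intro i j
    by_cases hij : i = j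
    · subst hij
      rw [h2, one_pow]
    · by_cases hadj : G.Adj i j
      · rw [(hM i j hij).1 hadj, pow_two, h2]
      · rw [(hM i j hij).2 hadj, pow_zero]
  exact ⟨cs.lift ⟨_, hl⟩, fun u => cs.lift_apply_simple hl u⟩

/-- the facts on right-angled Coxeter groups -/
theorem facts_of_ra {G : SimpleGraph V} (hM : RA G M) (cs : CoxeterSystem M W) : Facts G cs := by
  have comm : ∀ u v, G.Adj u v → cs.simple u * cs.simple v = cs.simple v * cs.simple u := by
    intro u v h
    have h1 := cs.simple_mul_simple_pow u v
    rw [(hM u v h.ne).1 h, pow_two] at h1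
    have h2 := eq_inv_of_mul_eq_one_left h1
    rwa [mul_inv_rev, cs.inv_simple, cs.inv_simple] at h2
  have adj : ∀ u v, u ≠ v → M u v ≠ 0 → G.Adj u v := by
    intro u v h h1
    by_contra h2
    exact h1 ((hM u v h).2 h2)
  have left1 : ∀ w u v, G.Adj u v → cs.IsLeftDescent w v → cs.IsLeftDescent (cs.simple u * w) v := by
    intro w u v h hv
    by_cases hu : cs.IsLeftDescent w u
    · exact (two_left_descents cs h.ne hu hv).2
    · by_contra h1
      have e1 := cs.not_isLeftDescent_iff.1 hu
      have e2 := cs.not_isLeftDescent_iff.1 h1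
      have e3 := cs.isLeftDescent_iff.1 hv
      have e4 : cs.simple v * (cs.simple u * w) = cs.simple u * (cs.simple v * w) := by
        rw [← mul_assoc, ← comm u v h, mul_assoc]
      rw [e4] at e2
      have e5 := cs.length_simple_mul (cs.simple v * w) u
      omega
  refine ⟨comm, ?_, ?_, ?_, ?_, fun u v h => simple_injective cs h, ?_⟩
  · intro w u hu v hv huv
    exact adj u v huv (two_left_descents cs huv (mem_fst.1 hu) (mem_fst.1 hv)).1
  · intro w u v hv hv'
    rcases deodhar_left cs (L := {v}) (v := w) (by
      rintro i rfl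
      exact fun h => hv (mem_fst.2 h)) u with h | ⟨i, rfl, h⟩
    · exact absurd (mem_fst.1 hv') (h v rfl)
    · exact h.symm
  · intro w u v h
    obtain ⟨f, hf⟩ := exists_par hM cs v
    have h1 := congrArg f h
    rw [map_mul, map_mul, mul_comm, hf, hf, if_pos rfl] at h1
    by_contra hne
    rw [if_neg hne] at h1
    have h2 := mul_left_cancel h1
    exact absurd h2 (by decide)
  · intro w u v h
    rw [mem_fst, mem_fst]
    refine ⟨fun h1 => ?_, left1 w u v h⟩
    have h2 := left1 (cs.simple u * w) u v h h1
    rwa [cs.simple_mul_simple_cancel_left] at h2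
  · intro w v hc hv hw
    obtain ⟨u, hu⟩ := cs.exists_rightDescent_of_ne_one hw
    have hv1 := cs.not_isLeftDescent_iff.1 (fun h => hv (mem_fst.2 h))
    have hu1 := cs.isRightDescent_iff.1 hu
    have huv : u ≠ v := by
      rintro rfl
      rw [← hc] at hu1
      omega
    have hdu : cs.IsRightDescent (w * cs.simple v) u := by
      rw [cs.isRightDescent_iff, ← hc, mul_assoc]
      have h1 := cs.length_simple_mul (w * cs.simple u) v
      have h2 := cs.length_mul_simple (cs.simple v * w) u
      rw [mul_assoc] at h2
      omega
    have hdv : cs.IsRightDescent (w * cs.simple v) v := by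
      rw [cs.isRightDescent_iff, cs.simple_mul_simple_cancel_right, ← hc]
      omega
    have hadj : G.Adj u v := adj u v huv (two_descents cs huv hdu hdv).1
    refine ⟨w * cs.simple u, u, ?_, by omega, hadj, ?_, ?_⟩
    · rw [cs.simple_mul_simple_cancel_right]
    · rw [← mul_assoc, hc, mul_assoc, mul_assoc, comm u v hadj]
    · intro h
      have h1 := cs.isLeftDescent_iff.1 (mem_fst.1 h)
      have h2 := cs.length_mul_simple (cs.simple v * (w * cs.simple u)) u
      have h3 : cs.simple v * (w * cs.simple u) * cs.simple u = cs.simple v * w := by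
        rw [mul_assoc, mul_assoc, cs.simple_mul_simple_self, mul_one]
      rw [h3] at h2
      omega

end Pool.Agent.H65.BU
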