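import Pool.Agent.H65.BU.Defs

/-!
# Project BU: killing a letter; balls are finite

PROOF. `r` = `cs.lift` of `u ↦ if u = v then 1 else s_u` (relations: `(s_u s_w)^(M u w)`; if `u = v ≠ w` this is
`s_w^(M v w)` with `M v w = 2` or `0`). `ℓ(r w) ≤ ℓ(w)` (words) and `r (r w) = r w`. If `v ∈ fst (r w)`, then
`r w = s_v x`, `ℓ(x) < ℓ(r w)`, `r w = r (r w) = r x`, so `ℓ(r w) ≤ ℓ(x)`, absurd. Balls: words of length `n`.
-/

set_option autoImplicit false

open Finset

namespace Pool.Agent.H65.BU

variable {V W : Type} [Fintype V] [DecidableEq V] [Group W] {M : CoxeterMatrix V}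

theorem exists_kill {G : SimpleGraph V} (hM : RA G M) (cs : CoxeterSystem M W) (v : V) :
    ∃ r : W →* W, (∀ u, r (cs.simple u) = if u = v then 1 else cs.simple u) ∧
      ∀ w, v ∉ fst cs (r w) := by
  classical
  have hev : ∀ u w : V, u ≠ w → M u w = 2 ∨ M u w = 0 := by
    intro u w huw
    by_cases h : G.Adj u w
    · exact Or.inl ((hM u w huw).1 h)
    · exact Or.inr ((hM u w huw).2 h)
  have hl : CoxeterMatrix.IsLiftable M fun u => if u = v then (1 : W) else cs.simple u := by
    intro u w
    by_cases hu : u = v
    · by_cases hw : w = v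
      · simp only [if_pos hu, if_pos hw, mul_one, one_pow]
      · simp only [if_pos hu, if_neg hw, one_mul]
        rcases hev u w (fun h => hw (h ▸ hu)) with h | h
        · rw [h, cs.simple_sq]
        · rw [h, pow_zero]
    · by_cases hw : w = v
      · simp only [if_neg hu, if_pos hw, mul_one]
        rcases hev u w (fun h => hu (h ▸ hw)) with h | h
        · rw [h, cs.simple_sq]
        · rw [h, pow_zero]
      · simp only [if_neg hu, if_neg hw]
        exact cs.simple_mul_simple_pow u w
  set r : W →* W := cs.lift ⟨_, hl⟩ with hr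
  have hs : ∀ u, r (cs.simple u) = if u = v then 1 else cs.simple u := fun u =>
    cs.lift_apply_simple hl u
  refine ⟨r, hs, fun w hw => ?_⟩
  have hrr : ∀ w, r (r w) = r w := by
    have h1 : r.comp r = r := by
      refine cs.ext_simple fun u => ?_
      show r (r (cs.simple u)) = r (cs.simple u)
      rw [hs]
      by_cases hu : u = v
      · rw [if_pos hu, map_one]
      · rw [if_neg hu, hs, if_neg hu]
    exact fun w => DFunLike.congr_fun h1 w
  have hword : ∀ ω : List V, r (cs.wordProd ω) = cs.wordProd (ω.filter fun u => u ≠ v) := by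
    intro ω
    induction ω with
    | nil => simp
    | cons u ω ih =>
      rw [cs.wordProd_cons, map_mul, hs, ih]
      by_cases hu : u = v
      · rw [if_pos hu, one_mul, List.filter_cons_of_neg (by simp [hu])]
      · rw [if_neg hu, List.filter_cons_of_pos (by simp [hu]), cs.wordProd_cons]
  have hlen : ∀ w, cs.length (r w) ≤ cs.length w := by
    intro w
    obtain ⟨ω, hω, rfl⟩ := cs.exists_isReduced w
    rw [hword, hω.eq]
    exact (cs.length_wordProd_le _).trans (List.length_filter_le _ _)
  unfold fst at hw
  rw [mem_filter] at hw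
  have h1 : cs.length (cs.simple v * r w) < cs.length (r w) := hw.2
  have h2 : r (cs.simple v * r w) = r w := by
    rw [map_mul, hs, if_pos rfl, one_mul, hrr]
  have h3 := hlen (cs.simple v * r w)
  rw [h2] at h3
  omega

theorem ball_finite (cs : CoxeterSystem M W) (N : ℕ) : {w : W | cs.length w ≤ N}.Finite := by
  refine ((List.finite_length_le V N).image cs.wordProd).subset ?_
  intro w hw
  obtain ⟨ω, hω, rfl⟩ := cs.exists_isReduced w
  refine ⟨ω, ?_, rfl⟩
  show ω.length ≤ N
  rw [← hω.eq]
  exact hw

end Pool.Agent.H65.BU
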