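import Pool.Agent.H65.BU.Main
import Pool.Agent.H65.BU.Kap

/-!
# Project BU: graph products acting on homology manifolds

PROOF of `hz_gp`: `exists_ra`, `M.toCoxeterSystem`, `hz_of_sep`, `sep_gp`. PROOF of `hz_gp_sub`: `GP` of the full subgraph
acts by `MulAction.compHom U (sub G Γ p)`; it is proper since `sub` is injective.
-/

set_option autoImplicit false

open Finset

namespace Pool.Agent.H65.BU

open Pool.Agent.H65.RA Pool.Agent.H65.RM Pool.Agent.H37.TM

/-- **Graph products with intersection numbers.** -/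
theorem hz_gp_of_inter {V : Type} [Fintype V] [DecidableEq V] (G : SimpleGraph V) (Γ : V → Type)
    [∀ v, Group (Γ v)] (q : ∀ v, Bool → Γ v) (h1 : ∀ v b, q v b ≠ 1) (h2 : ∀ v, q v true ≠ q v false)
    {n k : ℕ} {H : GP G Γ → Finset (V × Bool) → GP G Γ → Finset (V × Bool) → ZMod 2}
    (hH : Inter (oct G) (fun x : V × Bool => io G (Γ := Γ) (v := x.1) (q x.1 x.2)) n H)
    (hn : n ≤ 2 * k + 1) : HZ G (k + 1) := by
  obtain ⟨M, hM⟩ := exists_ra G
  refine hz_of_inter hM M.toCoxeterSystem _ ?_ ?_ hH hn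
  · rintro ⟨u, a⟩ ⟨v, b⟩ h
    exact io_comm (G := G) (Γ := Γ) (u := u) (v := v) h _ _
  · intro pr g hg
    exact sep_gp hM M.toCoxeterSystem q h1 h2 hg

variable {V U : Type} [Fintype V] [DecidableEq V] [DecidableEq U] (G : SimpleGraph V) (Γ : V → Type)
  [∀ v, Group (Γ v)] [MulAction (GP G Γ) U]

theorem hz_gp (h3 : ∀ v, ∃ x y : Γ v, x ≠ 1 ∧ y ≠ 1 ∧ x ≠ y) {K B : Set (Finset U)} {n k : ℕ}
    (hMf : Mfd K B n) (hK : Acyc K) (hA : PAct (GP G Γ) K B) (hn : n ≤ 2 * k + 1) :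
    HZ G (k + 1) := by
  choose x y hx hy hxy using h3
  have h1 : ∀ v b, (fun v (b : Bool) => if b then x v else y v) v b ≠ (1 : Γ v) := by
    intro v b
    cases b
    · exact hy v
    · exact hx v
  obtain ⟨H, hH⟩ := exists_inter (oct G) (fun z : V × Bool => io G (Γ := Γ) (v := z.1)
    (if z.2 then x z.1 else y z.1)) (by
      rintro ⟨u, a⟩ ⟨v, b⟩ h
      exact io_comm (G := G) (Γ := Γ) (u := u) (v := v) h _ _) hMf hK hA
  exact hz_gp_of_inter G Γ (fun v b => if b then x v else y v) h1 (fun v => hxy v) hH hn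

/-- **Theorem M.** -/
theorem hz_gp_sub (h3 : ∀ v, ∃ x y : Γ v, x ≠ 1 ∧ y ≠ 1 ∧ x ≠ y) {K B : Set (Finset U)} {n k : ℕ}
    (hMf : Mfd K B n) (hK : Acyc K) (hA : PAct (GP G Γ) K B) (hn : n ≤ 2 * k + 1) (p : V → Prop)
    [DecidablePred p] : HZ (G.comap (Subtype.val : {v // p v} → V)) (k + 1) := by
  let _ : MulAction (GP (G.comap (Subtype.val : {v // p v} → V)) (fun v => Γ v.1)) U :=
    MulAction.compHom U (sub G Γ p)
  refine hz_gp (G.comap (Subtype.val : {v // p v} → V)) (fun v => Γ v.1) (fun v => h3 v.1) hMf hK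
    ⟨fun g s hs => ?_, fun g s hs => ?_, fun u w hu => ?_⟩ hn
  · exact hA.K_mem (sub G Γ p g) s hs
  · exact hA.B_mem (sub G Γ p g) s hs
  · exact (hA.proper u w hu).preimage (sub_injective p).injOn

end Pool.Agent.H65.BU
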