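import Pool.Agent.H65.BU.ExB

/-!
# Project BU: exactness by iteration

PROOF. `ε = 1 / (2 C + 2)` (so `C ε ≤ 1/2`). `f₀ = f`, `h_n` for `f_n`, `f_(n+1) = f_n - bd h_n`: again a cycle
(`bd_bd`) with `P v (f_(n+1) σ) = 0` for `v ∈ σ` (`bd h σ = ∑ ± h (σ + v)`, `map_bd`) and the support;
`‖f_n‖ ≤ 2⁻ⁿ ‖f‖`, `‖h_n‖ ≤ C 2⁻ⁿ ‖f‖`; `y = ∑ h_n`.
-/

set_option autoImplicit false

open Finset

namespace Pool.Agent.H65.BU

open Pool.Agent.H78.RA

/-- the cycles in degree `i` -/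
private structure Cyc {V X : Type} [Fintype V] [DecidableEq V] [NormedAddCommGroup X] [NormedSpace ℂ X]
    (G : SimpleGraph V) (ν : V → ℕ) (P : V → X →L[ℂ] X) (i : ℕ) (f : Finset V → X) : Prop where
  supp : ∀ σ, f σ ≠ 0 → G.IsClique (σ : Set V) ∧ σ.card = i
  ker : ∀ σ, ∀ v ∈ σ, P v (f σ) = 0
  cyc : bd ν f = 0

private theorem Cyc.step {V X : Type} [Fintype V] [DecidableEq V] [NormedAddCommGroup X]
    [NormedSpace ℂ X] {G : SimpleGraph V} {ν : V → ℕ} (hν : Function.Injective ν)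
    {P : V → X →L[ℂ] X} {i : ℕ} {f h : Finset V → X} (hf : Cyc G ν P i f)
    (h1 : ∀ σ, h σ ≠ 0 → G.IsClique (σ : Set V) ∧ σ.card = i + 1)
    (h2 : ∀ σ, ∀ v ∈ σ, P v (h σ) = 0) : Cyc G ν P i (f - bd ν h) := by
  refine ⟨fun σ hσ => ?_, fun σ v hv => ?_, ?_⟩
  · by_cases h3 : f σ = 0
    · have h4 : bd ν h σ ≠ 0 := by
        intro h5
        exact hσ (by rw [Pi.sub_apply, h3, h5, sub_zero])
      obtain ⟨v, hv, hv2⟩ := Finset.exists_ne_zero_of_sum_ne_zero h4
      have h5 : h (insert v σ) ≠ 0 := by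
        intro h6
        exact hv2 (by rw [h6, smul_zero])
      obtain ⟨h6, h7⟩ := h1 _ h5
      refine ⟨h6.subset (by simp), ?_⟩
      rw [Finset.card_insert_of_notMem (Finset.mem_compl.mp hv)] at h7
      omega
    · exact hf.supp σ h3
  · have h3 : P v (bd ν h σ) = 0 := by
      have h4 := map_bd ν ((P v).toLinearMap.toAddMonoidHom) h σ
      have h5 : P v (bd ν h σ) = bd ν (fun σ => P v (h σ)) σ := h4.symm
      rw [h5]
      unfold bd
      refine Finset.sum_eq_zero fun u _ => ?_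
      beta_reduce
      rw [h2 _ v (Finset.mem_insert_of_mem hv), smul_zero]
    rw [Pi.sub_apply, map_sub, hf.ker σ v hv, h3, sub_zero]
  · have h3 : bd ν (f - bd ν h) + bd ν (bd ν h) = bd ν f := by
      rw [← bd_add, sub_add_cancel]
    have h4 : bd ν (bd ν h) = 0 := funext fun τ => bd_bd ν hν h τ
    rw [h4, add_zero, hf.cyc] at h3
    exact h3

private theorem bd_continuous {V X : Type} [Fintype V] [DecidableEq V] [NormedAddCommGroup X]
    [NormedSpace ℂ X] (ν : V → ℕ) : Continuous fun f : Finset V → X => bd ν f := by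
  refine continuous_pi fun τ => ?_
  unfold bd
  refine continuous_finsetSum _ fun v _ => ?_
  exact (continuous_apply (insert v τ)).const_smul (sg ν τ v)

theorem exact_of_small {V : Type} [Fintype V] [DecidableEq V] (G : SimpleGraph V) (ν : V → ℕ)
    (hν : Function.Injective ν) (i : ℕ)
    (hG : ∀ A : Finset V, G.IsClique (A : Set V) → Ex ℂ ν (PP G A i) (PP G A (i + 1))) :
    ∃ ε : ℝ, 0 < ε ∧ ∀ (X : Type) [NormedAddCommGroup X] [NormedSpace ℂ X] [CompleteSpace X]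
      (P : V → X →L[ℂ] X), Small G P ε → ∀ f : Finset V → X,
      (∀ σ, f σ ≠ 0 → G.IsClique (σ : Set V) ∧ σ.card = i) → (∀ σ, ∀ v ∈ σ, P v (f σ) = 0) →
      bd ν f = 0 → ∃ y : Finset V → X,
        (∀ σ, y σ ≠ 0 → G.IsClique (σ : Set V) ∧ σ.card = i + 1) ∧ (∀ σ, ∀ v ∈ σ, P v (y σ) = 0) ∧
        bd ν y = f := by
  obtain ⟨C, hC, hap⟩ := exists_approx G ν i hG
  refine ⟨1 / (2 * C + 2), by positivity, ?_⟩
  intro X _ _ _ P hP f hf1 hf2 hf3
  have hε0 : (0 : ℝ) ≤ 1 / (2 * C + 2) := by positivity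
  have hCε : C * (1 / (2 * C + 2)) ≤ 1 / 2 := by
    rw [mul_one_div, div_le_div_iff₀ (by positivity) (by norm_num)]
    linarith
  have hex : ∀ g : {g : Finset V → X // Cyc G ν P i g}, ∃ h : Finset V → X,
      (∀ σ, h σ ≠ 0 → G.IsClique (σ : Set V) ∧ σ.card = i + 1) ∧ (∀ σ, ∀ v ∈ σ, P v (h σ) = 0) ∧
        ‖h‖ ≤ C * ‖g.1‖ ∧ ‖g.1 - bd ν h‖ ≤ 1 / 2 * ‖g.1‖ := by
    intro g
    obtain ⟨h, h1, h2, h3, h4⟩ := hap _ X P hε0 hP g.1 g.2.supp g.2.ker g.2.cyc
    exact ⟨h, h1, h2, h3, h4.trans (mul_le_mul_of_nonneg_right hCε (norm_nonneg _))⟩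
  choose H hH1 hH2 hH3 hH4 using hex
  let stp : {g : Finset V → X // Cyc G ν P i g} → {g : Finset V → X // Cyc G ν P i g} :=
    fun g => ⟨g.1 - bd ν (H g), g.2.step hν (hH1 g) (hH2 g)⟩
  let F : ℕ → {g : Finset V → X // Cyc G ν P i g} := fun n => stp^[n] ⟨f, hf1, hf2, hf3⟩
  have hF0 : (F 0).1 = f := rfl
  have hFs : ∀ n, (F (n + 1)).1 = (F n).1 - bd ν (H (F n)) := by
    intro n
    have h1 : F (n + 1) = stp (F n) := Function.iterate_succ_apply' stp n _
    rw [h1]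
  have hFn : ∀ n, ‖(F n).1‖ ≤ (1 / 2) ^ n * ‖f‖ := by
    intro n
    induction n with
    | zero => simp [hF0]
    | succ n ih =>
      rw [hFs, pow_succ]
      calc ‖(F n).1 - bd ν (H (F n))‖ ≤ 1 / 2 * ‖(F n).1‖ := hH4 _
        _ ≤ 1 / 2 * ((1 / 2) ^ n * ‖f‖) := by linarith
        _ = (1 / 2) ^ n * (1 / 2) * ‖f‖ := by ring
  have hsum : Summable fun n => H (F n) := by
    refine Summable.of_norm_bounded (g := fun n : ℕ => (1 / 2 : ℝ) ^ n * (C * ‖f‖))
      ((summable_geometric_of_lt_one (by norm_num) (by norm_num)).mul_right _) fun n => ?_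
    calc ‖H (F n)‖ ≤ C * ‖(F n).1‖ := hH3 _
      _ ≤ C * ((1 / 2) ^ n * ‖f‖) := mul_le_mul_of_nonneg_left (hFn n) hC
      _ = (1 / 2) ^ n * (C * ‖f‖) := by ring
  obtain ⟨y, hy⟩ := hsum
  have hlim : Filter.Tendsto (fun n => ∑ m ∈ Finset.range n, H (F m)) Filter.atTop (nhds y) :=
    hy.tendsto_sum_nat
  have hbd : ∀ n, bd ν (∑ m ∈ Finset.range n, H (F m)) = f - (F n).1 := by
    intro n
    induction n with
    | zero =>
      rw [Finset.sum_range_zero, hF0, sub_self]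
      funext τ
      unfold bd
      exact Finset.sum_eq_zero fun v _ => smul_zero _
    | succ n ih =>
      rw [Finset.sum_range_succ, bd_add, ih, hFs]
      abel
  have hF0' : Filter.Tendsto (fun n => (F n).1) Filter.atTop (nhds 0) := by
    refine squeeze_zero_norm hFn ?_
    have h1 := (tendsto_pow_atTop_nhds_zero_of_lt_one (r := (1 / 2 : ℝ)) (by norm_num)
      (by norm_num)).mul_const ‖f‖
    simpa using h1
  have hco : ∀ σ, Filter.Tendsto (fun n => (∑ m ∈ Finset.range n, H (F m)) σ) Filter.atTop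
      (nhds (y σ)) := fun σ => (tendsto_pi_nhds.mp hlim) σ
  refine ⟨y, fun σ hσ => ?_, fun σ v hv => ?_, ?_⟩
  · by_contra hcon
    refine hσ (tendsto_nhds_unique (hco σ) ?_)
    have h1 : (fun n => (∑ m ∈ Finset.range n, H (F m)) σ) = fun _ => (0 : X) := by
      funext n
      rw [Finset.sum_apply]
      refine Finset.sum_eq_zero fun m _ => ?_
      by_contra h2
      exact hcon (hH1 _ σ h2)
    rw [h1]
    exact tendsto_const_nhds
  · refine tendsto_nhds_unique (((P v).continuous.tendsto _).comp (hco σ)) ?_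
    have h1 : ((P v) ∘ fun n => (∑ m ∈ Finset.range n, H (F m)) σ) = fun _ => (0 : X) := by
      funext n
      show P v ((∑ m ∈ Finset.range n, H (F m)) σ) = 0
      rw [Finset.sum_apply, map_sum]
      exact Finset.sum_eq_zero fun m _ => hH2 _ σ v hv
    rw [h1]
    exact tendsto_const_nhds
  · refine tendsto_nhds_unique (((bd_continuous ν).tendsto y).comp hlim) ?_
    have h1 : ((fun f : Finset V → X => bd ν f) ∘ fun n => ∑ m ∈ Finset.range n, H (F m)) =
        fun n => f - (F n).1 := funext hbd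
    rw [h1]
    simpa using hF0'.const_sub f

end Pool.Agent.H65.BU
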