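import Pool.Agent.H78.RA.Two
import Pool.Agent.H65.RA.Defs

/-!
# Project BU: almost orthogonal projections, definitions
-/

set_option autoImplicit false

open Finset

namespace Pool.Agent.H65.BU

/-- projections which commute for adjacent vertices and are almost orthogonal for non-adjacent vertices -/
structure Small {V X : Type} [NormedAddCommGroup X] [NormedSpace ℂ X] (G : SimpleGraph V)
    (P : V → X →L[ℂ] X) (ε : ℝ) : Prop where
  norm : ∀ v, ‖P v‖ ≤ 1
  idem : ∀ v, P v * P v = P v
  comm : ∀ u v, G.Adj u v → P u * P v = P v * P u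
  small : ∀ u v, u ≠ v → ¬ G.Adj u v → ‖P u * P v‖ ≤ ε

/-- the cliques with `j` vertices outside `A` -/
def PP {V : Type} [DecidableEq V] (G : SimpleGraph V) (A : Finset V) (j : ℕ) (σ : Finset V) : Prop :=
  G.IsClique (σ : Set V) ∧ σ.card = j ∧ Disjoint σ A

/-- the product over a list of the `P v` (`v ∈ A`) and `1 - P v` (`v ∉ A`) -/
noncomputable def EE {V X : Type} [DecidableEq V] [NormedAddCommGroup X] [NormedSpace ℂ X]
    (P : V → X →L[ℂ] X) (l : List V) (A : Finset V) : X →L[ℂ] X :=
  (l.map fun v => if v ∈ A then P v else 1 - P v).prod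

end Pool.Agent.H65.BU
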