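import Pool.Agent.H65.BU.Trans
import Pool.Agent.H65.BU.OpDefs

/-!
# Project BU: the averages over the cosets

`P v f g` = mean of `f` over the coset `g Γ_v`.

PROOF of the norm bound (`u ≠ v` not adjacent): `y = P_v f` is constant on the cosets `g Γ_v`; `y = y 1_X + y 1_(Xᶜ)`.
`P_u (y 1_X)`: every coset `g Γ_u` contains exactly one element of `X`, so `‖P_u (y 1_X)‖² = |Γ_u|⁻¹ ‖y 1_X‖²`;
every coset `g Γ_v` contains at most one element of `Xᶜ`, so `‖y 1_(Xᶜ)‖² ≤ |Γ_v|⁻¹ ‖y‖²`. (To avoid cosets: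
`∑_g F(g) = |Γ_v|⁻¹ ∑_g ∑_h F(g h)` for summable `F`; e.g. `∑_h [g h ∉ X] ≤ 1`, so
`‖y 1_(Xᶜ)‖² = |Γ_v|⁻¹ ∑_g ∑_h [g h ∉ X] |y (g h)|² ≤ |Γ_v|⁻¹ ∑_g |y g|²`; and for `x` supported on `X`:
`|∑_h x(g h)|² = ∑_h |x (g h)|²` since only one term is not zero.)
-/

set_option autoImplicit false

open Finset

namespace Pool.Agent.H65.BU

/-- square summable functions on the graph product -/
abbrev LG {V : Type} (G : SimpleGraph V) (Γ : V → Type) [∀ v, Group (Γ v)] : Type :=
  lp (fun _ : GP G Γ => ℂ) 2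

section general

variable {A : Type}

private theorem two_toReal : (2 : ENNReal).toReal = 2 := by norm_num

private theorem memlp_of_summable (F : A → ℂ) (h : Summable fun g => ‖F g‖ ^ 2) : Memℓp F 2 := by
  refine memℓp_gen ?_
  rw [two_toReal]
  have h1 : (fun g => ‖F g‖ ^ (2 : ℝ)) = fun g => ‖F g‖ ^ 2 := by
    funext g
    exact Real.rpow_two _
  rw [h1]
  exact h

private theorem summable_sq (f : lp (fun _ : A => ℂ) 2) : Summable fun g => ‖f g‖ ^ 2 := by
  have h := (lp.memℓp f).summable (by rw [two_toReal]; norm_num)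
  rw [two_toReal] at h
  have h1 : (fun g => ‖f g‖ ^ (2 : ℝ)) = fun g => ‖f g‖ ^ 2 := by
    funext g
    exact Real.rpow_two _
  rwa [h1] at h

private theorem norm_sq_eq (f : lp (fun _ : A => ℂ) 2) : ‖f‖ ^ 2 = ∑' g, ‖f g‖ ^ 2 := by
  have h := lp.norm_rpow_eq_tsum (p := 2) (by rw [two_toReal]; norm_num) f
  rw [two_toReal] at h
  have h1 : (fun g => ‖f g‖ ^ (2 : ℝ)) = fun g => ‖f g‖ ^ 2 := by
    funext g
    exact Real.rpow_two _
  rw [h1, Real.rpow_two] at h
  exact h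

variable [Group A]

/-- the sum over a group is the mean of the sums over the cosets -/
private theorem tsum_coset {B : Type} [Fintype B] (i : B → A) (F : A → ℝ) (hF : Summable F) :
    ∑' g, ∑ h, F (g * i h) = (Fintype.card B : ℝ) * ∑' g, F g := by
  have h1 : ∀ h : B, Summable fun g => F (g * i h) := fun h =>
    ((Equiv.mulRight (i h)).summable_iff (f := F)).2 hF
  have h3 : ∀ h : B, ∑' g, F (g * i h) = ∑' g, F g := fun h =>
    (Equiv.mulRight (i h)).tsum_eq F
  rw [Summable.tsum_finsetSum (fun h _ => h1 h), Finset.sum_congr rfl (fun h _ => h3 h),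
    Finset.sum_const, nsmul_eq_mul, Finset.card_univ]

private theorem summable_coset {B : Type} [Fintype B] (i : B → A) (F : A → ℝ) (hF : Summable F) :
    Summable fun g => ∑ h, F (g * i h) :=
  summable_sum fun h _ => ((Equiv.mulRight (i h)).summable_iff (f := F)).2 hF

/-- translation on the right -/
private noncomputable def rt (x : A) : lp (fun _ : A => ℂ) 2 →L[ℂ] lp (fun _ : A => ℂ) 2 :=
  LinearMap.mkContinuous
    { toFun := fun f => ⟨fun g => f (g * x), memlp_of_summable _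
        (((Equiv.mulRight x).summable_iff (f := fun g => ‖f g‖ ^ 2)).2 (summable_sq f))⟩
      map_add' := fun f f' => by
        apply Subtype.ext
        funext g
        rfl
      map_smul' := fun c f => by
        apply Subtype.ext
        funext g
        rfl } 1 (by
      intro f
      rw [one_mul]
      refine le_of_sq_le_sq ?_ (norm_nonneg _)
      rw [norm_sq_eq, norm_sq_eq]
      exact le_of_eq ((Equiv.mulRight x).tsum_eq fun g => ‖f g‖ ^ 2))

private theorem rt_apply (x : A) (f : lp (fun _ : A => ℂ) 2) (g : A) : rt x f g = f (g * x) := rfl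

private theorem rt_norm (x : A) : ‖rt x‖ ≤ 1 :=
  LinearMap.mkContinuous_norm_le _ zero_le_one _

/-- the mean over the cosets of a finite family of translations -/
private noncomputable def av {B : Type} [Fintype B] (i : B → A) :
    lp (fun _ : A => ℂ) 2 →L[ℂ] lp (fun _ : A => ℂ) 2 :=
  (Fintype.card B : ℂ)⁻¹ • ∑ h, rt (i h)

private theorem av_apply {B : Type} [Fintype B] (i : B → A) (f : lp (fun _ : A => ℂ) 2) (g : A) :
    av i f g = (Fintype.card B : ℂ)⁻¹ * ∑ h, f (g * i h) := by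
  unfold av
  rw [smul_apply, _root_.sum_apply, lp.coeFn_smul, Pi.smul_apply,
    lp.coeFn_sum, Finset.sum_apply, smul_eq_mul]
  rfl

private theorem av_norm {B : Type} [Fintype B] [Nonempty B] (i : B → A) : ‖av i‖ ≤ 1 := by
  unfold av
  have hc : (0 : ℝ) < Fintype.card B := by exact_mod_cast Fintype.card_pos
  rw [norm_smul, norm_inv, Complex.norm_natCast]
  have h1 : ‖∑ h, rt (i h)‖ ≤ (Fintype.card B : ℝ) := by
    refine (norm_sum_le _ _).trans ?_
    refine (Finset.sum_le_sum (fun h _ => rt_norm (i h))).trans ?_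
    rw [Finset.sum_const, nsmul_eq_mul, Finset.card_univ, mul_one]
  calc (Fintype.card B : ℝ)⁻¹ * ‖∑ h, rt (i h)‖ ≤ (Fintype.card B : ℝ)⁻¹ * (Fintype.card B : ℝ) :=
        mul_le_mul_of_nonneg_left h1 (inv_nonneg.2 hc.le)
    _ = 1 := inv_mul_cancel₀ hc.ne'

/-- a function which has exactly one value different from zero on every coset becomes small -/
private theorem av_small {B : Type} [Fintype B] [Nonempty B] (i : B → A) (X : Set A)
    (hX : ∀ g, ∃! h : B, g * i h ∈ X) (f : lp (fun _ : A => ℂ) 2) (hf : ∀ g, g ∉ X → f g = 0) :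
    ‖av i f‖ ≤ (Real.sqrt (Fintype.card B))⁻¹ * ‖f‖ := by
  have hc : (0 : ℝ) < Fintype.card B := by exact_mod_cast Fintype.card_pos
  refine le_of_sq_le_sq ?_ (mul_nonneg (inv_nonneg.2 (Real.sqrt_nonneg _)) (norm_nonneg _))
  rw [mul_pow, inv_pow, Real.sq_sqrt hc.le, norm_sq_eq, norm_sq_eq]
  have h1 : ∀ g, ‖av i f g‖ ^ 2 =
      ((Fintype.card B : ℝ)⁻¹ * (Fintype.card B : ℝ)⁻¹) * ∑ h, ‖f (g * i h)‖ ^ 2 := by
    intro g
    obtain ⟨h0, hh0, huniq⟩ := hX g
    have h2 : ∀ h, h ≠ h0 → f (g * i h) = 0 := fun h hh => hf _ fun h3 => hh (huniq h h3)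
    rw [av_apply, Finset.sum_eq_single h0 (fun h _ hh => h2 h hh)
      (fun h => absurd (Finset.mem_univ _) h),
      Finset.sum_eq_single h0 (fun h _ hh => by rw [h2 h hh, norm_zero]; norm_num)
      (fun h => absurd (Finset.mem_univ _) h), norm_mul, norm_inv, Complex.norm_natCast, mul_pow,
      inv_pow, sq, mul_inv]
  rw [tsum_congr h1, tsum_mul_left, tsum_coset i (fun g => ‖f g‖ ^ 2) (summable_sq f),
    ← mul_assoc, mul_assoc ((Fintype.card B : ℝ)⁻¹), inv_mul_cancel₀ hc.ne', mul_one]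

/-- a function which is constant on the cosets is small on a set with at most one point in every
coset -/
private theorem restrict_small {B : Type} [Fintype B] [Nonempty B] (i : B → A) (X : Set A)
    (hX : ∀ g (h h' : B), g * i h ∈ X → g * i h' ∈ X → h = h') (f f' : lp (fun _ : A => ℂ) 2)
    (hf : ∀ g h, f (g * i h) = f g) (hf' : ∀ g, g ∈ X → f' g = f g)
    (hf0 : ∀ g, g ∉ X → f' g = 0) :
    ‖f'‖ ≤ (Real.sqrt (Fintype.card B))⁻¹ * ‖f‖ := by
  classical
  have hc : (0 : ℝ) < Fintype.card B := by exact_mod_cast Fintype.card_pos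
  refine le_of_sq_le_sq ?_ (mul_nonneg (inv_nonneg.2 (Real.sqrt_nonneg _)) (norm_nonneg _))
  rw [mul_pow, inv_pow, Real.sq_sqrt hc.le, norm_sq_eq, norm_sq_eq]
  have h1 := tsum_coset i (fun g => ‖f' g‖ ^ 2) (summable_sq f')
  have h2 : ∀ g, ∑ h, ‖f' (g * i h)‖ ^ 2 ≤ ‖f g‖ ^ 2 := by
    intro g
    by_cases hg : ∃ h0, g * i h0 ∈ X
    · obtain ⟨h0, hh0⟩ := hg
      rw [Finset.sum_eq_single h0 (fun h _ hh => by
        rw [hf0 _ fun h3 => hh (hX g h h0 h3 hh0), norm_zero]; norm_num)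
        (fun h => absurd (Finset.mem_univ _) h), hf' _ hh0, hf]
    · push Not at hg
      rw [Finset.sum_eq_zero (fun h _ => by rw [hf0 _ (hg h), norm_zero]; norm_num)]
      positivity
  have h3 : ∑' g, ∑ h, ‖f' (g * i h)‖ ^ 2 ≤ ∑' g, ‖f g‖ ^ 2 :=
    Summable.tsum_le_tsum h2 (summable_coset i (fun g => ‖f' g‖ ^ 2) (summable_sq f'))
      (summable_sq f)
  rw [h1] at h3
  calc ∑' g, ‖f' g‖ ^ 2 = (Fintype.card B : ℝ)⁻¹ * ((Fintype.card B : ℝ) * ∑' g, ‖f' g‖ ^ 2) := by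
        rw [← mul_assoc, inv_mul_cancel₀ hc.ne', one_mul]
    _ ≤ _ := mul_le_mul_of_nonneg_left h3 (inv_nonneg.2 hc.le)

omit [Group A] in
/-- the restriction to a subset -/
private theorem exists_restrict (X : Set A) (f : lp (fun _ : A => ℂ) 2) :
    ∃ f₁ f₂ : lp (fun _ : A => ℂ) 2, f = f₁ + f₂ ∧ (∀ g, g ∉ X → f₁ g = 0) ∧
      (∀ g, g ∉ X → f₂ g = f g) ∧ (∀ g, g ∈ X → f₂ g = 0) ∧ ‖f₁‖ ≤ ‖f‖ := by
  classical
  have hs : Summable fun g => ‖(if g ∈ X then f g else 0 : ℂ)‖ ^ 2 := by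
    refine Summable.of_nonneg_of_le (fun g => sq_nonneg _) (fun g => ?_) (summable_sq f)
    by_cases hg : g ∈ X
    · rw [if_pos hg]
    · rw [if_neg hg, norm_zero, zero_pow two_ne_zero]
      exact sq_nonneg _
  obtain ⟨f₁, h1⟩ : ∃ f₁ : lp (fun _ : A => ℂ) 2, ∀ g, f₁ g = if g ∈ X then f g else 0 :=
    ⟨⟨fun g => if g ∈ X then f g else 0, memlp_of_summable _ hs⟩, fun _ => rfl⟩
  have h2 : ∀ g, (f - f₁) g = f g - f₁ g := fun g => rfl
  refine ⟨f₁, f - f₁, by abel, ?_, ?_, ?_, ?_⟩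
  · intro g hg
    rw [h1, if_neg hg]
  · intro g hg
    rw [h2, h1, if_neg hg, sub_zero]
  · intro g hg
    rw [h2, h1, if_pos hg, sub_self]
  · refine le_of_sq_le_sq ?_ (norm_nonneg _)
    rw [norm_sq_eq, norm_sq_eq]
    refine Summable.tsum_le_tsum (fun g => ?_) (summable_sq f₁) (summable_sq f)
    rw [h1]
    by_cases hg : g ∈ X
    · rw [if_pos hg]
    · rw [if_neg hg, norm_zero, zero_pow two_ne_zero]
      exact sq_nonneg _

/-- means over two families of cosets in general position -/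
private theorem av_mul_small {B C : Type} [Fintype B] [Nonempty B] [Fintype C] [Nonempty C]
    (i : B → A) (j : C → A) (X : Set A) (hX : ∀ g, ∃! h : B, g * i h ∈ X)
    (hX' : ∀ g (h h' : C), g * j h ∉ X → g * j h' ∉ X → h = h')
    (hj : ∀ (f : lp (fun _ : A => ℂ) 2) g h, av j f (g * j h) = av j f g) {ε : ℝ}
    (h1 : (Real.sqrt (Fintype.card B))⁻¹ ≤ ε / 2) (h2 : (Real.sqrt (Fintype.card C))⁻¹ ≤ ε / 2) :
    ‖av i * av j‖ ≤ ε := by
  have hε : 0 ≤ ε / 2 := (inv_nonneg.2 (Real.sqrt_nonneg _)).trans h1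
  have hε' : 0 ≤ ε := by linarith
  refine ContinuousLinearMap.opNorm_le_bound _ hε' fun f => ?_
  rw [mul_apply_eq_comp]
  obtain ⟨f₁, f₂, hf, hf1, hf2, hf2', hn⟩ := exists_restrict X (av j f)
  have h3 : ‖av j f‖ ≤ ‖f‖ := by
    refine ((av j).le_opNorm f).trans ?_
    calc ‖av j‖ * ‖f‖ ≤ 1 * ‖f‖ := mul_le_mul_of_nonneg_right (av_norm j) (norm_nonneg _)
      _ = ‖f‖ := one_mul _
  have h4 : ‖av i f₁‖ ≤ ε / 2 * ‖f‖ := by
    refine (av_small i X hX f₁ hf1).trans ?_
    exact mul_le_mul h1 (hn.trans h3) (norm_nonneg _) hε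
  have h5 : ‖f₂‖ ≤ ε / 2 * ‖f‖ := by
    refine (restrict_small j Xᶜ (fun g h h' hh hh' => hX' g h h' hh hh') (av j f) f₂ (hj f)
      (fun g hg => hf2 g hg) (fun g hg => hf2' g (not_not.1 hg))).trans ?_
    exact mul_le_mul h2 h3 (norm_nonneg _) hε
  have h6 : ‖av i f₂‖ ≤ ε / 2 * ‖f‖ := by
    refine ((av i).le_opNorm f₂).trans ?_
    calc ‖av i‖ * ‖f₂‖ ≤ 1 * ‖f₂‖ := mul_le_mul_of_nonneg_right (av_norm i) (norm_nonneg _)
      _ = ‖f₂‖ := one_mul _
      _ ≤ _ := h5
  rw [hf, map_add]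
  calc ‖av i f₁ + av i f₂‖ ≤ ‖av i f₁‖ + ‖av i f₂‖ := norm_add_le _ _
    _ ≤ ε / 2 * ‖f‖ + ε / 2 * ‖f‖ := add_le_add h4 h6
    _ = ε * ‖f‖ := by ring

end general

theorem exists_proj {V : Type} (G : SimpleGraph V) (Γ : V → Type) [∀ v, Group (Γ v)]
    [∀ v, Fintype (Γ v)] : ∃ P : V → (LG G Γ →L[ℂ] LG G Γ),
      (∀ v f g, P v f g = (Fintype.card (Γ v) : ℂ)⁻¹ * ∑ h : Γ v, f (g * io G h)) ∧
      ∀ ε : ℝ, (∀ v, (Real.sqrt (Fintype.card (Γ v)))⁻¹ ≤ ε / 2) → Small G P ε := by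
  have hconst : ∀ v (f : LG G Γ) g (h : Γ v),
      av (fun h : Γ v => io G h) f (g * io G h) = av (fun h : Γ v => io G h) f g := by
    intro v f g h
    rw [av_apply, av_apply]
    congr 1
    refine (Fintype.sum_equiv (Equiv.mulLeft h) _ _ fun k => ?_)
    show f (g * io G h * io G k) = f (g * io G (h * k))
    rw [map_mul, mul_assoc]
  have hc : ∀ v, (Fintype.card (Γ v) : ℂ) ≠ 0 := fun v => by
    exact_mod_cast (Fintype.card_pos (α := Γ v)).ne'
  refine ⟨fun v => av fun h : Γ v => io G h, fun v f g => av_apply _ f g, fun ε hε => ?_⟩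
  refine ⟨fun v => av_norm _, fun v => ?_, fun u v huv => ?_, fun u v huv hn => ?_⟩
  · refine ContinuousLinearMap.ext fun f => ?_
    apply Subtype.ext
    funext g
    show av (fun h : Γ v => io G h) (av (fun h : Γ v => io G h) f) g = av (fun h : Γ v => io G h) f g
    rw [av_apply, Finset.sum_congr rfl (fun h _ => hconst v f g h), Finset.sum_const, nsmul_eq_mul,
      Finset.card_univ, ← mul_assoc, inv_mul_cancel₀ (hc v), one_mul]
  · refine ContinuousLinearMap.ext fun f => ?_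
    apply Subtype.ext
    funext g
    show av (fun h : Γ u => io G h) (av (fun h : Γ v => io G h) f) g =
      av (fun h : Γ v => io G h) (av (fun h : Γ u => io G h) f) g
    rw [av_apply, av_apply]
    simp only [av_apply, Finset.mul_sum]
    rw [Finset.sum_comm]
    refine Finset.sum_congr rfl fun h _ => Finset.sum_congr rfl fun k _ => ?_
    rw [mul_assoc g (io G k), io_comm huv k h, ← mul_assoc g, ← mul_assoc, ← mul_assoc,
      mul_comm (Fintype.card (Γ u) : ℂ)⁻¹]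
  · obtain ⟨X, hX1, hX2⟩ := exists_trans (Γ := Γ) huv hn
    exact av_mul_small _ _ X hX1 hX2 (fun f g h => hconst v f g h) (hε u) (hε v)


end Pool.Agent.H65.BU
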