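import Pool.Agent.H65.BU.RedDefs
import Pool.Agent.H65.BU.Proj
import Pool.Agent.H65.BU.ExC

/-!
# Project BU: exactness of the reduced chains

PROOF of `exR_indep`: multiply by the signs `ε(T) = (-1) ^ #{(u, w) : u, w ∈ T, ν u < ν w, ν' w < ν' u}`;
`ε(T + v) sg ν T v = sg ν' T v ε(T)`. PROOF of `exists_exR`: one fixed `ν`; `ε` = minimum over `i ≤ |V|` of the `ε` of
`exact_of_small` (for `i > |V|` there are no chains; for the `i` which do not satisfy the hypothesis nothing is to
be proved); `N` with `(√N)⁻¹ ≤ ε / 2`; `exists_proj`; the family `f T ∈ lp` (from `l2`), `P v (f T) = 0` is `mean`;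
`bd ν f = 0` pointwise (`sg` of H78 is an integer, `sg` of H85.DV is the same in `ℂ`).
-/

set_option autoImplicit false
set_option linter.unusedSectionVars false

open Finset

namespace Pool.Agent.H65.BU

open Pool.Agent.H78.RA

section indep

variable {V : Type} [DecidableEq V]

/-- the sign of a pair -/
private noncomputable def ph (ν ν' : V → ℕ) (u w : V) : ℂ := if ν u < ν w ∧ ν' w < ν' u then -1 else 1

/-- the sign of a set -/
private noncomputable def ee (ν ν' : V → ℕ) (T : Finset V) : ℂ := ∏ u ∈ T, ∏ w ∈ T, ph ν ν' u w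

private theorem sg_prod (ν : V → ℕ) (T : Finset V) (v : V) :
    H85.DV.sg ν T v = ∏ u ∈ T, (if ν u < ν v then (-1 : ℂ) else 1) := by
  unfold H85.DV.sg
  rw [prod_ite, prod_const, prod_const_one, mul_one]

private theorem sg_sq (ν : V → ℕ) (T : Finset V) (v : V) :
    H85.DV.sg ν T v * H85.DV.sg ν T v = 1 := by
  unfold H85.DV.sg
  rw [← mul_pow]
  norm_num

private theorem ee_sq (ν ν' : V → ℕ) (T : Finset V) : ee ν ν' T * ee ν ν' T = 1 := by
  unfold ee
  rw [← prod_mul_distrib]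
  refine prod_eq_one fun u _ => ?_
  rw [← prod_mul_distrib]
  refine prod_eq_one fun w _ => ?_
  unfold ph
  split_ifs <;> norm_num

private theorem ee_insert {ν ν' : V → ℕ} (hν : Function.Injective ν) (hν' : Function.Injective ν')
    {T : Finset V} {v : V} (hv : v ∉ T) :
    ee ν ν' (insert v T) = H85.DV.sg ν T v * H85.DV.sg ν' T v * ee ν ν' T := by
  have h1 : ph ν ν' v v = 1 := by
    unfold ph
    rw [if_neg fun h => lt_irrefl _ h.1]
  have h2 : ee ν ν' (insert v T) = (∏ w ∈ T, ph ν ν' v w) * ((∏ u ∈ T, ph ν ν' u v) * ee ν ν' T) := by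
    unfold ee
    rw [prod_insert hv, prod_insert hv, h1, one_mul]
    congr 1
    rw [← prod_mul_distrib]
    exact prod_congr rfl fun u _ => prod_insert hv
  rw [h2, sg_prod, sg_prod, ← mul_assoc, ← prod_mul_distrib, ← prod_mul_distrib]
  congr 1
  refine prod_congr rfl fun w hw => ?_
  have hwv : w ≠ v := fun h => hv (h ▸ hw)
  have h3 : ν w ≠ ν v := fun h => hwv (hν h)
  have h4 : ν' w ≠ ν' v := fun h => hwv (hν' h)
  unfold ph
  rcases lt_or_gt_of_ne h3 with h5 | h5 <;> rcases lt_or_gt_of_ne h4 with h6 | h6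
  · rw [if_neg (fun h => absurd h.1 (not_lt.2 h5.le)), if_neg (fun h => absurd h.2 (not_lt.2 h6.le)),
      if_pos h5, if_pos h6]
    norm_num
  · rw [if_neg (fun h => absurd h.1 (not_lt.2 h5.le)), if_pos ⟨h5, h6⟩, if_pos h5,
      if_neg (not_lt.2 h6.le)]
    norm_num
  · rw [if_pos ⟨h5, h6⟩, if_neg (fun h => absurd h.1 (not_lt.2 h5.le)), if_neg (not_lt.2 h5.le),
      if_pos h6]
    norm_num
  · rw [if_neg (fun h => absurd h.2 (not_lt.2 h6.le)), if_neg (fun h => absurd h.1 (not_lt.2 h5.le)),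
      if_neg (not_lt.2 h5.le), if_neg (not_lt.2 h6.le)]

variable [Fintype V] {A : Type} [Group A] {H : V → Type} [∀ v, Group (H v)] [∀ v, Fintype (H v)]
  {G : SimpleGraph V} {ι : ∀ v, H v →* A} {i : ℕ}

private theorem chain_smul {f : Finset V → A → ℂ} (hf : H85.DV.IsModelChain G ι i f)
    (c : Finset V → ℂ) : H85.DV.IsModelChain G ι i fun T g => c T * f T g := by
  refine ⟨fun T g h => hf.supp T g fun h0 => h ?_, fun T v hv g => ?_, fun T => ?_⟩
  · rw [h0, mul_zero]
  · rw [← mul_sum, hf.mean T v hv g, mul_zero]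
  · simp only [norm_mul, mul_pow]
    exact (hf.l2 T).mul_left _

private theorem bdMod_smul {ν ν' : V → ℕ} (hν : Function.Injective ν)
    (hν' : Function.Injective ν') (f : Finset V → A → ℂ) (T : Finset V) (g : A) :
    H85.DV.bdMod ν (fun T g => ee ν ν' T * f T g) T g = ee ν ν' T * H85.DV.bdMod ν' f T g := by
  unfold H85.DV.bdMod
  rw [mul_sum]
  refine sum_congr rfl fun v hv => ?_
  beta_reduce
  rw [ee_insert hν hν' (mem_compl.1 hv)]
  linear_combination (H85.DV.sg ν' T v * ee ν ν' T * f (insert v T) g) * sg_sq ν T v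

private theorem bdMod_smul' {ν ν' : V → ℕ} (hν : Function.Injective ν)
    (hν' : Function.Injective ν') (f : Finset V → A → ℂ) (T : Finset V) (g : A) :
    H85.DV.bdMod ν' (fun T g => ee ν ν' T * f T g) T g = ee ν ν' T * H85.DV.bdMod ν f T g := by
  unfold H85.DV.bdMod
  rw [mul_sum]
  refine sum_congr rfl fun v hv => ?_
  beta_reduce
  rw [ee_insert hν hν' (mem_compl.1 hv)]
  linear_combination (H85.DV.sg ν T v * ee ν ν' T * f (insert v T) g) * sg_sq ν' T v

end indep

theorem exR_indep {V : Type} [Fintype V] [DecidableEq V] {G : SimpleGraph V} {Γ : V → Type}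
    [∀ v, Group (Γ v)] [∀ v, Fintype (Γ v)] {ν ν' : V → ℕ} (hν : Function.Injective ν)
    (hν' : Function.Injective ν') {i : ℕ} (h : ExR G Γ ν i) : ExR G Γ ν' i := by
  intro z hz hb
  obtain ⟨y, hy, hyz⟩ := h (fun T g => ee ν ν' T * z T g) (chain_smul hz _) (fun T g => by
    rw [bdMod_smul hν hν', hb, mul_zero])
  refine ⟨fun T g => ee ν ν' T * y T g, chain_smul hy _, fun T g => ?_⟩
  rw [bdMod_smul' hν hν', hyz, ← mul_assoc, ee_sq, one_mul]

private theorem sg_cast {V : Type} [DecidableEq V] (ν : V → ℕ) (T : Finset V) (v : V) :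
    ((sg ν T v : ℤ) : ℂ) = H85.DV.sg ν T v := by
  unfold sg H85.DV.sg
  push_cast
  rfl

private theorem exR_large {V : Type} [Fintype V] [DecidableEq V] (G : SimpleGraph V) (Γ : V → Type)
    [∀ v, Group (Γ v)] [∀ v, Fintype (Γ v)] (ν : V → ℕ) {i : ℕ} (hi : Fintype.card V < i) :
    ExR G Γ ν i := by
  intro z hz _
  have h0 : ∀ T g, z T g = 0 := by
    intro T g
    by_contra h
    have h1 := (hz.supp T g h).2
    have h2 := Finset.card_le_univ T
    omega
  refine ⟨fun T g => 0, ⟨fun T g h => absurd rfl h, fun T v _ g => sum_const_zero, fun T => ?_⟩,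
    fun T g => ?_⟩
  · simp only [norm_zero]
    simpa using summable_zero
  · unfold H85.DV.bdMod
    rw [h0]
    exact sum_eq_zero fun v _ => mul_zero _

private theorem two_toReal : (2 : ENNReal).toReal = ((2 : ℕ) : ℝ) := by norm_num

private theorem memlp_of {X : Type} {f : X → ℂ} (h : Summable fun g => ‖f g‖ ^ 2) :
    Memℓp f 2 := by
  rw [memℓp_gen_iff (by norm_num)]
  simpa only [two_toReal, Real.rpow_natCast] using h

private theorem of_memlp {X : Type} {f : X → ℂ} (h : Memℓp f 2) :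
    Summable fun g => ‖f g‖ ^ 2 := by
  rw [memℓp_gen_iff (by norm_num)] at h
  simpa only [two_toReal, Real.rpow_natCast] using h

private theorem exists_deg {V : Type} [Fintype V] [DecidableEq V] (G : SimpleGraph V) (ν : V → ℕ)
    (hν : Function.Injective ν) (i : ℕ) :
    ∃ N : ℕ, ∀ (Γ : V → Type) [∀ v, Group (Γ v)] [∀ v, Fintype (Γ v)],
      (∀ v, N ≤ Fintype.card (Γ v)) →
      (∀ A : Finset V, G.IsClique (A : Set V) → Ex ℂ ν (PP G A i) (PP G A (i + 1))) →
      ExR G Γ ν i := by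
  classical
  by_cases hG : ∀ A : Finset V, G.IsClique (A : Set V) → Ex ℂ ν (PP G A i) (PP G A (i + 1))
  swap
  · exact ⟨0, fun Γ _ _ _ h => absurd h hG⟩
  obtain ⟨ε, hε, hex⟩ := exact_of_small G ν hν i hG
  obtain ⟨N, hN⟩ : ∃ N : ℕ, (2 / ε) ^ 2 ≤ N := exists_nat_ge _
  refine ⟨N, fun Γ _ _ hc _ z hz hb => ?_⟩
  obtain ⟨P, hP, hPs⟩ := exists_proj G Γ
  have hsmall : Small G P ε := by
    refine hPs ε fun v => ?_
    have h1 : (2 / ε) ^ 2 ≤ (Fintype.card (Γ v) : ℝ) := hN.trans (by exact_mod_cast hc v)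
    have h2 : 2 / ε ≤ Real.sqrt (Fintype.card (Γ v)) := Real.le_sqrt_of_sq_le h1
    have h3 : (Real.sqrt (Fintype.card (Γ v)))⁻¹ ≤ (2 / ε)⁻¹ :=
      inv_anti₀ (by positivity) h2
    rwa [inv_div] at h3
  have hval : ∀ T g, ((⟨z T, memlp_of (hz.l2 T)⟩ : LG G Γ) : GP G Γ → ℂ) g = z T g := fun T g => rfl
  obtain ⟨y, hy1, hy2, hy3⟩ := hex (LG G Γ) P hsmall (fun T => ⟨z T, memlp_of (hz.l2 T)⟩)
    (fun T hT => by
      by_contra h0
      refine hT (lp.ext (funext fun g => ?_))
      rw [hval]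
      by_contra h1
      exact h0 (hz.supp T g h1))
    (fun T v hv => by
      refine lp.ext (funext fun g => ?_)
      rw [hP]
      simp only [hval]
      rw [hz.mean T v hv g, mul_zero]
      rfl)
    (by
      funext T
      refine lp.ext (funext fun g => ?_)
      have h1 := hb T g
      unfold H85.DV.bdMod at h1
      unfold bd
      rw [lp.coeFn_sum, Finset.sum_apply]
      refine Eq.trans (sum_congr rfl fun v _ => ?_) h1
      rw [← sg_cast, ← zsmul_eq_mul]
      rfl)
  refine ⟨fun T g => y T g, ⟨fun T g h => hy1 T fun h0 => h ?_, fun T v hv g => ?_, fun T => ?_⟩,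
    fun T g => ?_⟩
  · rw [h0]
    rfl
  · have h1 := hP v (y T) g
    rw [hy2 T v hv] at h1
    have h2 : (Fintype.card (Γ v) : ℂ) ≠ 0 := by exact_mod_cast Fintype.card_ne_zero
    have h3 : (Fintype.card (Γ v) : ℂ)⁻¹ * ∑ h : Γ v, y T (g * io G h) = 0 := h1.symm
    exact (mul_eq_zero.1 h3).resolve_left (inv_ne_zero h2)
  · exact of_memlp (lp.memℓp (y T))
  · have h1 : (bd ν y T : LG G Γ) g = z T g := by rw [hy3]
    rw [← h1]
    unfold bd H85.DV.bdMod
    rw [lp.coeFn_sum, Finset.sum_apply]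
    refine sum_congr rfl fun v _ => ?_
    rw [← sg_cast, ← zsmul_eq_mul]
    rfl

/-- **Exactness of the reduced chains for large finite groups.** -/
theorem exists_exR {V : Type} [Fintype V] [DecidableEq V] (G : SimpleGraph V) :
    ∃ N : ℕ, ∀ (Γ : V → Type) [∀ v, Group (Γ v)] [∀ v, Fintype (Γ v)],
      (∀ v, N ≤ Fintype.card (Γ v)) → ∀ i : ℕ,
      (∀ (A : Finset V) (ν : V → ℕ), Function.Injective ν → G.IsClique (A : Set V) →
        Ex ℂ ν (PP G A i) (PP G A (i + 1))) →
      ∀ ν : V → ℕ, Function.Injective ν → ExR G Γ ν i := by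
  classical
  obtain ⟨ν0, hν0⟩ : ∃ ν0 : V → ℕ, Function.Injective ν0 :=
    ⟨fun v => (Fintype.equivFin V v : ℕ), fun u v h => (Fintype.equivFin V).injective (Fin.ext h)⟩
  choose N hN using exists_deg G ν0 hν0
  refine ⟨(range (Fintype.card V + 1)).sup N, fun Γ _ _ hc i hG ν hν => ?_⟩
  refine exR_indep hν0 hν ?_
  by_cases hi : Fintype.card V < i
  · exact exR_large G Γ ν0 hi
  · refine hN i Γ (fun v => le_trans ?_ (hc v)) fun A hA => hG A ν0 hν0 hA
    exact Finset.le_sup (mem_range.2 (by omega))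

end Pool.Agent.H65.BU
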