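import Pool.Agent.H65.BU.OpDefs

/-!
# Project BU: from the homology of a full subcomplex to exactness

PROOF. `z' s' = z (s'.map ⟨Subtype.val, _⟩)`; the cycle condition of `z'` at `s'` is the one of `z` at the image (the
terms of `v ∈ A` vanish by the support); `y s = y' (s.subtype (· ∉ A))` if `s` is disjoint from `A`, else 0. Then
`bd_two`, and `ex_two` (H78/RA/Two) for the coefficients `ℂ`.
-/

set_option autoImplicit false

open Finset

namespace Pool.Agent.H65.BU

open Pool.Agent.H78.RA Pool.Agent.H65.RA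

private theorem tw_sg {V : Type} (ν : V → ℕ) (τ : Finset V) (v : V) (a : ZMod 2) :
    sg ν τ v • a = a := by
  unfold sg
  rcases neg_one_pow_eq_or ℤ (τ.filter fun u => ν u < ν v).card with h | h
  · rw [h, one_smul]
  · rw [h, neg_smul, one_smul, ZMod.neg_eq_self_mod_two]

private theorem tw_bd {V : Type} [Fintype V] [DecidableEq V] (ν : V → ℕ) (f : Finset V → ZMod 2)
    (τ : Finset V) : bd ν f τ = ∑ v ∈ τᶜ, f (insert v τ) := by
  unfold bd
  exact Finset.sum_congr rfl fun v _ => tw_sg ν τ v _

private theorem tw_clique {V : Type} (G : SimpleGraph V) (A : Finset V) (s : Finset {v // v ∉ A}) :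
    (G.comap (Subtype.val : {v // v ∉ A} → V)).IsClique (s : Set {v // v ∉ A}) ↔
      G.IsClique ((s.map (Function.Embedding.subtype _) : Finset V) : Set V) := by
  constructor
  · intro h a ha b hb hab
    obtain ⟨a', ha', rfl⟩ := mem_map.1 ha
    obtain ⟨b', hb', rfl⟩ := mem_map.1 hb
    exact h ha' hb' fun h' => hab (by rw [h'])
  · intro h a ha b hb hab
    exact h (mem_map_of_mem (Function.Embedding.subtype _) ha)
      (mem_map_of_mem (Function.Embedding.subtype _) hb) fun h' => hab (Subtype.ext h')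

private theorem tw_disj {V : Type} (A : Finset V) (s : Finset {v // v ∉ A}) :
    Disjoint (s.map (Function.Embedding.subtype _) : Finset V) A := by
  rw [disjoint_left]
  intro a ha
  obtain ⟨a', -, rfl⟩ := mem_map.1 ha
  exact a'.2

private theorem tw_map {V : Type} (A : Finset V) (τ : Finset V) (h : Disjoint τ A) :
    ∃ s : Finset {v // v ∉ A}, s.map (Function.Embedding.subtype _) = τ := by
  classical
  refine ⟨τ.subtype _, ?_⟩
  ext a
  rw [mem_map]
  constructor
  · rintro ⟨a', ha', rfl⟩
    exact mem_subtype.1 ha'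
  · intro ha
    exact ⟨⟨a, disjoint_left.1 h ha⟩, mem_subtype.2 ha, rfl⟩

private theorem tw_sum {V : Type} [Fintype V] [DecidableEq V] (A : Finset V)
    [Fintype {v // v ∉ A}] [DecidableEq {v // v ∉ A}] (f : Finset V → ZMod 2)
    (s : Finset {v // v ∉ A})
    (hF : ∀ u, u ∈ A → f (insert u (s.map (Function.Embedding.subtype _))) = 0) :
    ∑ u ∈ (s.map (Function.Embedding.subtype _))ᶜ,
      f (insert u (s.map (Function.Embedding.subtype _))) =
    ∑ u ∈ sᶜ, f ((insert u s).map (Function.Embedding.subtype _)) := by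
  have h1 : ∑ u ∈ sᶜ, f ((insert u s).map (Function.Embedding.subtype _)) =
      ∑ u ∈ sᶜ.map (Function.Embedding.subtype _),
        f (insert u (s.map (Function.Embedding.subtype _))) := by
    rw [sum_map]
    apply sum_congr rfl
    intro w _
    rw [map_insert]
  rw [h1]
  symm
  apply sum_subset
  · intro u hu
    obtain ⟨w, hw, rfl⟩ := mem_map.1 hu
    rw [mem_compl] at hw ⊢
    intro h
    obtain ⟨w', hw', h'⟩ := mem_map.1 h
    exact hw (Function.Embedding.injective _ h' ▸ hw')
  · intro u hu hu'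
    rw [mem_compl] at hu
    by_cases hA : u ∈ A
    · exact hF u hA
    · exfalso
      apply hu'
      refine mem_map.2 ⟨⟨u, hA⟩, ?_, rfl⟩
      rw [mem_compl]
      intro h
      exact hu (mem_map.2 ⟨_, h, rfl⟩)

private theorem tw_ex {V : Type} [Fintype V] [DecidableEq V] {G : SimpleGraph V} {A : Finset V}
    {i : ℕ} [Fintype {v // v ∉ A}] [DecidableEq {v // v ∉ A}]
    (h : HZ (G.comap (Subtype.val : {v // v ∉ A} → V)) i) (ν : V → ℕ) :
    Ex (ZMod 2) ν (PP G A i) (PP G A (i + 1)) := by
  intro z hz1 hz2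
  have hzero : ∀ ρ : Finset V, ∑ u ∈ ρᶜ, z (insert u ρ) = 0 := by
    intro ρ
    rw [← tw_bd ν, hz2]
    rfl
  have hF : ∀ (s : Finset {v // v ∉ A}) (u : V), u ∈ A →
      z (insert u (s.map (Function.Embedding.subtype _))) = 0 := by
    intro s u hu
    by_contra hne
    exact disjoint_left.1 (hz1 _ hne).2.2 (mem_insert_self _ _) hu
  obtain ⟨y', hy1, hy2⟩ := h (fun s => z (s.map (Function.Embedding.subtype _))) (by
    intro s hs
    obtain ⟨h1, h2, -⟩ := hz1 _ hs
    rw [card_map] at h2
    exact ⟨(tw_clique G A s).2 h1, h2⟩) (by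
    intro s
    rw [← tw_sum A z s (hF s)]
    exact hzero _)
  have hinj : Function.Injective fun s : Finset {v // v ∉ A} =>
      s.map (Function.Embedding.subtype _) := Finset.map_injective _
  set y : Finset V → ZMod 2 := Function.extend (fun s : Finset {v // v ∉ A} =>
    s.map (Function.Embedding.subtype _)) y' 0 with hy
  have hye : ∀ s, y (s.map (Function.Embedding.subtype _)) = y' s := by
    intro s
    exact hinj.extend_apply y' 0 s
  have hyn : ∀ τ, y τ ≠ 0 → ∃ s : Finset {v // v ∉ A},
      s.map (Function.Embedding.subtype _) = τ := by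
    intro τ hτ
    by_contra hc
    apply hτ
    rw [hy, Function.extend_apply' _ _ _ hc]
    rfl
  refine ⟨y, ?_, ?_⟩
  · intro τ hτ
    obtain ⟨s, rfl⟩ := hyn τ hτ
    rw [hye] at hτ
    obtain ⟨h1, h2⟩ := hy1 s hτ
    exact ⟨(tw_clique G A s).1 h1, by rw [card_map, h2], tw_disj A s⟩
  · funext τ
    rw [tw_bd]
    by_cases hτ : Disjoint τ A
    · obtain ⟨s, rfl⟩ := tw_map A τ hτ
      rw [tw_sum A y s]
      · simp_rw [hye]
        exact hy2 s
      · intro u hu
        by_contra hne
        obtain ⟨s', hs'⟩ := hyn _ hne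
        have h1 := tw_disj A s'
        rw [hs'] at h1
        exact disjoint_left.1 h1 (mem_insert_self _ _) hu
    · have h1 : z τ = 0 := by
        by_contra hne
        exact hτ (hz1 τ hne).2.2
      rw [h1]
      apply sum_eq_zero
      intro u _
      by_contra hne
      obtain ⟨s', hs'⟩ := hyn _ hne
      apply hτ
      have h2 := tw_disj A s'
      rw [hs'] at h2
      exact h2.mono_left (subset_insert _ _)

theorem ex_of_hz_sub {V : Type} [Fintype V] [DecidableEq V] {G : SimpleGraph V} {A : Finset V} {i : ℕ}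
    (h : HZ (G.comap (Subtype.val : {v // v ∉ A} → V)) i) (ν : V → ℕ) (hν : Function.Injective ν) :
    Ex ℂ ν (PP G A i) (PP G A (i + 1)) := by
  refine ex_two ν hν ?_ (tw_ex h ν)
  rintro τ v hv ⟨h1, h2, h3⟩
  refine ⟨h1.subset (by simp), ?_, h3.mono_left (subset_insert _ _)⟩
  rw [Finset.card_insert_of_notMem hv] at h2
  omega

end Pool.Agent.H65.BU
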