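import Pool.Agent.H65.BU.Ler
import Pool.Agent.H65.BU.Red
import Pool.Agent.H65.BU.Two
import Pool.Agent.H65.BU.MGP

/-!
# Project BU: Q1 for all graph products of finite groups of order at least three (no largeness)
-/

set_option autoImplicit false

open Finset

namespace Pool.Agent.H65.BU

open Pool.Agent.H65.RA Pool.Agent.H65.RM Pool.Agent.H37.TM Pool.Agent.H78.RA

private theorem all_two : (2 : ENNReal).toReal = ((2 : ℕ) : ℝ) := by norm_num

private theorem all_memlp {X : Type} {f : X → ℂ} (h : Summable fun g => ‖f g‖ ^ 2) :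
    Memℓp f 2 := by
  rw [memℓp_gen_iff (by norm_num)]
  simpa only [all_two, Real.rpow_natCast] using h

private theorem all_summable {X : Type} {f : X → ℂ} (h : Memℓp f 2) :
    Summable fun g => ‖f g‖ ^ 2 := by
  rw [memℓp_gen_iff (by norm_num)] at h
  simpa only [all_two, Real.rpow_natCast] using h

private theorem all_cast {V : Type} [DecidableEq V] (ν : V → ℕ) (T : Finset V) (v : V) :
    ((sg ν T v : ℤ) : ℂ) = H85.DV.sg ν T v := by
  unfold sg H85.DV.sg
  push_cast
  rfl

/-- **Exactness of the reduced chains, all finite groups.** -/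
theorem exR_of_ex {V : Type} [Fintype V] [DecidableEq V] (G : SimpleGraph V) (Γ : V → Type)
    [∀ v, Group (Γ v)] [∀ v, Fintype (Γ v)] {ν : V → ℕ} (hν : Function.Injective ν) (i : ℕ)
    (hG : ∀ A : Finset V, Ex ℂ ν (PP G A i) (PP G A (i + 1))) : ExR G Γ ν i := by
  intro z hz hb
  obtain ⟨P, hP, hPs⟩ := exists_proj G Γ
  have hsmall : Small G P 2 := by
    refine hPs 2 fun v => ?_
    have h1 : (1 : ℝ) ≤ (Fintype.card (Γ v) : ℝ) := by
      exact_mod_cast Fintype.card_pos
    have h2 : (1 : ℝ) ≤ Real.sqrt (Fintype.card (Γ v)) := Real.one_le_sqrt.2 h1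
    have h3 : (Real.sqrt (Fintype.card (Γ v)))⁻¹ ≤ 1 := inv_le_one_of_one_le₀ h2
    linarith
  have hval : ∀ T g, ((⟨z T, all_memlp (hz.l2 T)⟩ : LG G Γ) : GP G Γ → ℂ) g = z T g :=
    fun T g => rfl
  obtain ⟨y, hy1, hy2, hy3⟩ := exact_of_idem G hν i hG (fun v => (P v).toLinearMap)
    (fun v x => by
      have h1 := congrArg (fun Q : LG G Γ →L[ℂ] LG G Γ => Q x) (hsmall.idem v)
      exact h1)
    (fun u v huv x => by
      have h1 := congrArg (fun Q : LG G Γ →L[ℂ] LG G Γ => Q x) (hsmall.comm u v huv)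
      exact h1)
    (fun T => (⟨z T, all_memlp (hz.l2 T)⟩ : LG G Γ))
    (fun T hT => by
      by_contra h0
      refine hT (lp.ext (funext fun g => ?_))
      rw [hval]
      by_contra h1
      exact h0 (hz.supp T g h1))
    (fun T v hv => by
      refine lp.ext (funext fun g => ?_)
      show (P v _ : LG G Γ) g = _
      rw [hP]
      rw [Finset.sum_congr rfl fun h _ => hval T (g * io G h), hz.mean T v hv g, mul_zero]
      rfl)
    (by
      funext T
      refine lp.ext (funext fun g => ?_)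
      have h1 := hb T g
      unfold H85.DV.bdMod at h1
      unfold bd
      rw [lp.coeFn_sum, Finset.sum_apply]
      refine Eq.trans (sum_congr rfl fun v _ => ?_) h1
      rw [← all_cast, ← zsmul_eq_mul]
      rfl)
  refine ⟨fun T g => y T g, ⟨fun T g h => hy1 T fun h0 => h ?_, fun T v hv g => ?_, fun T => ?_⟩,
    fun T g => ?_⟩
  · rw [h0]
    rfl
  · have h1 := hP v (y T) g
    have h5 : P v (y T) = 0 := hy2 T v hv
    rw [h5] at h1
    have h2 : (Fintype.card (Γ v) : ℂ) ≠ 0 := by exact_mod_cast Fintype.card_ne_zero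
    have h3 : (Fintype.card (Γ v) : ℂ)⁻¹ * ∑ h : Γ v, y T (g * io G h) = 0 := h1.symm
    exact (mul_eq_zero.1 h3).resolve_left (inv_ne_zero h2)
  · exact all_summable (lp.memℓp (y T))
  · have h1 : (bd ν y T : LG G Γ) g = z T g := by rw [hy3]
    rw [← h1]
    unfold bd H85.DV.bdMod
    rw [lp.coeFn_sum, Finset.sum_apply]
    refine sum_congr rfl fun v _ => ?_
    rw [← all_cast, ← zsmul_eq_mul]
    rfl

/-- **Q1 for all graph products of finite groups of order at least three.** -/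
theorem q1_all {V : Type} [Fintype V] [DecidableEq V] (G : SimpleGraph V) (Γ : V → Type)
    [∀ v, Group (Γ v)] [∀ v, Fintype (Γ v)] (h3 : ∀ v, 3 ≤ Fintype.card (Γ v)) {U : Type}
    [DecidableEq U] [MulAction (GP G Γ) U] {K B : Set (Finset U)} {n : ℕ} (hM : Mfd K B n)
    (hK : Acyc K) (hA : PAct (GP G Γ) K B) {i : ℕ} (hi : n < 2 * i) :
    H85.DV.L2ZeroD G (fun v => (io G : Γ v →* GP G Γ)) i := by
  obtain ⟨k, rfl⟩ : ∃ k, i = k + 1 := ⟨i - 1, by omega⟩
  have hne : ∀ v, ∃ x y : Γ v, x ≠ 1 ∧ y ≠ 1 ∧ x ≠ y := by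
    intro v
    obtain ⟨a, b, c, hab, hac, hbc⟩ := Fintype.two_lt_card_iff.1 (h3 v)
    by_cases ha : a = 1
    · exact ⟨b, c, fun h => hab (ha.trans h.symm), fun h => hac (ha.trans h.symm), hbc⟩
    · by_cases hb' : b = 1
      · exact ⟨a, c, ha, fun h => hbc (hb'.trans h.symm), hac⟩
      · exact ⟨a, b, ha, hb', hab⟩
  refine H85.DV.l2zeroD_of_mod (fun u v h a b => io_comm h a b) fun ν hν z hz hb ε hε => ?_
  obtain ⟨y, hy, hyz⟩ := exR_of_ex G Γ hν (k + 1) (fun A => ex_of_hz_sub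
    (hz_gp_sub G Γ hne hM hK hA (by omega) (fun v => v ∉ A)) ν hν) z hz hb
  refine ⟨y, hy, ?_⟩
  simp only [hyz, sub_self, norm_zero]
  simpa using hε

end Pool.Agent.H65.BU
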