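import Pool.Agent.H65.BU.Defs

/-!
# Project BU: apartments

PROOF of `exists_apts`: for signs `a` the group `W` acts on `A × (V → ZMod 2)` from the right:
`(x, c) · s_v = (x p(v, a v)^(±1), c + e_v)` with `+` iff `c v = 0`. The relations hold: `s_v s_v`: `(x, c)` goes to
`x p p⁻¹` or `x p⁻¹ p`; for adjacent `u, v` the elements commute (`hp`), `u ≠ v`. Use `cs.lift` into
`Equiv.Perm (A × (V → ZMod 2))` (left action: `ρ(s_v)` = this map, `ρ(w w') = ρ(w) ρ(w')`, so
`(w) ↦ ρ(w⁻¹) (1, 0)` satisfies `ρ((w s_v)⁻¹)(1,0) = ρ(s_v) (ρ(w⁻¹)(1,0))`). `g a w` = first component, `pr w` = second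
component (it does not depend on `a`).
`apt_indep`: induction on the length by `Facts.step`: `w = w' s_u`, `u` adjacent to `v`, so `u ≠ v` and `a u = b u`.
-/

set_option autoImplicit false
set_option linter.unusedSectionVars false

open Finset

namespace Pool.Agent.H65.BU

open Pool.Agent.H65.RA

variable {V W A : Type} [Fintype V] [DecidableEq V] [Group W] [Group A] {M : CoxeterMatrix V}

/-- the letter `v` acts on the pairs (element, parities) -/
def aptStep (p : V × Bool → A) (a : V → Bool) (v : V) (z : A × (V → ZMod 2)) : A × (V → ZMod 2) :=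
  (if z.2 v = 0 then z.1 * p (v, a v) else z.1 * (p (v, a v))⁻¹, z.2 + Pi.single v 1)

private theorem apt_zmod2_cases (c : ZMod 2) : c = 0 ∨ c = 1 := by
  revert c
  decide

theorem aptStep_invol (p : V × Bool → A) (a : V → Bool) (v : V) :
    Function.Involutive (aptStep p a v) := by
  rintro ⟨y, c⟩
  have hc : c + (Pi.single v 1 : V → ZMod 2) + (Pi.single v 1 : V → ZMod 2) = c := by
    rw [add_assoc, ← Pi.single_add]
    have h1 : (1 + 1 : ZMod 2) = 0 := by decide
    rw [h1, Pi.single_zero, add_zero]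
  rcases apt_zmod2_cases (c v) with h | h
  · have h' : (c + (Pi.single v 1 : V → ZMod 2)) v ≠ 0 := by
      rw [Pi.add_apply, Pi.single_eq_same, h]
      decide
    unfold aptStep
    simp only [if_pos h, if_neg h', mul_inv_cancel_right, hc]
  · have h0 : c v ≠ 0 := by
      rw [h]
      decide
    have h' : (c + (Pi.single v 1 : V → ZMod 2)) v = 0 := by
      rw [Pi.add_apply, Pi.single_eq_same, h]
      decide
    unfold aptStep
    simp only [if_neg h0, if_pos h', inv_mul_cancel_right, hc]

/-- the permutation of the letter `v` -/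
def aptPerm (p : V × Bool → A) (a : V → Bool) (v : V) : Equiv.Perm (A × (V → ZMod 2)) :=
  (aptStep_invol p a v).toPerm

theorem aptPerm_apply (p : V × Bool → A) (a : V → Bool) (v : V) (z : A × (V → ZMod 2)) :
    aptPerm p a v z = aptStep p a v z := rfl

theorem aptPerm_sq (p : V × Bool → A) (a : V → Bool) (v : V) :
    aptPerm p a v * aptPerm p a v = 1 := by
  ext1 z
  rw [Equiv.Perm.mul_apply, aptPerm_apply, aptPerm_apply, aptStep_invol, Equiv.Perm.one_apply]

theorem aptPerm_comm {p : V × Bool → A} {a : V → Bool} {u v : V} (huv : u ≠ v)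
    (h : p (u, a u) * p (v, a v) = p (v, a v) * p (u, a u)) :
    aptPerm p a u * aptPerm p a v = aptPerm p a v * aptPerm p a u := by
  ext1 z
  obtain ⟨y, c⟩ := z
  have h1 : (c + (Pi.single v 1 : V → ZMod 2)) u = c u := by
    rw [Pi.add_apply, Pi.single_eq_of_ne huv, add_zero]
  have h2 : (c + (Pi.single u 1 : V → ZMod 2)) v = c v := by
    rw [Pi.add_apply, Pi.single_eq_of_ne huv.symm, add_zero]
  have hcomm : Commute (p (u, a u)) (p (v, a v)) := h
  rw [Equiv.Perm.mul_apply, Equiv.Perm.mul_apply, aptPerm_apply, aptPerm_apply, aptPerm_apply,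
    aptPerm_apply]
  unfold aptStep
  simp only [h1, h2]
  refine Prod.ext ?_ (add_right_comm _ _ _)
  simp only
  split_ifs
  · rw [mul_assoc, mul_assoc, hcomm.symm.eq]
  · rw [mul_assoc, mul_assoc, hcomm.symm.inv_left.eq]
  · rw [mul_assoc, mul_assoc, hcomm.symm.inv_right.eq]
  · rw [mul_assoc, mul_assoc, hcomm.symm.inv_inv.eq]

theorem aptPerm_liftable {G : SimpleGraph V} (hM : RA G M) {p : V × Bool → A}
    (hp : ∀ x y, (oct G).Adj x y → p x * p y = p y * p x) (a : V → Bool) :
    M.IsLiftable (aptPerm p a) := by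
  intro u v
  by_cases huv : u = v
  · subst huv
    rw [M.diagonal u, pow_one, aptPerm_sq]
  · by_cases hadj : G.Adj u v
    · rw [(hM u v huv).1 hadj, pow_two]
      have hc := aptPerm_comm (p := p) (a := a) huv (hp (u, a u) (v, a v) hadj)
      rw [mul_assoc, ← mul_assoc (aptPerm p a v), ← hc, mul_assoc, aptPerm_sq, mul_one, aptPerm_sq]
    · rw [(hM u v huv).2 hadj, pow_zero]

theorem exists_apts {G : SimpleGraph V} (hM : RA G M) (cs : CoxeterSystem M W) (p : V × Bool → A)
    (hp : ∀ x y, (oct G).Adj x y → p x * p y = p y * p x) :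
    ∃ (pr : W → V → ZMod 2) (g : (V → Bool) → W → A), Apts cs pr p g := by
  set R : (V → Bool) → (W →* Equiv.Perm (A × (V → ZMod 2))) :=
    fun a => cs.lift ⟨aptPerm p a, aptPerm_liftable hM hp a⟩ with hR
  have hRs : ∀ a v, R a (cs.simple v) = aptPerm p a v := fun a v =>
    cs.lift_apply_simple (aptPerm_liftable hM hp a) v
  have key : ∀ a w v, R a (w * cs.simple v)⁻¹ ((1 : A), (0 : V → ZMod 2)) =
      aptStep p a v (R a w⁻¹ (1, 0)) := by
    intro a w v
    rw [mul_inv_rev, cs.inv_simple, map_mul, Equiv.Perm.mul_apply, hRs, aptPerm_apply]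
  have hone : ∀ a, R a (1 : W)⁻¹ ((1 : A), (0 : V → ZMod 2)) = (1, 0) := by
    intro a
    rw [inv_one, map_one, Equiv.Perm.one_apply]
  set a0 : V → Bool := fun _ => true with ha0
  have hind : ∀ a w, (R a w⁻¹ ((1 : A), (0 : V → ZMod 2))).2 =
      (R a0 w⁻¹ ((1 : A), (0 : V → ZMod 2))).2 := by
    intro a w
    induction w using cs.simple_induction_right with
    | one => rw [hone, hone]
    | mul_simple_right w v ih =>
      rw [key, key]
      unfold aptStep
      simp only
      rw [ih]
  refine ⟨fun w => (R a0 w⁻¹ ((1 : A), (0 : V → ZMod 2))).2,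
    fun a w => (R a w⁻¹ ((1 : A), (0 : V → ZMod 2))).1, ?_, ?_, ?_, ?_⟩
  · intro v
    rw [hone]
    rfl
  · intro w v u
    rw [key]
    unfold aptStep
    simp only
    rw [Pi.add_apply, Pi.single_apply]
  · intro a
    rw [hone]
  · intro a w v
    rw [key, ← hind a w]
    rfl

theorem apt_indep {G : SimpleGraph V} {cs : CoxeterSystem M W} (hF : Facts G cs) {p : V × Bool → A}
    {pr : W → V → ZMod 2} {g : (V → Bool) → W → A} (hg : Apts cs pr p g) {a b : V → Bool} {v : V}
    (hab : ∀ u, u ≠ v → a u = b u) {w : W} (hc : cs.simple v * w = w * cs.simple v)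
    (hv : v ∉ fst cs w) : g a w = g b w := by
  obtain ⟨n, hn⟩ : ∃ n, cs.length w = n := ⟨_, rfl⟩
  induction n using Nat.strong_induction_on generalizing w with
  | _ n ih =>
    by_cases h1 : w = 1
    · rw [h1, hg.one, hg.one]
    · obtain ⟨w', u, hw, hl, hadj, hc', hv'⟩ := hF.step w v hc hv h1
      have hi := ih (cs.length w') (by omega) hc' hv' rfl
      rw [hw, hg.mul, hg.mul, hi, hab u hadj.ne]

/-- an element without the letter `v` -/
theorem pr_indep {G : SimpleGraph V} {cs : CoxeterSystem M W} (hF : Facts G cs) {p : V × Bool → A}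
    {pr : W → V → ZMod 2} {g : (V → Bool) → W → A} (hg : Apts cs pr p g) {v : V}
    {w : W} (hc : cs.simple v * w = w * cs.simple v) (hv : v ∉ fst cs w) : pr w v = 0 := by
  obtain ⟨n, hn⟩ : ∃ n, cs.length w = n := ⟨_, rfl⟩
  induction n using Nat.strong_induction_on generalizing w with
  | _ n ih =>
    by_cases h1 : w = 1
    · rw [h1, hg.pr_one]
    · obtain ⟨w', u, hw, hl, hadj, hc', hv'⟩ := hF.step w v hc hv h1
      have hi := ih (cs.length w') (by omega) hc' hv' rfl
      rw [hw, hg.pr_mul, hi, if_neg hadj.ne.symm, add_zero]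

end Pool.Agent.H65.BU
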