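import Pool.Agent.H65.BU.OpDefs

/-!
# Project BU: contractions with coefficients

PROOF. Over `ℂ` by linear algebra: on the functions supported on `P` choose (`exists_ginv` in H78/RA/Two) `s`, `r` with
`bd s bd = bd` (from `Q`) and `bd r bd = bd` (from `P`): `c = z - r (bd z)` is a cycle supported on `P`, so a boundary:
`c = bd (pL Q (s c))`; so `z = bd (pL Q (s (z - pL P (r (bd z))))) + pL P (r (bd z))`: `η = pL Q ∘ s ∘ (id - pL P r bd)`,
`ζ = pL P ∘ r`, as matrices; see the proof of `ex_two`. General `E`: linear functionals separate the points of `E`.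
-/

set_option autoImplicit false

open Finset

namespace Pool.Agent.H65.BU

open Pool.Agent.H78.RA

/-- the contraction over `ℂ` -/
private theorem exists_contraction {V : Type} [Fintype V] [DecidableEq V] (ν : V → ℕ)
    {P Q : Finset V → Prop} (h : Ex ℂ ν P Q) :
    ∃ η ζ : (Finset V → ℂ) →ₗ[ℂ] (Finset V → ℂ), (∀ x τ, η x τ ≠ 0 → Q τ) ∧
      ∀ z : Finset V → ℂ, (∀ σ, z σ ≠ 0 → P σ) → z = bd ν (η z) + ζ (bd ν z) := by
  obtain ⟨s, hs⟩ := exists_ginv (bdL ℂ ν ∘ₗ pL ℂ Q)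
  obtain ⟨r, hr⟩ := exists_ginv (bdL ℂ ν ∘ₗ pL ℂ P)
  refine ⟨pL ℂ Q ∘ₗ s ∘ₗ (LinearMap.id - pL ℂ P ∘ₗ r ∘ₗ bdL ℂ ν), pL ℂ P ∘ₗ r,
    fun x τ hx => pL_supp Q _ τ hx, fun z hz => ?_⟩
  have hz' : pL ℂ P z = z := pL_eq hz
  set c := z - pL ℂ P (r (bdL ℂ ν z)) with hc
  have hcs : ∀ σ, c σ ≠ 0 → P σ := by
    intro σ hσ
    by_contra hn
    apply hσ
    show z σ - (pL ℂ P (r (bdL ℂ ν z))) σ = 0
    have e1 : z σ = 0 := by
      by_contra h0
      exact hn (hz σ h0)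
    have e2 : (pL ℂ P (r (bdL ℂ ν z))) σ = 0 := by
      by_contra h0
      exact hn (pL_supp P _ σ h0)
    rw [e1, e2, sub_zero]
  have hcb : bdL ℂ ν c = 0 := by
    have h1 := hr z
    simp only [LinearMap.comp_apply, hz'] at h1
    rw [hc, map_sub, h1, sub_self]
  obtain ⟨y, hy1, hy2⟩ := h c hcs hcb
  have h2 : bdL ℂ ν (pL ℂ Q (s c)) = c := by
    have h3 := hs y
    simp only [LinearMap.comp_apply, pL_eq hy1] at h3
    rw [show bdL ℂ ν y = c from hy2] at h3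
    exact h3
  show z = bdL ℂ ν (pL ℂ Q (s (z - pL ℂ P (r (bdL ℂ ν z))))) + pL ℂ P (r (bdL ℂ ν z))
  rw [← hc, h2, hc, sub_add_cancel]

/-- a linear map is given by its matrix -/
private theorem apply_eq_sum {I : Type} [Fintype I] [DecidableEq I] (L : (I → ℂ) →ₗ[ℂ] (I → ℂ))
    (x : I → ℂ) (τ : I) : L x τ = ∑ ρ, L (Pi.single ρ 1) τ * x ρ := by
  have h1 : x = ∑ ρ, x ρ • (Pi.single ρ (1 : ℂ) : I → ℂ) := by
    funext j
    rw [Finset.sum_apply, Finset.sum_eq_single j]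
    · rw [Pi.smul_apply, Pi.single_eq_same, smul_eq_mul, mul_one]
    · intro b _ hb
      rw [Pi.smul_apply, Pi.single_eq_of_ne (Ne.symm hb), smul_eq_mul, mul_zero]
    · intro hj
      exact absurd (Finset.mem_univ _) hj
  conv_lhs => rw [h1]
  rw [map_sum, Finset.sum_apply]
  refine Finset.sum_congr rfl fun ρ _ => ?_
  rw [map_smul, Pi.smul_apply, smul_eq_mul, mul_comm]

theorem exists_eta {V : Type} [Fintype V] [DecidableEq V] (ν : V → ℕ) {P Q : Finset V → Prop}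
    (hQP : Faces Q P) (h : Ex ℂ ν P Q) : ∃ η ζ : Finset V → Finset V → ℂ,
      (∀ τ σ, η τ σ ≠ 0 → Q τ) ∧
      ∀ (E : Type) [AddCommGroup E] [Module ℂ E] (f : Finset V → E), (∀ σ, f σ ≠ 0 → P σ) →
        ∀ σ, f σ = bd ν (fun τ => ∑ ρ, η τ ρ • f ρ) σ + ∑ ρ, ζ σ ρ • bd ν f ρ := by
  obtain ⟨η, ζ, h1, h2⟩ := exists_contraction ν h
  refine ⟨fun τ ρ => η (Pi.single ρ 1) τ, fun τ ρ => ζ (Pi.single ρ 1) τ, ?_, ?_⟩
  · intro τ σ hne
    exact h1 _ τ hne
  · intro E _ _ f hf σ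
    -- linear functionals separate the points of `E`
    have key : ∀ φ : Module.Dual ℂ E, φ (f σ) =
        φ (bd ν (fun τ => ∑ ρ, η (Pi.single ρ 1) τ • f ρ) σ +
          ∑ ρ, ζ (Pi.single ρ 1) σ • bd ν f ρ) := by
      intro φ
      have h3 := congrFun (h2 (fun τ => φ (f τ)) (fun τ hτ => hf τ (fun h0 => hτ (by
        show φ (f τ) = 0
        rw [h0, map_zero])))) σ
      have h5 : ∀ ρ, bd ν (fun τ => φ (f τ)) ρ = φ (bd ν f ρ) := fun ρ =>
        map_bd ν φ.toAddMonoidHom f ρ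
      have h6 : φ (bd ν (fun τ => ∑ ρ, η (Pi.single ρ 1) τ • f ρ) σ) =
          bd ν (fun τ => φ (∑ ρ, η (Pi.single ρ 1) τ • f ρ)) σ :=
        (map_bd ν φ.toAddMonoidHom _ σ).symm
      rw [map_add, map_sum, h6]
      refine h3.trans ?_
      rw [Pi.add_apply]
      refine congrArg₂ (· + ·) ?_ ?_
      · refine congrArg (fun F => bd ν F σ) ?_
        funext τ
        rw [apply_eq_sum, map_sum]
        refine Finset.sum_congr rfl fun ρ _ => ?_
        rw [map_smul, smul_eq_mul]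
      · rw [apply_eq_sum]
        refine Finset.sum_congr rfl fun ρ _ => ?_
        rw [map_smul, smul_eq_mul, h5]
    rw [← sub_eq_zero, ← Module.forall_dual_apply_eq_zero_iff ℂ]
    intro φ
    rw [map_sub, key φ, sub_self]


end Pool.Agent.H65.BU
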