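import Pool.Agent.H65.BU.OpDefs

/-!
# Project BU: products of almost orthogonal projections

PROOF. Lemma mv: for `v ∉ l` there is `R` with `‖R‖ ≤ 2 ^ |l|` and `‖P v * EE l A - R * P v‖ ≤ 4 ^ |l| * ε`; induction
on `l = w :: l'`: `w` adjacent to `v`: `F_w` commutes with `P v`, `R = F_w R'`; not adjacent and `F_w = P_w`: `R = 0`,
`‖P_v P_w‖ ≤ ε`; not adjacent and `F_w = 1 - P_w`: `P_v F_w = P_v - P_v P_w`, `R = R'`. (`‖1 - P‖ ≤ 2`,
`‖EE l A‖ ≤ 2 ^ |l|`.) `EE_not_clique`: `l = l₁ ++ u :: l₂ ++ w :: l₃` with `u, w ∈ A` not adjacent: `P_u EE l₂ P_w =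
R P_u P_w + O(ε)`. `EE_P`: `l = l₁ ++ v :: l₂`, `P_v EE l₁ (1 - P_v) = R P_v (1 - P_v) + O(ε) = O(ε)`.
`EE_apply`: `P_v EE l₂ x = R P_v x + O(ε) ‖x‖`.
-/

set_option autoImplicit false

open Finset

namespace Pool.Agent.H65.BU

variable {V X : Type} [DecidableEq V] [NormedAddCommGroup X] [NormedSpace ℂ X] {G : SimpleGraph V}
  {P : V → X →L[ℂ] X} {ε : ℝ}

private theorem ExA_nil (P : V → X →L[ℂ] X) (A : Finset V) : EE P [] A = 1 := rfl

private theorem ExA_cons (P : V → X →L[ℂ] X) (w : V) (l : List V) (A : Finset V) :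
    EE P (w :: l) A = (if w ∈ A then P w else 1 - P w) * EE P l A := by
  unfold EE
  rw [List.map_cons, List.prod_cons]

private theorem ExA_append (P : V → X →L[ℂ] X) (l l' : List V) (A : Finset V) :
    EE P (l ++ l') A = EE P l A * EE P l' A := by
  unfold EE
  rw [List.map_append, List.prod_append]

private theorem ExA_congr (P : V → X →L[ℂ] X) {l : List V} {A B : Finset V}
    (h : ∀ v ∈ l, v ∈ A ↔ v ∈ B) : EE P l A = EE P l B := by
  unfold EE
  congr 1
  refine List.map_congr_left fun v hv => ?_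
  by_cases h1 : v ∈ A
  · rw [if_pos h1, if_pos ((h v hv).1 h1)]
  · rw [if_neg h1, if_neg fun h2 => h1 ((h v hv).2 h2)]

private theorem ExA_sum (P : V → X →L[ℂ] X) {l : List V} (hl : l.Nodup) :
    ∑ A ∈ l.toFinset.powerset, EE P l A = 1 := by
  induction l with
  | nil =>
    rw [List.toFinset_nil, powerset_empty, sum_singleton, ExA_nil]
  | cons w l ih =>
    obtain ⟨hw, hl⟩ := List.nodup_cons.1 hl
    have hw' : w ∉ l.toFinset := fun h => hw (List.mem_toFinset.1 h)
    rw [List.toFinset_cons, sum_powerset_insert hw', ← sum_add_distrib]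
    have h1 : ∀ A ∈ l.toFinset.powerset, EE P (w :: l) A + EE P (w :: l) (insert w A) =
        EE P l A := by
      intro A hA
      have h2 : w ∉ A := fun h => hw' (mem_powerset.1 hA h)
      rw [ExA_cons, ExA_cons, if_neg h2, if_pos (mem_insert_self w A),
        ExA_congr P (A := insert w A) (B := A) (l := l) (fun v hv => by
          rw [mem_insert]
          constructor
          · rintro (rfl | h)
            · exact absurd hv hw
            · exact h
          · exact Or.inr), ← add_mul, sub_add_cancel, one_mul]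
    rw [sum_congr rfl h1, ih hl]

theorem EE_sum [Fintype V] (P : V → X →L[ℂ] X) {l : List V} (hl : l.Nodup) (hm : ∀ v, v ∈ l) :
    ∑ A : Finset V, EE P l A = 1 := by
  have h1 : l.toFinset = univ := by
    ext v
    simp [hm v]
  have h2 := ExA_sum P hl
  rwa [h1, powerset_univ] at h2

private theorem ExA_one : ‖(1 : X →L[ℂ] X)‖ ≤ 1 := ContinuousLinearMap.norm_id_le

private theorem ExA_one_sub (hP : Small G P ε) (v : V) : ‖1 - P v‖ ≤ 2 := by
  refine (norm_sub_le _ _).trans ?_
  have h1 := hP.norm v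
  have h2 : ‖(1 : X →L[ℂ] X)‖ ≤ 1 := ExA_one
  linarith

private theorem ExA_F (hP : Small G P ε) (v : V) (A : Finset V) :
    ‖(if v ∈ A then P v else 1 - P v)‖ ≤ 2 := by
  split_ifs
  · exact (hP.norm v).trans (by norm_num)
  · exact ExA_one_sub hP v

theorem EE_norm (hP : Small G P ε) (l : List V) (A : Finset V) : ‖EE P l A‖ ≤ 2 ^ l.length := by
  induction l with
  | nil =>
    rw [ExA_nil, List.length_nil, pow_zero]
    exact ExA_one
  | cons w l ih =>
    rw [ExA_cons, List.length_cons, pow_succ, mul_comm]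
    exact (norm_mul_le _ _).trans ((mul_le_mul (ExA_F hP w A) ih (norm_nonneg _)
      (by norm_num)).trans (le_of_eq (mul_comm _ _)) |>.trans (le_of_eq (mul_comm _ _)))

private theorem ExA_mv (hP : Small G P ε) (hε : 0 ≤ ε) {l : List V} {v : V} (hv : v ∉ l)
    (A : Finset V) : ∃ R : X →L[ℂ] X, ‖R‖ ≤ 2 ^ l.length ∧
      ‖P v * EE P l A - R * P v‖ ≤ 4 ^ l.length * ε := by
  induction l with
  | nil =>
    refine ⟨1, ?_, ?_⟩
    · rw [List.length_nil, pow_zero]
      exact ExA_one
    · rw [ExA_nil, mul_one, one_mul, sub_self, norm_zero]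
      positivity
  | cons w l ih =>
    have hvw : v ≠ w := fun h => hv (h ▸ List.mem_cons_self)
    have hvl : v ∉ l := fun h => hv (List.mem_cons_of_mem w h)
    obtain ⟨R, hR, hD⟩ := ih hvl
    have hE := EE_norm hP l A
    have h2 : (0 : ℝ) ≤ 2 ^ l.length := by positivity
    have h24 : (2 : ℝ) ^ l.length ≤ 4 ^ l.length :=
      pow_le_pow_left₀ (by norm_num) (by norm_num) _
    have h4 : (0 : ℝ) ≤ 4 ^ l.length * ε := by positivity
    rw [List.length_cons, pow_succ, pow_succ, ExA_cons]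
    by_cases hadj : G.Adj v w
    · -- the factor commutes with `P v`
      set F : X →L[ℂ] X := if w ∈ A then P w else 1 - P w with hF
      have hc : P v * F = F * P v := by
        rw [hF]
        split_ifs
        · exact hP.comm v w hadj
        · rw [mul_sub, sub_mul, mul_one, one_mul, hP.comm v w hadj]
      have hFn : ‖F‖ ≤ 2 := ExA_F hP w A
      refine ⟨F * R, ?_, ?_⟩
      · refine (norm_mul_le _ _).trans ?_
        rw [mul_comm (2 ^ l.length) 2]
        exact mul_le_mul hFn hR (norm_nonneg _) (by norm_num)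
      · have e : P v * (F * EE P l A) - F * R * P v = F * (P v * EE P l A - R * P v) := by
          rw [← mul_assoc, hc, mul_sub, mul_assoc, mul_assoc]
        rw [e]
        refine (norm_mul_le _ _).trans ?_
        calc ‖F‖ * ‖P v * EE P l A - R * P v‖ ≤ 2 * (4 ^ l.length * ε) :=
              mul_le_mul hFn hD (norm_nonneg _) (by norm_num)
          _ ≤ 4 ^ l.length * 4 * ε := by linarith
    · have hs := hP.small v w hvw hadj
      by_cases hw : w ∈ A
      · refine ⟨0, ?_, ?_⟩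
        · rw [norm_zero]
          positivity
        · rw [if_pos hw, zero_mul, sub_zero, ← mul_assoc]
          refine (norm_mul_le _ _).trans ?_
          calc ‖P v * P w‖ * ‖EE P l A‖ ≤ ε * 2 ^ l.length :=
                mul_le_mul hs hE (norm_nonneg _) hε
            _ ≤ ε * 4 ^ l.length := mul_le_mul_of_nonneg_left h24 hε
            _ ≤ 4 ^ l.length * 4 * ε := by linarith
      · refine ⟨R, ?_, ?_⟩
        · linarith
        · have e : P v * ((1 - P w) * EE P l A) - R * P v =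
              (P v * EE P l A - R * P v) - P v * P w * EE P l A := by
            rw [sub_mul, one_mul, mul_sub, mul_assoc]
            abel
          rw [if_neg hw, e]
          refine (norm_sub_le _ _).trans ?_
          have h5 : ‖P v * P w * EE P l A‖ ≤ ε * 4 ^ l.length :=
            (norm_mul_le _ _).trans ((mul_le_mul hs hE (norm_nonneg _) hε).trans
              (mul_le_mul_of_nonneg_left h24 hε))
          linarith

/-- The estimate for the powers. -/
private theorem ExA_num {a b c n : ℕ} (hn : a + b + c + 1 ≤ n) {ε : ℝ} (hε : 0 ≤ ε) :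
    2 ^ a * (2 * (4 ^ b * ε)) * 2 ^ c ≤ 8 ^ n * ε := by
  have h1 : (2 : ℝ) ^ a ≤ 8 ^ a := pow_le_pow_left₀ (by norm_num) (by norm_num) _
  have h2 : (4 : ℝ) ^ b ≤ 8 ^ b := pow_le_pow_left₀ (by norm_num) (by norm_num) _
  have h3 : (2 : ℝ) ^ c ≤ 8 ^ c := pow_le_pow_left₀ (by norm_num) (by norm_num) _
  have h4 : (8 : ℝ) ^ (a + b + c + 1) ≤ 8 ^ n := pow_le_pow_right₀ (by norm_num) hn
  have h5 : (2 : ℝ) ^ a * 4 ^ b * 2 ^ c ≤ 8 ^ a * 8 ^ b * 8 ^ c :=
    mul_le_mul (mul_le_mul h1 h2 (by positivity) (by positivity)) h3 (by positivity)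
      (by positivity)
  calc (2 : ℝ) ^ a * (2 * (4 ^ b * ε)) * 2 ^ c = 2 * (2 ^ a * 4 ^ b * 2 ^ c) * ε := by ring
    _ ≤ 8 * (8 ^ a * 8 ^ b * 8 ^ c) * ε := by
        refine mul_le_mul_of_nonneg_right ?_ hε
        have : (0 : ℝ) ≤ 2 ^ a * 4 ^ b * 2 ^ c := by positivity
        linarith
    _ = 8 ^ (a + b + c + 1) * ε := by ring
    _ ≤ 8 ^ n * ε := mul_le_mul_of_nonneg_right h4 hε

private theorem ExA_nc (hP : Small G P ε) (hε : 0 ≤ ε) {l₁ l₂ l₃ : List V} {u w : V} {A : Finset V}
    (hu : u ∉ l₂) (huA : u ∈ A) (hwA : w ∈ A) (huw : u ≠ w) (hadj : ¬ G.Adj u w) :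
    ‖EE P (l₁ ++ u :: (l₂ ++ w :: l₃)) A‖ ≤ 8 ^ (l₁ ++ u :: (l₂ ++ w :: l₃)).length * ε := by
  obtain ⟨R, hR, hD⟩ := ExA_mv hP hε hu A
  have hs := hP.small u w huw hadj
  have h24 : (2 : ℝ) ^ l₂.length ≤ 4 ^ l₂.length :=
    pow_le_pow_left₀ (by norm_num) (by norm_num) _
  have e : P u * (EE P l₂ A * P w) = R * (P u * P w) + (P u * EE P l₂ A - R * P u) * P w := by
    rw [sub_mul, mul_assoc, mul_assoc]
    abel
  have h1 : ‖P u * (EE P l₂ A * P w)‖ ≤ 2 * (4 ^ l₂.length * ε) := by
    rw [e]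
    refine (norm_add_le _ _).trans ?_
    have h2 : ‖R * (P u * P w)‖ ≤ 2 ^ l₂.length * ε :=
      (norm_mul_le _ _).trans (mul_le_mul hR hs (norm_nonneg _) (by positivity))
    have h3 : ‖(P u * EE P l₂ A - R * P u) * P w‖ ≤ 4 ^ l₂.length * ε * 1 :=
      (norm_mul_le _ _).trans (mul_le_mul hD (hP.norm w) (norm_nonneg _) (by positivity))
    have h4 : (2 : ℝ) ^ l₂.length * ε ≤ 4 ^ l₂.length * ε := mul_le_mul_of_nonneg_right h24 hε
    linarith
  have e2 : EE P (l₁ ++ u :: (l₂ ++ w :: l₃)) A =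
      EE P l₁ A * (P u * (EE P l₂ A * P w)) * EE P l₃ A := by
    rw [ExA_append, ExA_cons, if_pos huA, ExA_append, ExA_cons, if_pos hwA]
    simp only [mul_assoc]
  rw [e2]
  refine (norm_mul_le _ _).trans ?_
  refine (mul_le_mul ((norm_mul_le _ _).trans (mul_le_mul (EE_norm hP l₁ A) h1 (norm_nonneg _)
    (by positivity))) (EE_norm hP l₃ A) (norm_nonneg _) (by positivity)).trans ?_
  refine ExA_num ?_ hε
  simp only [List.length_append, List.length_cons]
  omega

theorem EE_not_clique (hP : Small G P ε) (hε : 0 ≤ ε) {l : List V} (hl : l.Nodup) (hm : ∀ v, v ∈ l)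
    {A : Finset V} (hA : ¬ G.IsClique (A : Set V)) : ‖EE P l A‖ ≤ 8 ^ l.length * ε := by
  obtain ⟨u, hu, w, hw, huw, hadj⟩ : ∃ u ∈ A, ∃ w ∈ A, u ≠ w ∧ ¬ G.Adj u w := by
    by_contra hcon
    push Not at hcon
    exact hA fun u hu w hw huw => hcon u hu w hw huw
  obtain ⟨s, t, rfl⟩ := List.append_of_mem (hm u)
  have hw' := hm w
  rw [List.mem_append, List.mem_cons] at hw'
  rcases hw' with h | h | h
  · obtain ⟨s₁, s₂, rfl⟩ := List.append_of_mem h
    have e : s₁ ++ w :: s₂ ++ u :: t = s₁ ++ w :: (s₂ ++ u :: t) := by simp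
    rw [e] at hl ⊢
    have h1 : w ∉ s₂ := by
      have h2 := (List.nodup_append.1 hl).2.1
      exact fun h3 => (List.nodup_cons.1 h2).1 (List.mem_append_left _ h3)
    exact ExA_nc hP hε h1 hw hu huw.symm fun h2 => hadj h2.symm
  · exact absurd h.symm huw
  · obtain ⟨t₁, t₂, rfl⟩ := List.append_of_mem h
    have h1 : u ∉ t₁ := by
      have h2 := (List.nodup_append.1 hl).2.1
      exact fun h3 => (List.nodup_cons.1 h2).1 (List.mem_append_left _ h3)
    exact ExA_nc hP hε h1 hu hw huw hadj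

theorem EE_P (hP : Small G P ε) (hε : 0 ≤ ε) {l : List V} (hl : l.Nodup) (hm : ∀ v, v ∈ l)
    {A : Finset V} {v : V} (hv : v ∉ A) : ‖P v * EE P l A‖ ≤ 8 ^ l.length * ε := by
  obtain ⟨s, t, rfl⟩ := List.append_of_mem (hm v)
  have h1 : v ∉ s := fun h =>
    (List.nodup_append.1 hl).2.2 v h v List.mem_cons_self rfl
  obtain ⟨R, -, hD⟩ := ExA_mv hP hε h1 A
  have e0 : P v * (1 - P v) = 0 := by rw [mul_sub, mul_one, hP.idem, sub_self]
  have e : P v * EE P (s ++ v :: t) A =
      (P v * EE P s A - R * P v) * (1 - P v) * EE P t A := by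
    rw [ExA_append, ExA_cons, if_neg hv, sub_mul (P v * EE P s A) (R * P v) (1 - P v),
      mul_assoc R (P v) (1 - P v), e0, mul_zero, sub_zero]
    simp only [mul_assoc]
  rw [e]
  refine (norm_mul_le _ _).trans ?_
  refine (mul_le_mul ((norm_mul_le _ _).trans (mul_le_mul hD (ExA_one_sub hP v) (norm_nonneg _)
    (by positivity))) (EE_norm hP t A) (norm_nonneg _) (by positivity)).trans ?_
  have h2 := ExA_num (a := 0) (b := s.length) (c := t.length)
    (n := (s ++ v :: t).length) (by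
      simp only [List.length_append, List.length_cons]
      omega) hε
  rw [pow_zero, one_mul, mul_comm 2] at h2
  exact h2

theorem EE_apply (hP : Small G P ε) (hε : 0 ≤ ε) {l : List V} (hl : l.Nodup) (hm : ∀ v, v ∈ l)
    {A : Finset V} {v : V} (hv : v ∈ A) {x : X} (hx : P v x = 0) :
    ‖EE P l A x‖ ≤ 8 ^ l.length * ε * ‖x‖ := by
  obtain ⟨s, t, rfl⟩ := List.append_of_mem (hm v)
  have h1 : v ∉ t := by
    have h2 := (List.nodup_append.1 hl).2.1
    exact (List.nodup_cons.1 h2).1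
  obtain ⟨R, -, hD⟩ := ExA_mv hP hε h1 A
  have e : EE P (s ++ v :: t) A x = EE P s A ((P v * EE P t A - R * P v) x) := by
    rw [ExA_append, ExA_cons, if_pos hv]
    show EE P s A (P v (EE P t A x)) = EE P s A (P v (EE P t A x) - R (P v x))
    rw [hx, map_zero, sub_zero]
  rw [e]
  refine (ContinuousLinearMap.le_opNorm _ _).trans ?_
  have h3 : ‖(P v * EE P t A - R * P v) x‖ ≤ 4 ^ t.length * ε * ‖x‖ :=
    (ContinuousLinearMap.le_opNorm _ _).trans (mul_le_mul_of_nonneg_right hD (norm_nonneg _))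
  refine (mul_le_mul (EE_norm hP s A) h3 (norm_nonneg _) (by positivity)).trans ?_
  rw [← mul_assoc]
  refine mul_le_mul_of_nonneg_right ?_ (norm_nonneg _)
  have h2 := ExA_num (a := s.length) (b := t.length) (c := 0)
    (n := (s ++ v :: t).length) (by
      simp only [List.length_append, List.length_cons]
      omega) hε
  rw [pow_zero, mul_one] at h2
  refine le_trans ?_ h2
  have h4 : 0 ≤ 2 ^ s.length * (4 ^ t.length * ε) := by positivity
  linarith

end Pool.Agent.H65.BU
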