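import Pool.Agent.H65.BU.ExA
import Pool.Agent.H65.BU.Eta

/-!
# Project BU: the approximate contraction

PROOF. `l` = a list of all vertices, `E_A = EE P l A`. For a clique `A` let `f^A σ = E_A (f σ)` if `σ` is disjoint from
`A`, else 0. At `ρ`: `bd f^A ρ = - ∑ (v ∈ A) ± E_A f (ρ + v)` (for `ρ` disjoint from `A`; since `bd f = 0`), which is
`O(ε) ‖f‖` by `EE_apply`; for `ρ` not disjoint it is 0. `h₀ τ = ∑ (A clique) ∑ ρ, η^A τ ρ • f^A ρ`,
`h τ = (∏ (v ∈ τ) (1 - P v)) (h₀ τ)` (a product in some fixed order; they commute on a clique): `P v (h τ) = 0` for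
`v ∈ τ`, and `‖h τ - h₀ τ‖ ≤ C ε ‖f‖` since `P v E_A = O(ε)` for `v ∈ τ`, `τ` disjoint from `A` (`EE_P`).
`bd h₀ = ∑_A (f^A - ζ^A bd f^A)`, `∑ (A clique) f^A = f + O(ε)`: `EE_sum`, `EE_not_clique`, `EE_apply` (`σ` meets `A`).
The norm is the maximum norm of `Finset V → X`.
-/

set_option autoImplicit false
set_option linter.unusedSectionVars false

open Finset

namespace Pool.Agent.H65.BU

open Pool.Agent.H78.RA

section aux

variable {V X : Type} [Fintype V] [DecidableEq V] [NormedAddCommGroup X] [NormedSpace ℂ X]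

omit [Fintype V] in
private theorem exb_sg (ν : V → ℕ) (τ : Finset V) (v : V) (x : X) : ‖sg ν τ v • x‖ = ‖x‖ := by
  unfold sg
  rcases neg_one_pow_eq_or ℤ ((τ.filter fun u => ν u < ν v).card) with h | h
  · rw [h, one_smul]
  · rw [h, neg_smul, one_smul, norm_neg]

private theorem exb_bd (ν : V → ℕ) (g : Finset V → X) (σ : Finset V) {c : ℝ}
    (hg : ∀ v ∉ σ, ‖g (insert v σ)‖ ≤ c) (hc : 0 ≤ c) : ‖bd ν g σ‖ ≤ Fintype.card V * c := by
  unfold bd
  refine (norm_sum_le _ _).trans ?_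
  have h1 : ∑ v ∈ σᶜ, ‖sg ν σ v • g (insert v σ)‖ ≤ ∑ _v ∈ σᶜ, c :=
    sum_le_sum fun v hv => by
      rw [exb_sg]
      exact hg v (mem_compl.1 hv)
  refine h1.trans ?_
  rw [sum_const, nsmul_eq_mul]
  have h2 : ((σᶜ).card : ℝ) ≤ Fintype.card V := by
    exact_mod_cast card_le_univ _
  exact mul_le_mul_of_nonneg_right h2 hc

private theorem exb_bd_sum {ι : Type} (ν : V → ℕ) (s : Finset ι) (g : ι → Finset V → X) (σ : Finset V) :
    bd ν (fun τ => ∑ A ∈ s, g A τ) σ = ∑ A ∈ s, bd ν (g A) σ := by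
  unfold bd
  rw [sum_comm]
  refine sum_congr rfl fun v _ => ?_
  rw [smul_sum]

private theorem exb_bd_sub (ν : V → ℕ) (g g' : Finset V → X) (σ : Finset V) :
    bd ν (fun τ => g τ - g' τ) σ = bd ν g σ - bd ν g' σ := by
  unfold bd
  rw [← sum_sub_distrib]
  refine sum_congr rfl fun v _ => ?_
  rw [smul_sub]

/-- the product of the `1 - P v` over a list -/
private noncomputable def exb_R (P : V → X →L[ℂ] X) (l : List V) : X →L[ℂ] X :=
  (l.map fun v => 1 - P v).prod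

omit [Fintype V] [DecidableEq V] in
private theorem exb_R_cons (P : V → X →L[ℂ] X) (v : V) (l : List V) :
    exb_R P (v :: l) = (1 - P v) * exb_R P l := by
  unfold exb_R
  rw [List.map_cons, List.prod_cons]

omit [Fintype V] [DecidableEq V] in
private theorem exb_one {P : V → X →L[ℂ] X} (hP : ∀ v, ‖P v‖ ≤ 1) (v : V) (x : X) :
    ‖(1 - P v) x‖ ≤ 2 * ‖x‖ := by
  have h1 : (1 - P v) x = x - P v x := rfl
  have h2 := (P v).le_opNorm x
  have h3 := hP v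
  have h4 := norm_sub_le x (P v x)
  rw [h1]
  nlinarith [norm_nonneg x]

omit [Fintype V] [DecidableEq V] in
private theorem exb_R_norm {P : V → X →L[ℂ] X} (hP : ∀ v, ‖P v‖ ≤ 1) (l : List V) (x : X) :
    ‖exb_R P l x‖ ≤ 2 ^ l.length * ‖x‖ := by
  induction l with
  | nil =>
    show ‖x‖ ≤ _
    simp
  | cons v l ih =>
    rw [exb_R_cons]
    show ‖(1 - P v) (exb_R P l x)‖ ≤ _
    refine (exb_one hP v _).trans ?_
    rw [List.length_cons, pow_succ]
    linarith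

omit [Fintype V] [DecidableEq V] in
private theorem exb_R_sub {P : V → X →L[ℂ] X} (hP : ∀ v, ‖P v‖ ≤ 1) (l : List V) (x : X) {δ : ℝ}
    (hδ : 0 ≤ δ) (hx : ∀ v ∈ l, ‖P v x‖ ≤ δ) : ‖exb_R P l x - x‖ ≤ 2 ^ l.length * δ := by
  have key : ‖exb_R P l x - x‖ ≤ (2 ^ l.length - 1) * δ := by
    induction l with
    | nil =>
      show ‖x - x‖ ≤ _
      simp
    | cons v l ih =>
      have h1 := ih fun u hu => hx u (List.mem_cons_of_mem v hu)
      rw [exb_R_cons]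
      have h2 : ((1 - P v) * exb_R P l) x - x = (1 - P v) (exb_R P l x - x) - P v x := by
        show (1 - P v) (exb_R P l x) - x = _
        rw [map_sub]
        have h3 : (1 - P v) x = x - P v x := rfl
        rw [h3]
        abel
      rw [h2]
      refine (norm_sub_le _ _).trans ?_
      have h3 := exb_one hP v (exb_R P l x - x)
      have h4 := hx v List.mem_cons_self
      rw [List.length_cons, pow_succ]
      nlinarith
  refine key.trans ?_
  nlinarith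

omit [Fintype V] [DecidableEq V] in
/-- on a clique the product is annihilated by all `P v` -/
private theorem exb_R_kill {P : V → X →L[ℂ] X} (hi : ∀ v, P v * P v = P v) (l : List V)
    (hc : ∀ u ∈ l, ∀ v ∈ l, P u * P v = P v * P u) (v : V) (hv : v ∈ l) : P v * exb_R P l = 0 := by
  induction l with
  | nil => exact absurd hv List.not_mem_nil
  | cons u l ih =>
    rw [exb_R_cons]
    have h1 : P v * (1 - P u) = (1 - P u) * P v := by
      rw [mul_sub, sub_mul, mul_one, one_mul, hc v hv u List.mem_cons_self]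
    by_cases h2 : v ∈ l
    · rw [← mul_assoc, h1, mul_assoc,
        ih (fun a ha b hb => hc a (List.mem_cons_of_mem u ha) b (List.mem_cons_of_mem u hb)) h2, mul_zero]
    · obtain rfl : v = u := (List.mem_cons.1 hv).resolve_right h2
      rw [← mul_assoc, mul_sub, mul_one, hi, sub_self, zero_mul]

end aux

theorem exists_approx {V : Type} [Fintype V] [DecidableEq V] (G : SimpleGraph V) (ν : V → ℕ) (i : ℕ)
    (hG : ∀ A : Finset V, G.IsClique (A : Set V) → Ex ℂ ν (PP G A i) (PP G A (i + 1))) :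
    ∃ C : ℝ, 0 ≤ C ∧ ∀ (ε : ℝ) (X : Type) [NormedAddCommGroup X] [NormedSpace ℂ X]
      (P : V → X →L[ℂ] X), 0 ≤ ε → Small G P ε → ∀ f : Finset V → X,
      (∀ σ, f σ ≠ 0 → G.IsClique (σ : Set V) ∧ σ.card = i) → (∀ σ, ∀ v ∈ σ, P v (f σ) = 0) →
      bd ν f = 0 → ∃ h : Finset V → X,
        (∀ σ, h σ ≠ 0 → G.IsClique (σ : Set V) ∧ σ.card = i + 1) ∧ (∀ σ, ∀ v ∈ σ, P v (h σ) = 0) ∧
        ‖h‖ ≤ C * ‖f‖ ∧ ‖f - bd ν h‖ ≤ C * ε * ‖f‖ := by
  classical
  -- the contractions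
  have hfaces : ∀ A : Finset V, Faces (PP G A (i + 1)) (PP G A i) := by
    rintro A τ v hv ⟨h1, h2, h3⟩
    refine ⟨h1.subset (by rw [coe_insert]; exact Set.subset_insert _ _), ?_, ?_⟩
    · rw [card_insert_of_notMem hv] at h2
      omega
    · exact disjoint_of_subset_left (subset_insert v τ) h3
  have hex : ∀ A : Finset V, ∃ η ζ : Finset V → Finset V → ℂ, G.IsClique (A : Set V) →
      (∀ τ σ, η τ σ ≠ 0 → PP G A (i + 1) τ) ∧
      ∀ (E : Type) [AddCommGroup E] [Module ℂ E] (f : Finset V → E), (∀ σ, f σ ≠ 0 → PP G A i σ) →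
        ∀ σ, f σ = bd ν (fun τ => ∑ ρ, η τ ρ • f ρ) σ + ∑ ρ, ζ σ ρ • bd ν f ρ := by
    intro A
    by_cases hA : G.IsClique (A : Set V)
    · obtain ⟨η, ζ, h1, h2⟩ := exists_eta ν (hfaces A) (hG A hA)
      exact ⟨η, ζ, fun _ => ⟨h1, h2⟩⟩
    · exact ⟨0, 0, fun h => absurd h hA⟩
  choose η ζ hηζ using hex
  obtain ⟨cl, hcl⟩ : ∃ cl : Finset (Finset V), ∀ A, A ∈ cl ↔ G.IsClique (A : Set V) :=
    ⟨univ.filter fun A => G.IsClique (A : Set V), fun A => by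
      rw [mem_filter]; exact ⟨fun h => h.2, fun h => ⟨mem_univ _, h⟩⟩⟩
  obtain ⟨n, hn⟩ : ∃ n : ℕ, n = Fintype.card V := ⟨_, rfl⟩
  obtain ⟨H, hH⟩ : ∃ H : ℝ, H = ∑ A ∈ cl, ∑ τ, ∑ ρ, ‖η A τ ρ‖ := ⟨_, rfl⟩
  obtain ⟨Z, hZ⟩ : ∃ Z : ℝ, Z = ∑ A ∈ cl, ∑ τ, ∑ ρ, ‖ζ A τ ρ‖ := ⟨_, rfl⟩
  have hH0 : 0 ≤ H := by rw [hH]; positivity
  have hZ0 : 0 ≤ Z := by rw [hZ]; positivity
  have hHτ : ∀ τ, ∑ A ∈ cl, ∑ ρ, ‖η A τ ρ‖ ≤ H := by
    intro τ
    rw [hH]
    refine sum_le_sum fun A _ => ?_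
    exact single_le_sum (f := fun τ => ∑ ρ, ‖η A τ ρ‖) (fun τ _ => by positivity) (mem_univ τ)
  have hZτ : ∀ τ, ∑ A ∈ cl, ∑ ρ, ‖ζ A τ ρ‖ ≤ Z := by
    intro τ
    rw [hZ]
    refine sum_le_sum fun A _ => ?_
    exact single_le_sum (f := fun τ => ∑ ρ, ‖ζ A τ ρ‖) (fun τ _ => by positivity) (mem_univ τ)
  refine ⟨2 ^ n * (H * 2 ^ n) + (2 ^ n * 8 ^ n + Z * (n * 8 ^ n) + n * (2 ^ n * (H * 8 ^ n))), by positivity, ?_⟩
  intro ε X _ _ P hε hP f hf hfP hf0
  obtain ⟨l, hl, hm, hlen⟩ : ∃ l : List V, l.Nodup ∧ (∀ v, v ∈ l) ∧ l.length = n :=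
    ⟨univ.toList, nodup_toList _, fun v => mem_toList.2 (mem_univ v), by rw [length_toList, hn]; rfl⟩
  have e1 : ∀ A, ‖EE P l A‖ ≤ 2 ^ n := fun A => hlen ▸ EE_norm hP l A
  have e2 : ∀ A : Finset V, ¬ G.IsClique (A : Set V) → ‖EE P l A‖ ≤ 8 ^ n * ε :=
    fun A hA => hlen ▸ EE_not_clique hP hε hl hm hA
  have e3 : ∀ (A : Finset V) v, v ∉ A → ‖P v * EE P l A‖ ≤ 8 ^ n * ε :=
    fun A v hv => hlen ▸ EE_P hP hε hl hm hv
  have e4 : ∀ (A : Finset V) v, v ∈ A → ∀ x, P v x = 0 → ‖EE P l A x‖ ≤ 8 ^ n * ε * ‖x‖ :=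
    fun A v hv x hx => hlen ▸ EE_apply hP hε hl hm hv hx
  have hfn : ∀ σ, ‖f σ‖ ≤ ‖f‖ := fun σ => norm_le_pi_norm f σ
  have hf00 : 0 ≤ ‖f‖ := norm_nonneg f
  -- the pieces
  obtain ⟨F, hF⟩ : ∃ F : Finset V → Finset V → X, ∀ A σ, F A σ = if Disjoint σ A then EE P l A (f σ) else 0 :=
    ⟨_, fun _ _ => rfl⟩
  have hFP : ∀ A σ, F A σ ≠ 0 → PP G A i σ := by
    intro A σ h
    rw [hF] at h
    by_cases hd : Disjoint σ A
    · rw [if_pos hd] at h
      have h1 : f σ ≠ 0 := fun h2 => h (by rw [h2, map_zero])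
      exact ⟨(hf σ h1).1, (hf σ h1).2, hd⟩
    · rw [if_neg hd] at h
      exact absurd rfl h
  have hFn : ∀ A σ, ‖F A σ‖ ≤ 2 ^ n * ‖f‖ := by
    intro A σ
    rw [hF]
    by_cases hd : Disjoint σ A
    · rw [if_pos hd]
      refine ((EE P l A).le_opNorm _).trans ?_
      exact mul_le_mul (e1 A) (hfn σ) (norm_nonneg _) (by positivity)
    · rw [if_neg hd, norm_zero]
      positivity
  have hFv : ∀ A σ v, v ∉ A → ‖P v (F A σ)‖ ≤ 8 ^ n * ε * ‖f‖ := by
    intro A σ v hv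
    rw [hF]
    by_cases hd : Disjoint σ A
    · rw [if_pos hd]
      show ‖(P v * EE P l A) (f σ)‖ ≤ _
      refine ((P v * EE P l A).le_opNorm _).trans ?_
      exact mul_le_mul (e3 A v hv) (hfn σ) (norm_nonneg _) (by positivity)
    · rw [if_neg hd, map_zero, norm_zero]
      positivity
  -- the boundary of the pieces
  have hFb : ∀ A ρ, ‖bd ν (F A) ρ‖ ≤ n * (8 ^ n * ε * ‖f‖) := by
    intro A ρ
    by_cases hd : Disjoint ρ A
    · have h1 : bd ν (F A) ρ = bd ν (fun σ => F A σ - EE P l A (f σ)) ρ := by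
        rw [exb_bd_sub]
        have h2 : bd ν (fun σ => EE P l A (f σ)) ρ = 0 := by
          have h3 := map_bd ν (EE P l A : X →+ X) f ρ
          have h4 : bd ν (fun σ => EE P l A (f σ)) ρ = EE P l A (bd ν f ρ) := h3
          rw [h4, hf0]
          exact map_zero _
        rw [h2, sub_zero]
      rw [h1, hn]
      refine exb_bd ν _ ρ (fun v hv => ?_) (by positivity)
      rw [hF]
      by_cases hd' : Disjoint (insert v ρ) A
      · rw [if_pos hd', sub_self, norm_zero]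
        positivity
      · rw [if_neg hd', zero_sub, norm_neg]
        have hvA : v ∈ A := by
          by_contra h2
          exact hd' (disjoint_insert_left.2 ⟨h2, hd⟩)
        rw [← hn]
        refine (e4 A v hvA _ (hfP _ v (mem_insert_self v ρ))).trans ?_
        exact mul_le_mul_of_nonneg_left (hfn _) (by positivity)
    · rw [hn]
      refine exb_bd ν _ ρ (fun v hv => ?_) (by positivity)
      have hd' : ¬ Disjoint (insert v ρ) A := fun h => hd (disjoint_of_subset_left (subset_insert v ρ) h)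
      rw [hF, if_neg hd', norm_zero]
      positivity
  -- the sum of the pieces
  have hFs : ∀ σ, ‖f σ - ∑ A ∈ cl, F A σ‖ ≤ 2 ^ n * (8 ^ n * ε * ‖f‖) := by
    intro σ
    have h1 : f σ = ∑ A : Finset V, EE P l A (f σ) := by
      have h2 : (∑ A : Finset V, EE P l A) (f σ) = (1 : X →L[ℂ] X) (f σ) := by rw [EE_sum P hl hm]
      rw [_root_.sum_apply] at h2
      exact h2.symm
    have h2 : ∑ A ∈ cl, F A σ = ∑ A : Finset V, if A ∈ cl then F A σ else 0 := by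
      rw [← sum_filter, filter_mem_eq_inter, univ_inter]
    have h3 : f σ - ∑ A ∈ cl, F A σ = ∑ A : Finset V, (EE P l A (f σ) - if A ∈ cl then F A σ else 0) := by
      rw [sum_sub_distrib, ← h1, h2]
    rw [h3]
    refine (norm_sum_le _ _).trans ?_
    have h4 : ∀ A ∈ (univ : Finset (Finset V)),
        ‖EE P l A (f σ) - if A ∈ cl then F A σ else 0‖ ≤ 8 ^ n * ε * ‖f‖ := by
      intro A _
      by_cases hA : A ∈ cl
      · rw [if_pos hA, hF]
        by_cases hd : Disjoint σ A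
        · rw [if_pos hd, sub_self, norm_zero]
          positivity
        · rw [if_neg hd, sub_zero]
          obtain ⟨v, hvσ, hvA⟩ := not_disjoint_iff.1 hd
          refine (e4 A v hvA _ (hfP σ v hvσ)).trans ?_
          exact mul_le_mul_of_nonneg_left (hfn _) (by positivity)
      · rw [if_neg hA, sub_zero]
        refine ((EE P l A).le_opNorm _).trans ?_
        exact mul_le_mul (e2 A fun h => hA ((hcl A).2 h)) (hfn σ) (norm_nonneg _) (by positivity)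
    refine (sum_le_sum h4).trans ?_
    rw [sum_const, card_univ, Fintype.card_finset, ← hn, nsmul_eq_mul]
    push_cast
    exact le_refl _
  -- the first contraction
  obtain ⟨h₀, hh₀⟩ : ∃ h₀ : Finset V → X, ∀ τ, h₀ τ = ∑ A ∈ cl, ∑ ρ, η A τ ρ • F A ρ := ⟨_, fun _ => rfl⟩
  have hsum : ∀ (τ : Finset V) (g : Finset V → Finset V → X) (θ : Finset V → Finset V → Finset V → ℂ) (c T : ℝ),
      0 ≤ c → (∀ A ∈ cl, ∀ ρ, θ A τ ρ ≠ 0 → ‖g A ρ‖ ≤ c) → (∑ A ∈ cl, ∑ ρ, ‖θ A τ ρ‖ ≤ T) →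
      ‖∑ A ∈ cl, ∑ ρ, θ A τ ρ • g A ρ‖ ≤ T * c := by
    intro τ g θ c T hc hg hT
    refine (norm_sum_le _ _).trans ?_
    have h1 : ∑ A ∈ cl, ‖∑ ρ, θ A τ ρ • g A ρ‖ ≤ ∑ A ∈ cl, (∑ ρ, ‖θ A τ ρ‖) * c := by
      refine sum_le_sum fun A hA => (norm_sum_le _ _).trans ?_
      rw [sum_mul]
      refine sum_le_sum fun ρ _ => ?_
      rw [norm_smul]
      by_cases h2 : θ A τ ρ = 0
      · rw [h2, norm_zero, zero_mul, zero_mul]
      · exact mul_le_mul_of_nonneg_left (hg A hA ρ h2) (norm_nonneg _)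
    refine h1.trans ?_
    rw [← sum_mul]
    exact mul_le_mul_of_nonneg_right hT hc
  have hh₀s : ∀ τ, h₀ τ ≠ 0 → G.IsClique (τ : Set V) ∧ τ.card = i + 1 := by
    intro τ h
    rw [hh₀] at h
    obtain ⟨A, hA, h1⟩ := exists_ne_zero_of_sum_ne_zero h
    obtain ⟨ρ, -, h2⟩ := exists_ne_zero_of_sum_ne_zero h1
    have h3 : η A τ ρ ≠ 0 := fun h4 => h2 (by rw [h4, zero_smul])
    have h4 := (hηζ A ((hcl A).1 hA)).1 τ ρ h3
    exact ⟨h4.1, h4.2.1⟩
  have hh₀n : ∀ τ, ‖h₀ τ‖ ≤ H * (2 ^ n * ‖f‖) := fun τ => by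
    rw [hh₀]
    exact hsum τ F η _ H (by positivity) (fun A _ ρ _ => hFn A ρ) (hHτ τ)
  have hh₀v : ∀ τ, ∀ v ∈ τ, ‖P v (h₀ τ)‖ ≤ H * (8 ^ n * ε * ‖f‖) := by
    intro τ v hv
    have h1 : P v (h₀ τ) = ∑ A ∈ cl, ∑ ρ, η A τ ρ • P v (F A ρ) := by
      rw [hh₀, map_sum]
      refine sum_congr rfl fun A _ => ?_
      rw [map_sum]
      exact sum_congr rfl fun ρ _ => by rw [map_smul]
    rw [h1]
    refine hsum τ (fun A ρ => P v (F A ρ)) η _ H (by positivity) (fun A hA ρ h2 => hFv A ρ v ?_) (hHτ τ)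
    have h3 := (hηζ A ((hcl A).1 hA)).1 τ ρ h2
    exact fun hvA => disjoint_left.1 h3.2.2 hv hvA
  have hh₀b : ∀ σ, bd ν h₀ σ = ∑ A ∈ cl, F A σ - ∑ A ∈ cl, ∑ ρ, ζ A σ ρ • bd ν (F A) ρ := by
    intro σ
    have h1 : h₀ = fun τ => ∑ A ∈ cl, ∑ ρ, η A τ ρ • F A ρ := funext hh₀
    rw [h1, exb_bd_sum, ← sum_sub_distrib]
    refine sum_congr rfl fun A hA => ?_
    have h2 := (hηζ A ((hcl A).1 hA)).2 X (F A) (hFP A) σ
    rw [eq_sub_iff_add_eq]
    exact h2.symm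
  -- the contraction
  obtain ⟨h, hh⟩ : ∃ h : Finset V → X, ∀ τ, h τ = exb_R P τ.toList (h₀ τ) := ⟨_, fun _ => rfl⟩
  have hlen' : ∀ τ : Finset V, (2 : ℝ) ^ τ.toList.length ≤ 2 ^ n := by
    intro τ
    refine pow_le_pow_right₀ (by norm_num) ?_
    rw [length_toList, hn]
    exact card_le_univ τ
  have hhs : ∀ τ, h τ ≠ 0 → G.IsClique (τ : Set V) ∧ τ.card = i + 1 := by
    intro τ h1
    refine hh₀s τ fun h2 => h1 ?_
    rw [hh, h2, map_zero]
  have hhP : ∀ σ, ∀ v ∈ σ, P v (h σ) = 0 := by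
    intro σ v hv
    by_cases h1 : h σ = 0
    · rw [h1, map_zero]
    · have h2 := (hhs σ h1).1
      have h3 : P v * exb_R P σ.toList = 0 := by
        refine exb_R_kill hP.idem _ (fun u hu w hw => ?_) v (mem_toList.2 hv)
        by_cases huw : u = w
        · rw [huw]
        · exact hP.comm u w (h2 (mem_coe.2 (mem_toList.1 hu)) (mem_coe.2 (mem_toList.1 hw)) huw)
      rw [hh]
      show (P v * exb_R P σ.toList) (h₀ σ) = 0
      rw [h3]
      rfl
  have hhn : ∀ τ, ‖h τ‖ ≤ 2 ^ n * (H * 2 ^ n) * ‖f‖ := by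
    intro τ
    rw [hh]
    refine (exb_R_norm hP.norm _ _).trans ?_
    have h1 := mul_le_mul (hlen' τ) (hh₀n τ) (norm_nonneg _) (by positivity)
    refine h1.trans (le_of_eq ?_)
    ring
  have hhd : ∀ τ, ‖h τ - h₀ τ‖ ≤ 2 ^ n * (H * (8 ^ n * ε * ‖f‖)) := by
    intro τ
    rw [hh]
    refine (exb_R_sub hP.norm _ _ (δ := H * (8 ^ n * ε * ‖f‖)) (by positivity)
      fun v hv => hh₀v τ v (mem_toList.1 hv)).trans ?_
    exact mul_le_mul_of_nonneg_right (hlen' τ) (by positivity)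
  refine ⟨h, hhs, hhP, ?_, ?_⟩
  · rw [pi_norm_le_iff_of_nonneg (by positivity)]
    intro τ
    refine (hhn τ).trans (mul_le_mul_of_nonneg_right ?_ hf00)
    have : 0 ≤ (2 : ℝ) ^ n * 8 ^ n + Z * (n * 8 ^ n) + n * (2 ^ n * (H * 8 ^ n)) := by positivity
    linarith
  · rw [pi_norm_le_iff_of_nonneg (by positivity)]
    intro σ
    have h1 : (f - bd ν h) σ = (f σ - ∑ A ∈ cl, F A σ) + ∑ A ∈ cl, ∑ ρ, ζ A σ ρ • bd ν (F A) ρ -
        bd ν (fun τ => h τ - h₀ τ) σ := by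
      rw [exb_bd_sub, hh₀b, Pi.sub_apply]
      abel
    rw [h1]
    have h2 := hFs σ
    have h3 := hsum σ (fun A ρ => bd ν (F A) ρ) ζ (n * (8 ^ n * ε * ‖f‖)) Z (by positivity)
      (fun A _ ρ _ => hFb A ρ) (hZτ σ)
    have h4 := exb_bd ν (fun τ => h τ - h₀ τ) σ (fun v _ => hhd (insert v σ)) (by positivity)
    rw [← hn] at h4
    have h5 : 0 ≤ 2 ^ n * (H * 2 ^ n) * ε * ‖f‖ := by positivity
    refine (norm_sub_le _ _).trans ((add_le_add (norm_add_le _ _) le_rfl).trans ?_)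
    have h6 : (2 ^ n * (H * 2 ^ n) + (2 ^ n * 8 ^ n + Z * (n * 8 ^ n) + n * (2 ^ n * (H * 8 ^ n)))) * ε * ‖f‖ =
        2 ^ n * (H * 2 ^ n) * ε * ‖f‖ + (2 ^ n * (8 ^ n * ε * ‖f‖) + Z * (n * (8 ^ n * ε * ‖f‖)) +
          n * (2 ^ n * (H * (8 ^ n * ε * ‖f‖)))) := by ring
    rw [h6]
    linarith

end Pool.Agent.H65.BU
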