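import Pool.Agent.H65.BU.Red
import Pool.Agent.H65.BU.Two
import Pool.Agent.H65.BU.MGP

/-!
# Project BU: Q1 for graph products of large finite groups
-/

set_option autoImplicit false

open Finset

namespace Pool.Agent.H65.BU

open Pool.Agent.H65.RA Pool.Agent.H65.RM Pool.Agent.H37.TM Pool.Agent.H85.DV

/-- **Theorem L2.** -/
theorem exists_l2zero {V : Type} [Fintype V] [DecidableEq V] (G : SimpleGraph V) :
    ∃ N : ℕ, ∀ (Γ : V → Type) [∀ v, Group (Γ v)] [∀ v, Fintype (Γ v)],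
      (∀ v, N ≤ Fintype.card (Γ v)) → ∀ i : ℕ,
      (∀ A : Finset V, G.IsClique (A : Set V) →
        HZ (G.comap (Subtype.val : {v // v ∉ A} → V)) i) →
      L2ZeroD G (fun v => (io G : Γ v →* GP G Γ)) i := by
  obtain ⟨N, hN⟩ := exists_exR G
  refine ⟨N, fun Γ _ _ hc i hG => l2zeroD_of_mod (fun u v h a b => io_comm h a b)
    fun ν hν z hz hb ε hε => ?_⟩
  obtain ⟨y, hy, hyz⟩ := hN Γ hc i (fun A ν hν hA => ex_of_hz_sub (hG A hA) ν hν) ν hν z hz hb
  refine ⟨y, hy, ?_⟩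
  simp only [hyz, sub_self, norm_zero]
  simpa using hε

/-- **Q1 for graph products of large finite groups.** -/
theorem exists_q1 {V : Type} [Fintype V] [DecidableEq V] (G : SimpleGraph V) :
    ∃ N : ℕ, ∀ (Γ : V → Type) [∀ v, Group (Γ v)] [∀ v, Fintype (Γ v)],
      (∀ v, N ≤ Fintype.card (Γ v)) → ∀ (U : Type) [DecidableEq U] [MulAction (GP G Γ) U]
      (K B : Set (Finset U)) (n : ℕ), Mfd K B n → Acyc K → PAct (GP G Γ) K B →
      ∀ i : ℕ, n < 2 * i → L2ZeroD G (fun v => (io G : Γ v →* GP G Γ)) i := by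
  obtain ⟨N, hN⟩ := exists_l2zero G
  refine ⟨max N 3, fun Γ _ _ hc U _ _ K B n hM hK hA i hi => ?_⟩
  obtain ⟨k, rfl⟩ : ∃ k, i = k + 1 := ⟨i - 1, by omega⟩
  refine hN Γ (fun v => le_trans (le_max_left N 3) (hc v)) (k + 1) fun A _ => ?_
  refine hz_gp_sub G Γ (fun v => ?_) hM hK hA (by omega) (fun v => v ∉ A)
  have h3 : 2 < Fintype.card (Γ v) := lt_of_lt_of_le (by norm_num) (le_trans (le_max_right N 3) (hc v))
  obtain ⟨a, b, c, hab, hac, hbc⟩ := Fintype.two_lt_card_iff.1 h3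
  by_cases ha : a = 1
  · exact ⟨b, c, fun h => hab (ha.trans h.symm), fun h => hac (ha.trans h.symm), hbc⟩
  · by_cases hb : b = 1
    · exact ⟨a, c, ha, fun h => hbc (hb.trans h.symm), hac⟩
    · exact ⟨a, b, ha, hb, hab⟩

end Pool.Agent.H65.BU
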