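import Pool.Agent.H65.BU.OpDefs

/-!
# Project BU: exactness of the reduced chains without any largeness (Lemma A)

`X` a complex vector space with idempotents `P v`, `v ∈ V`, which commute for adjacent vertices. If the complexes of
ALL full subcomplexes are exact in size `i`, then the complex of the families `f σ ∈ ⋂_(v ∈ σ) ker P v` is exact in
size `i`.

PROOF. Induction on the number of active vertices. If no vertex is active: coefficients in a vector space
(`ex_coeff`). Let `v` be active, `f` a cycle. Without the condition at `v`: `f = bd y`. The family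
`a τ = ± P v (y (τ + v))`, `τ` in the link of `v` (a full subcomplex), is a cycle with values in the image of `P v`, so
`a = bd x`; then `y + bd x⁺`, `x⁺ (τ + v) = ± x τ`, satisfies the condition at `v`.
-/

set_option autoImplicit false
set_option linter.unusedSectionVars false

open Finset

namespace Pool.Agent.H65.BU

open Pool.Agent.H78.RA

section coeff

variable {V : Type} [Fintype V] [DecidableEq V] {X : Type} [AddCommGroup X] [Module ℂ X]

private theorem ler_bd_sum {ι : Type} (ν : V → ℕ) (s : Finset ι) (g : ι → Finset V → X)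
    (σ : Finset V) : bd ν (fun τ => ∑ k ∈ s, g k τ) σ = ∑ k ∈ s, bd ν (g k) σ := by
  unfold bd
  rw [Finset.sum_comm]
  refine Finset.sum_congr rfl fun v _ => ?_
  rw [Finset.smul_sum]

/-- exactness with coefficients in a vector space -/
theorem ex_coeff {ν : V → ℕ} {P Q : Finset V → Prop} (h : Ex ℂ ν P Q) (f : Finset V → X)
    (hf : ∀ σ, f σ ≠ 0 → P σ) (hb : bd ν f = 0) :
    ∃ y : Finset V → X, (∀ σ, y σ ∈ Submodule.span ℂ (Set.range f)) ∧ (∀ σ, y σ ≠ 0 → Q σ) ∧
      bd ν y = f := by
  classical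
  set W : Submodule ℂ X := Submodule.span ℂ (Set.range f) with hW
  have : FiniteDimensional ℂ W := FiniteDimensional.span_of_finite ℂ (Set.finite_range f)
  let b := Module.finBasis ℂ W
  let F : Finset V → W := fun σ => ⟨f σ, Submodule.subset_span ⟨σ, rfl⟩⟩
  have hbF : ∀ σ, bd ν F σ = 0 := by
    intro σ
    have h1 := map_bd ν (W.subtype.toAddMonoidHom) F σ
    have h2 : bd ν (fun τ => W.subtype.toAddMonoidHom (F τ)) σ = bd ν f σ := rfl
    rw [h2, hb] at h1
    exact Subtype.ext h1.symm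
  have hk : ∀ k, ∃ y : Finset V → ℂ, (∀ σ, y σ ≠ 0 → Q σ) ∧
      bd ν y = fun σ => b.repr (F σ) k := by
    intro k
    refine h (fun σ => b.repr (F σ) k) (fun σ hσ => hf σ fun h0 => hσ ?_) ?_
    · have h1 : F σ = 0 := Subtype.ext h0
      rw [h1, map_zero]
      rfl
    · funext σ
      let φ : W →+ ℂ := ((Finsupp.lapply k : (_ →₀ ℂ) →ₗ[ℂ] ℂ) ∘ₗ
        (b.repr : W →ₗ[ℂ] _)).toAddMonoidHom
      have h1 := map_bd ν φ F σ
      rw [hbF σ, map_zero] at h1
      exact h1
  choose y hy1 hy2 using hk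
  refine ⟨fun σ => ∑ k, y k σ • (b k : X), fun σ => ?_, fun σ hσ => ?_, ?_⟩
  · exact Submodule.sum_mem _ fun k _ => Submodule.smul_mem _ _ (b k).2
  · obtain ⟨k, _, hk⟩ := Finset.exists_ne_zero_of_sum_ne_zero hσ
    exact hy1 k σ fun h0 => hk (by rw [h0, zero_smul])
  · funext σ
    rw [ler_bd_sum]
    have h1 : ∀ k, bd ν (fun τ => y k τ • (b k : X)) σ = b.repr (F σ) k • (b k : X) := by
      intro k
      let φ : ℂ →+ X := ((LinearMap.toSpanSingleton ℂ X (b k : X))).toAddMonoidHom
      have h2 := map_bd ν φ (y k) σ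
      rw [hy2 k] at h2
      exact h2
    rw [Finset.sum_congr rfl fun k _ => h1 k]
    have h3 := b.sum_repr (F σ)
    have h4 := congrArg (Subtype.val) h3
    rw [Submodule.coe_sum] at h4
    exact h4

end coeff

section signs

variable {V : Type} [Fintype V] [DecidableEq V] {X : Type} [AddCommGroup X] [Module ℂ X]

private theorem ler_sq (ν : V → ℕ) (τ : Finset V) (v : V) : sg ν τ v * sg ν τ v = 1 := by
  unfold sg
  rw [← mul_pow]
  norm_num

private theorem ler_swap {ν : V → ℕ} (hν : Function.Injective ν) {τ : Finset V} {u v : V}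
    (hu : u ∉ τ) (hv : v ∉ τ) (huv : u ≠ v) :
    sg ν τ u * sg ν (insert u τ) v = -(sg ν τ v * sg ν (insert v τ) u) := by
  rw [sg_insert ν τ v u hu, sg_insert ν τ u v hv]
  have h1 : ν u ≠ ν v := fun h => huv (hν h)
  rcases lt_or_gt_of_ne h1 with h | h
  · rw [if_pos h, if_neg (not_lt.2 h.le)]
    ring
  · rw [if_neg (not_lt.2 h.le), if_pos h]
    ring

/-- the link part of a chain -/
private def lk (ν : V → ℕ) (v : V) (Φ : X →ₗ[ℂ] X) (y : Finset V → X) (τ : Finset V) : X :=
  if v ∈ τ then 0 else sg ν τ v • Φ (y (insert v τ))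

/-- the cone over a chain -/
private def cn (ν : V → ℕ) (v : V) (x : Finset V → X) (σ : Finset V) : X :=
  if v ∈ σ then sg ν (σ.erase v) v • x (σ.erase v) else 0

private theorem bd_lk {ν : V → ℕ} (hν : Function.Injective ν) (v : V) (Φ : X →ₗ[ℂ] X)
    (y : Finset V → X) {τ : Finset V} (hv : v ∉ τ) :
    bd ν (lk ν v Φ y) τ = -(sg ν τ v • Φ (bd ν y (insert v τ))) := by
  have h1 : Φ (bd ν y (insert v τ)) = bd ν (fun σ => Φ (y σ)) (insert v τ) :=
    (map_bd ν Φ.toAddMonoidHom y (insert v τ)).symm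
  rw [h1]
  unfold bd
  have h2 : τᶜ = insert v (insert v τ)ᶜ := by
    ext u
    simp only [mem_compl, mem_insert]
    by_cases hu : u = v
    · subst hu
      simp [hv]
    · simp [hu]
  rw [h2, Finset.sum_insert (by simp)]
  have h3 : lk ν v Φ y (insert v τ) = 0 := by
    unfold lk
    rw [if_pos (mem_insert_self _ _)]
  rw [h3, smul_zero, zero_add, Finset.smul_sum, ← Finset.sum_neg_distrib]
  refine Finset.sum_congr rfl fun u hu => ?_
  rw [mem_compl, mem_insert, not_or] at hu
  have h4 : lk ν v Φ y (insert u τ) = sg ν (insert u τ) v • Φ (y (insert v (insert u τ))) := by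
    unfold lk
    rw [if_neg]
    rw [mem_insert, not_or]
    exact ⟨fun h => hu.1 h.symm, hv⟩
  rw [h4, smul_smul, smul_smul, ler_swap hν hu.2 hv hu.1, neg_smul, Finset.insert_comm v u τ]

private theorem bd_cn {ν : V → ℕ} (hν : Function.Injective ν) (v : V)
    (x : Finset V → X) {τ : Finset V} (hv : v ∉ τ) (hx : ∀ σ, v ∈ σ → x σ = 0) :
    bd ν (cn ν v x) (insert v τ) = -(sg ν τ v • bd ν x τ) := by
  unfold bd
  have h2 : τᶜ = insert v (insert v τ)ᶜ := by
    ext u
    simp only [mem_compl, mem_insert]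
    by_cases hu : u = v
    · subst hu
      simp [hv]
    · simp [hu]
  rw [h2, Finset.sum_insert (by simp), hx _ (mem_insert_self _ _), smul_zero, zero_add,
    Finset.smul_sum, ← Finset.sum_neg_distrib]
  refine Finset.sum_congr rfl fun u hu => ?_
  rw [mem_compl, mem_insert, not_or] at hu
  have h3 : v ∉ insert u τ := by
    rw [mem_insert, not_or]
    exact ⟨fun h => hu.1 h.symm, hv⟩
  have h4 : cn ν v x (insert u (insert v τ)) = sg ν (insert u τ) v • x (insert u τ) := by
    unfold cn
    rw [if_pos (mem_insert_of_mem (mem_insert_self _ _)), Finset.insert_comm u v τ, erase_insert h3]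
  rw [h4, smul_smul, smul_smul]
  have h5 := ler_swap hν hu.2 hv hu.1
  have h6 := ler_sq ν τ u
  have h7 := ler_sq ν (insert v τ) u
  have h8 : sg ν (insert v τ) u * sg ν (insert u τ) v =
      (sg ν τ u * sg ν τ u) * (sg ν (insert v τ) u * sg ν (insert u τ) v) := by
    rw [h6, one_mul]
  rw [h8]
  have h9 : (sg ν τ u * sg ν τ u) * (sg ν (insert v τ) u * sg ν (insert u τ) v) =
      sg ν τ u * sg ν (insert v τ) u * (sg ν τ u * sg ν (insert u τ) v) := by ring
  rw [h9, h5]
  have h10 : sg ν τ u * sg ν (insert v τ) u * -(sg ν τ v * sg ν (insert v τ) u) =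
      -(sg ν τ v * sg ν τ u) * (sg ν (insert v τ) u * sg ν (insert v τ) u) := by ring
  rw [h10, h7, mul_one, neg_smul]

private theorem bd_cn' {ν : V → ℕ} (v : V) (x : Finset V → X) {τ : Finset V} (hv : v ∉ τ) :
    bd ν (cn ν v x) τ = x τ := by
  unfold bd
  rw [Finset.sum_eq_single_of_mem v (mem_compl.2 hv)]
  · unfold cn
    rw [if_pos (mem_insert_self _ _), erase_insert hv, smul_smul, ler_sq, one_smul]
  · intro u _ huv
    unfold cn
    rw [if_neg, smul_zero]
    rw [mem_insert, not_or]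
    exact ⟨fun h => huv h.symm, hv⟩

end signs

section main

variable {V : Type} [Fintype V] [DecidableEq V] {X : Type} [AddCommGroup X] [Module ℂ X]

private theorem ler_aux (G : SimpleGraph V) {ν : V → ℕ} (hν : Function.Injective ν) (i : ℕ)
    (hG : ∀ A : Finset V, Ex ℂ ν (PP G A i) (PP G A (i + 1))) (P : V → X →ₗ[ℂ] X)
    (hi : ∀ v x, P v (P v x) = P v x) (hc : ∀ u v, G.Adj u v → ∀ x, P u (P v x) = P v (P u x))
    (n : ℕ) : ∀ (A S : Finset V) (Y : Submodule ℂ X), (S \ A).card = n →
      (∀ v ∈ S, v ∉ A → ∀ x ∈ Y, P v x ∈ Y) → ∀ f : Finset V → X, (∀ σ, f σ ∈ Y) →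
      (∀ σ, f σ ≠ 0 → PP G A i σ) → (∀ σ, ∀ v ∈ σ, v ∈ S → P v (f σ) = 0) → bd ν f = 0 →
      ∃ y : Finset V → X, (∀ σ, y σ ∈ Y) ∧ (∀ σ, y σ ≠ 0 → PP G A (i + 1) σ) ∧
        (∀ σ, ∀ v ∈ σ, v ∈ S → P v (y σ) = 0) ∧ bd ν y = f := by
  classical
  induction n using Nat.strong_induction_on with
  | _ n ih =>
    intro A S Y hn hY f hfY hf1 hf2 hf3
    by_cases h0 : ∃ v ∈ S, v ∉ A
    · obtain ⟨v, hvS, hvA⟩ := h0
      -- without the condition at `v`
      have hlt : ((S.erase v) \ A).card < n := by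
        rw [← hn]
        refine card_lt_card ?_
        rw [ssubset_iff_of_subset (sdiff_subset_sdiff (erase_subset v S) (Subset.refl A))]
        exact ⟨v, mem_sdiff.2 ⟨hvS, hvA⟩, fun h => notMem_erase v S (mem_sdiff.1 h).1⟩
      obtain ⟨y, hyY, hy1, hy2, hy3⟩ := ih _ hlt A (S.erase v) Y rfl
        (fun u hu huA => hY u (mem_of_mem_erase hu) huA) f hfY hf1
        (fun σ u hu huS => hf2 σ u hu (mem_of_mem_erase huS)) hf3
      -- the link
      set A' : Finset V := A ∪ univ.filter fun u => ¬ G.Adj v u with hA'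
      have hvA' : v ∈ A' := mem_union_right _ (mem_filter.2 ⟨mem_univ v, G.loopless.irrefl v⟩)
      have hadj : ∀ u, u ∉ A' → G.Adj v u ∧ u ∉ A := by
        intro u hu
        rw [hA', mem_union, not_or, mem_filter, not_and, not_not] at hu
        exact ⟨hu.2 (mem_univ u), hu.1⟩
      have hlt' : (S \ A').card < n := by
        rw [← hn]
        refine card_lt_card ?_
        rw [ssubset_iff_of_subset (sdiff_subset_sdiff (Subset.refl S) subset_union_left)]
        exact ⟨v, mem_sdiff.2 ⟨hvS, hvA⟩, fun h => (mem_sdiff.1 h).2 hvA'⟩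
      set Y' : Submodule ℂ X := Y ⊓ LinearMap.ker (LinearMap.id - P v) with hY'
      have hmem : ∀ x, x ∈ Y' ↔ x ∈ Y ∧ P v x = x := by
        intro x
        rw [hY', Submodule.mem_inf, LinearMap.mem_ker, LinearMap.sub_apply, LinearMap.id_apply,
          sub_eq_zero]
        exact ⟨fun h => ⟨h.1, h.2.symm⟩, fun h => ⟨h.1, h.2.symm⟩⟩
      have hPP : ∀ τ, v ∉ τ → y (insert v τ) ≠ 0 → PP G A' i τ := by
        intro τ hv hne
        obtain ⟨h1, h2, h3⟩ := hy1 _ hne
        rw [card_insert_of_notMem hv] at h2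
        refine ⟨h1.subset (by simp), by omega, ?_⟩
        rw [disjoint_left]
        intro u hu huA
        rw [hA', mem_union] at huA
        rcases huA with huA | huA
        · exact disjoint_left.1 h3 (mem_insert_of_mem hu) huA
        · refine (mem_filter.1 huA).2 ?_
          exact h1 (mem_coe.2 (mem_insert_self v τ)) (mem_coe.2 (mem_insert_of_mem hu))
            fun h => hv (h ▸ hu)
      have hs1 : ∀ v_1 ∈ S, v_1 ∉ A' → ∀ x ∈ Y', P v_1 x ∈ Y' := by
        intro u huS huA' z hz
        obtain ⟨h1, h2⟩ := (hmem z).1 hz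
        obtain ⟨h3, h4⟩ := hadj u huA'
        refine (hmem _).2 ⟨hY u huS h4 z h1, ?_⟩
        rw [← hc u v h3.symm, h2]
      have hs2 : ∀ τ, lk ν v (P v) y τ ∈ Y' := by
        intro τ
        rw [hmem]
        unfold lk
        split_ifs with hv
        · exact ⟨Y.zero_mem, map_zero _⟩
        · refine ⟨Y.smul_of_tower_mem _ (hY v hvS hvA _ (hyY _)), ?_⟩
          rw [map_zsmul, hi]
      have hs3 : ∀ τ, lk ν v (P v) y τ ≠ 0 → PP G A' i τ := by
        intro τ hτ
        unfold lk at hτ
        split_ifs at hτ with hv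
        · exact absurd rfl hτ
        · refine hPP τ hv fun h => hτ ?_
          rw [h, map_zero, smul_zero]
      have hs4 : ∀ τ, ∀ u ∈ τ, u ∈ S → P u (lk ν v (P v) y τ) = 0 := by
        intro τ u hu huS
        unfold lk
        split_ifs with hv
        · exact map_zero _
        · have huv : u ≠ v := fun h => hv (h ▸ hu)
          rw [map_zsmul]
          by_cases h2 : y (insert v τ) = 0
          · rw [h2, map_zero, map_zero, smul_zero]
          · have h3 : G.Adj u v := by
              obtain ⟨h4, -, -⟩ := hy1 _ h2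
              exact h4 (mem_coe.2 (mem_insert_of_mem hu)) (mem_coe.2 (mem_insert_self v τ)) huv
            rw [hc u v h3, hy2 _ u (mem_insert_of_mem hu) (mem_erase.2 ⟨huv, huS⟩), map_zero,
              smul_zero]
      have hs5 : bd ν (lk ν v (P v) y) = 0 := by
        funext τ
        by_cases hv : v ∈ τ
        · unfold bd
          refine Finset.sum_eq_zero fun u _ => ?_
          unfold lk
          rw [if_pos (mem_insert_of_mem hv), smul_zero]
        · rw [bd_lk hν v (P v) y hv, hy3, hf2 _ v (mem_insert_self v τ) hvS, smul_zero, neg_zero]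
          rfl
      obtain ⟨x, hxY, hx1, hx2, hx3⟩ := ih _ hlt' A' S Y' rfl hs1 (lk ν v (P v) y) hs2 hs3 hs4 hs5
      -- the corrected chain
      have hxv : ∀ σ, v ∈ σ → x σ = 0 := by
        intro σ hσ
        by_contra hne
        exact disjoint_left.1 (hx1 σ hne).2.2 hσ hvA'
      have hval : ∀ τ, v ∉ τ → (y + bd ν (cn ν v x)) (insert v τ) =
          y (insert v τ) - P v (y (insert v τ)) := by
        intro τ hv
        rw [Pi.add_apply, bd_cn hν v x hv hxv, hx3]
        unfold lk
        rw [if_neg hv, smul_smul, ler_sq, one_smul, sub_eq_add_neg]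
      have hval' : ∀ τ, v ∉ τ → (y + bd ν (cn ν v x)) τ = y τ + x τ := by
        intro τ hv
        rw [Pi.add_apply, bd_cn' v x hv]
      have hins : ∀ σ, v ∈ σ → ∃ τ, v ∉ τ ∧ σ = insert v τ := fun σ hσ =>
        ⟨σ.erase v, notMem_erase v σ, (insert_erase hσ).symm⟩
      refine ⟨y + bd ν (cn ν v x), fun σ => ?_, fun σ hσ => ?_, fun σ u hu huS => ?_, ?_⟩
      · by_cases hv : v ∈ σ
        · obtain ⟨τ, hτ, rfl⟩ := hins σ hv
          rw [hval τ hτ]
          exact Y.sub_mem (hyY _) (hY v hvS hvA _ (hyY _))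
        · rw [hval' σ hv]
          exact Y.add_mem (hyY _) ((hmem _).1 (hxY σ)).1
      · by_cases hv : v ∈ σ
        · obtain ⟨τ, hτ, rfl⟩ := hins σ hv
          rw [hval τ hτ] at hσ
          refine hy1 _ fun h => hσ ?_
          rw [h, map_zero, sub_zero]
        · rw [hval' σ hv] at hσ
          by_cases h1 : y σ = 0
          · have h2 : x σ ≠ 0 := by
              intro h3
              exact hσ (by rw [h1, h3, add_zero])
            obtain ⟨h3, h4, h5⟩ := hx1 σ h2
            exact ⟨h3, h4, h5.mono_right subset_union_left⟩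
          · exact hy1 σ h1
      · by_cases hv : v ∈ σ
        · obtain ⟨τ, hτ, rfl⟩ := hins σ hv
          rw [hval τ hτ, map_sub]
          by_cases huv : u = v
          · rw [huv, hi, sub_self]
          · have h1 : P u (y (insert v τ)) = 0 :=
              hy2 _ u hu (mem_erase.2 ⟨huv, huS⟩)
            by_cases h2 : y (insert v τ) = 0
            · simp only [h2, map_zero, sub_zero]
            · have h3 : G.Adj u v := by
                obtain ⟨h4, -, -⟩ := hy1 _ h2
                exact h4 (mem_coe.2 hu) (mem_coe.2 (mem_insert_self v τ)) huv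
              rw [hc u v h3, h1, map_zero, sub_zero]
        · have huv : u ≠ v := fun h => hv (h ▸ hu)
          rw [hval' σ hv, map_add, hy2 σ u hu (mem_erase.2 ⟨huv, huS⟩), zero_add]
          exact hx2 σ u hu huS
      · rw [bd_add, hy3]
        have h1 : bd ν (bd ν (cn ν v x)) = 0 := funext fun τ => bd_bd ν hν _ τ
        rw [h1, add_zero]
    · -- no active vertex
      have hSA : ∀ v ∈ S, v ∈ A := by
        intro v hv
        by_contra h
        exact h0 ⟨v, hv, h⟩
      obtain ⟨y, hy1, hy2, hy3⟩ := ex_coeff (hG A) f hf1 hf3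
      have hle : Submodule.span ℂ (Set.range f) ≤ Y := by
        rw [Submodule.span_le]
        rintro _ ⟨σ, rfl⟩
        exact hfY σ
      refine ⟨y, fun σ => hle (hy1 σ), hy2, fun σ v hv hvS => ?_, hy3⟩
      by_cases h1 : y σ = 0
      · rw [h1, map_zero]
      · exact absurd (hSA v hvS) (disjoint_left.1 (hy2 σ h1).2.2 hv)

/-- **Lemma A.** -/
theorem exact_of_idem (G : SimpleGraph V) {ν : V → ℕ} (hν : Function.Injective ν) (i : ℕ)
    (hG : ∀ A : Finset V, Ex ℂ ν (PP G A i) (PP G A (i + 1))) (P : V → X →ₗ[ℂ] X)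
    (hi : ∀ v x, P v (P v x) = P v x) (hc : ∀ u v, G.Adj u v → ∀ x, P u (P v x) = P v (P u x))
    (f : Finset V → X) (hf1 : ∀ σ, f σ ≠ 0 → G.IsClique (σ : Set V) ∧ σ.card = i)
    (hf2 : ∀ σ, ∀ v ∈ σ, P v (f σ) = 0) (hf3 : bd ν f = 0) :
    ∃ y : Finset V → X, (∀ σ, y σ ≠ 0 → G.IsClique (σ : Set V) ∧ σ.card = i + 1) ∧
      (∀ σ, ∀ v ∈ σ, P v (y σ) = 0) ∧ bd ν y = f := by
  obtain ⟨y, -, h1, h2, h3⟩ := ler_aux G hν i hG P hi hc _ ∅ univ ⊤ rfl
    (fun _ _ _ _ _ => Submodule.mem_top) f (fun _ => Submodule.mem_top)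
    (fun σ hσ => ⟨(hf1 σ hσ).1, (hf1 σ hσ).2, disjoint_empty_right σ⟩)
    (fun σ v hv _ => hf2 σ v hv) hf3
  exact ⟨y, fun σ hσ => ⟨(h1 σ hσ).1, (h1 σ hσ).2.1⟩, fun σ v hv => h2 σ v hv (mem_univ v), h3⟩

end main

end Pool.Agent.H65.BU
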