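import Pool.Agent.H65.BU.GP
import Pool.Agent.H85.DV.Davis

/-!
# Project BU: exactness of the reduced chains, definition

The reduced chains `IsModelChain` and the comparison with the Davis complex are in H85/DV/Davis.
-/

set_option autoImplicit false

open Finset

namespace Pool.Agent.H65.BU

open Pool.Agent.H85.DV

/-- exactness of the reduced chains in degree `i` -/
def ExR {V : Type} [Fintype V] [DecidableEq V] (G : SimpleGraph V) (Γ : V → Type)
    [∀ v, Group (Γ v)] [∀ v, Fintype (Γ v)] (ν : V → ℕ) (i : ℕ) : Prop :=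
  ∀ z : Finset V → GP G Γ → ℂ, IsModelChain G (fun v => (io G : Γ v →* GP G Γ)) i z →
    (∀ T g, bdMod ν z T g = 0) → ∃ y : Finset V → GP G Γ → ℂ,
      IsModelChain G (fun v => (io G : Γ v →* GP G Γ)) (i + 1) y ∧ ∀ T g, bdMod ν y T g = z T g

end Pool.Agent.H65.BU
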