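import Pool.Agent.H65.BU.GP

/-!
# Project BU: transversals

PROOF. `φ : GP G Γ →* Monoid.CoprodI Γ`: `of` on `Γ u` and on `Γ v`, trivial on the other vertex groups (`liftGP`; `u`, `v`
are not adjacent). `X = {g | fstIdx (Word.equiv (φ g)⁻¹) ≠ some u}`. `(φ (g h))⁻¹ = of h⁻¹ * (φ g)⁻¹`:
`Word.equivPair_smul_same`, `equivPair_head`: with the pair (head, tail) of the word of `(φ g)⁻¹` with respect to `u`
the new head is `h⁻¹ * head`, and `fstIdx ≠ some u` iff the head is 1: exactly one `h`. Second part: with respect to `v`: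
if the new head `h⁻¹ * head` is not 1 then `fstIdx = some v ≠ some u`; so `g h ∉ X` implies `h = head`.
-/

set_option autoImplicit false

open Finset

namespace Pool.Agent.H65.BU

open Monoid.CoprodI in
/-- a word begins with `u` if and only if its head with respect to `u` is not 1 -/
private theorem fstIdx_ne_iff_head {V : Type} [DecidableEq V] {Γ : V → Type} [∀ v, Group (Γ v)]
    [∀ v, DecidableEq (Γ v)] (u : V) (w : Word Γ) :
    w.fstIdx ≠ some u ↔ (Word.equivPair u w).head = 1 := by
  constructor
  · intro h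
    rw [Word.equivPair_eq_of_fstIdx_ne h]
  · intro h
    have h1 : Word.rcons (Word.equivPair u w) = w := by
      rw [← Word.equivPair_symm, Equiv.symm_apply_apply]
    rw [Word.rcons, dif_pos h] at h1
    have h2 := (Word.equivPair u w).fstIdx_ne
    rwa [h1] at h2

open Monoid.CoprodI in
/-- a word with a nontrivial head with respect to `v` begins with `v` -/
private theorem fstIdx_of_head {V : Type} [DecidableEq V] {Γ : V → Type} [∀ v, Group (Γ v)]
    [∀ v, DecidableEq (Γ v)] (v : V) (w : Word Γ) (h : (Word.equivPair v w).head ≠ 1) :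
    w.fstIdx = some v := by
  by_contra h1
  exact h ((fstIdx_ne_iff_head v w).1 h1)

theorem exists_trans {V : Type} {G : SimpleGraph V} {Γ : V → Type} [∀ v, Group (Γ v)] {u v : V}
    (huv : u ≠ v) (hn : ¬ G.Adj u v) : ∃ X : Set (GP G Γ), (∀ g, ∃! h : Γ u, g * io G h ∈ X) ∧
      ∀ g (h h' : Γ v), g * io G h ∉ X → g * io G h' ∉ X → h = h' := by
  classical
  -- the projection to the free product of `Γ u` and `Γ v`
  let f : ∀ w, Γ w →* Monoid.CoprodI Γ := fun w => if w = u ∨ w = v then Monoid.CoprodI.of else 1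
  have hf : ∀ a b, G.Adj a b → ∀ (x : Γ a) (y : Γ b), f a x * f b y = f b y * f a x := by
    intro a b hab x y
    by_cases ha : a = u ∨ a = v
    · have hb : ¬ (b = u ∨ b = v) := by
        rintro (hb | hb)
        · rcases ha with ha | ha
          · rw [ha, hb] at hab; exact G.loopless.irrefl u hab
          · rw [ha, hb] at hab; exact hn hab.symm
        · rcases ha with ha | ha
          · rw [ha, hb] at hab; exact hn hab
          · rw [ha, hb] at hab; exact G.loopless.irrefl v hab
      have h1 : f b = 1 := if_neg hb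
      rw [h1, MonoidHom.one_apply, mul_one, one_mul]
    · have h1 : f a = 1 := if_neg ha
      rw [h1, MonoidHom.one_apply, mul_one, one_mul]
  have hfu : f u = Monoid.CoprodI.of := if_pos (Or.inl rfl)
  have hfv : f v = Monoid.CoprodI.of := if_pos (Or.inr rfl)
  let φ : GP G Γ →* Monoid.CoprodI Γ := liftGP f hf
  let W : GP G Γ → Monoid.CoprodI.Word Γ := fun g => (φ g)⁻¹ • Monoid.CoprodI.Word.empty
  have hWu : ∀ g (h : Γ u), W (g * io G h) = Monoid.CoprodI.of h⁻¹ • W g := by
    intro g h
    show (φ (g * io G h))⁻¹ • _ = Monoid.CoprodI.of h⁻¹ • ((φ g)⁻¹ • _)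
    rw [map_mul, show φ (io G h) = f u h from liftGP_io f hf h, hfu, mul_inv_rev, mul_smul, map_inv]
  have hWv : ∀ g (h : Γ v), W (g * io G h) = Monoid.CoprodI.of h⁻¹ • W g := by
    intro g h
    show (φ (g * io G h))⁻¹ • _ = Monoid.CoprodI.of h⁻¹ • ((φ g)⁻¹ • _)
    rw [map_mul, show φ (io G h) = f v h from liftGP_io f hf h, hfv, mul_inv_rev, mul_smul, map_inv]
  refine ⟨{g | (W g).fstIdx ≠ some u}, ?_, ?_⟩
  · intro g
    refine ⟨(Monoid.CoprodI.Word.equivPair u (W g)).head, ?_, ?_⟩
    · show (W (g * io G _)).fstIdx ≠ some u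
      rw [hWu, fstIdx_ne_iff_head, Monoid.CoprodI.Word.equivPair_smul_same]
      exact inv_mul_cancel _
    · intro h hh
      have h1 : (W (g * io G h)).fstIdx ≠ some u := hh
      rw [hWu, fstIdx_ne_iff_head, Monoid.CoprodI.Word.equivPair_smul_same] at h1
      exact inv_mul_eq_one.1 h1
  · have key : ∀ g (h : Γ v), g * io G h ∉ {g | (W g).fstIdx ≠ some u} →
        h = (Monoid.CoprodI.Word.equivPair v (W g)).head := by
      intro g h hh
      by_contra hne
      apply hh
      show (W (g * io G h)).fstIdx ≠ some u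
      rw [hWv, fstIdx_of_head v]
      · intro h1
        exact huv (Option.some.inj h1).symm
      · rw [Monoid.CoprodI.Word.equivPair_smul_same]
        intro h1
        exact hne (inv_mul_eq_one.1 h1)
    intro g h h' hh hh'
    rw [key g h hh, key g h' hh']

end Pool.Agent.H65.BU
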